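import Pool.Agent.Lib.MP_894941_lc.Thr2

/-! A normal measure on points `x` with good maps `P(V_x) → P(V_l)` refutes EEA. -/

set_option synthInstance.maxSize 100000
set_option linter.unusedVariables false
set_option linter.unusedSectionVars false

namespace Pool.Agent.Lib.MP_894941_lc

open Pool.Agent.Lib.MP_1d770b_lc Pool.Agent.Lib.MP_75a307_lc

universe u
variable {M : Type u} {E : M → M → Prop} [hZ : ZF E]

/-- `a'` is the section of `r` at `a` -/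
def Im (E : M → M → Prop) (r a a' : M) : Prop :=
  (∀ s, E s a' → App E r a s) ∧ ∀ s, App E r a s → E s a'

/-- `a0 = a ∩ V_x` -/
def Cut (E : M → M → Prop) (a x a0 : M) : Prop := ∀ s, E s a0 ↔ E s a ∧ Rk E s x

section
variable (a b c : (ℕ → M) → M) [IsT a] [IsT b] [IsT c]
instance : Df E fun v => Im E (a v) (b v) (c v) := by unfold Im; infer_instance
instance : Df E fun v => Cut E (a v) (b v) (c v) := by unfold Cut; infer_instance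
end

variable (E) in
/-- `r` codes a map `P(V_x) → P(V_l)` that keeps the seventeen properties -/
def Gm (x r l : M) : Prop := Lim E x ∧ ∀ n : Fin 17, ∀ q, Rk E q x → ∀ a, SV E a x →
  ∀ b, SV E b x → ∀ c, SV E c x → Pm E n x q a b c → ∀ a', Im E r a a' → ∀ b', Im E r b b' →
    ∀ c', Im E r c c' → Pm E n l q a' b' c'

theorem dGm : D3 E (Gm E) := fun _ _ _ _ _ _ => by
  unfold Gm
  refine @Df.and _ _ _ _ inferInstance (@Df.allFin _ _ 17 _ fun n => ?_)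
  have := dPm (E := E) n
  infer_instance

theorem ex_im (r a : M) : ∃ a', Im E r a a' := by
  obtain ⟨d, hd⟩ := ex_fld E r
  obtain ⟨y, hy⟩ := sep E d fun s => App E r a s
  exact ⟨y, fun s k => ((hy s).1 k).2, fun s k => (hy s).2 ⟨(hd _ _ k).2, k⟩⟩

theorem Cut.sv {a x a0 : M} (h : Cut E a x a0) : SV E a0 x := fun s k => ((h s).1 k).2

theorem Cut.app {a x a0 u v : M} (h : Cut E a x a0) (hl : Lim E x) :
    App E a0 u v ↔ App E a u v ∧ Rk E u x ∧ Rk E v x :=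
  ⟨fun k => ⟨k.mono fun s c => ((h s).1 c).1, h.sv.app k⟩,
    fun ⟨⟨p, k1, k2⟩, k3, k4⟩ => ⟨p, k1, (h p).2 ⟨k2, hl.opair k3 k4 k1⟩⟩⟩

theorem Rm.down {n : ℕ} {y y' q u v : M} (ho : IsOrd E y) (hu : Rk E u y')
    (h : Rm E n y q u v) : Rm E n y' q u v := by
  match n with
  | 0 | 1 | 2 | 3 | 4 | 5 | 6 | 7 => exact h
  | _ + 8 => exact hu.ord_mem (ho.mem h)

theorem Rm.up {n : ℕ} {y y' q u v : M} (ho : IsOrd E y) (hy : E y' y)
    (h : Rm E n y' q u v) : Rm E n y q u v := by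
  match n with
  | 0 | 1 | 2 | 3 | 4 | 5 | 6 | 7 => exact h
  | _ + 8 => exact ho.tr hy h

theorem Nm.refl {κ U : M} (h : Nm E κ U) (hC : Choice E) (n : ℕ) {q a b c : M} (hq : Rk E q κ)
    (H : Pm E n κ q a b c) : AE E U fun x => Rk E q x ∧ (Lim E x → ∀ a0, Cut E a x a0 →
      ∀ b0, Cut E b x b0 → ∀ c0, Cut E c x c0 → Pm E n x q a0 b0 c0) := by
  have hi := h.ia hC
  have ko := h.ord
  obtain ⟨γ, g1, g2⟩ := hi.lim.rk hq
  have tq : AE E U fun x => Rk E q x := h.mono (h.tail g1) fun x hx k => g2.lt (ko.mem hx) k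
  have easy : (∀ x, E x κ → Rk E q x → Lim E x → ∀ a0, Cut E a x a0 → ∀ b0, Cut E b x b0 →
      ∀ c0, Cut E c x c0 → Pm E n x q a0 b0 c0) → AE E U fun x => Rk E q x ∧ (Lim E x →
      ∀ a0, Cut E a x a0 → ∀ b0, Cut E b x b0 → ∀ c0, Cut E c x c0 → Pm E n x q a0 b0 c0) :=
    fun k => h.mono tq fun x hx c => ⟨c, k x hx c⟩
  match n with
  | 0 =>
    exact easy fun x hx _ hl a0 ha b0 hb c0 hc u hu v hv =>
      (H u (hu.lt ko hx) v (hv.lt ko hx)).imp (fun k => (ha.app hl).2 ⟨k, hu, hv⟩)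
        fun k => (hb.app hl).2 ⟨k, hu, hv⟩
  | 1 =>
    exact easy fun x hx _ hl a0 ha b0 hb c0 hc s k1 k2 =>
      (hc s).2 ⟨H s ((ha s).1 k1).1 ((hb s).1 k2).1, ha.sv s k1⟩
  | 2 =>
    exact easy fun x hx _ hl a0 ha b0 hb c0 hc s k1 => H s ((ha s).1 k1).1
  | 3 =>
    exact easy fun x hx _ hl a0 ha b0 hb c0 hc t v k1 k2 =>
      (hc t).2 ⟨H t v ((ha.app hl).1 k1).1 ((hb.app hl).1 k2).1, ((ha.app hl).1 k1).2.1⟩
  | 4 =>
    exact easy fun x hx _ hl a0 ha b0 hb c0 hc t u k1 v k2 =>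
      (hc.app hl).2 ⟨H t u ((ha.app hl).1 k1).1 v ((hb.app hl).1 k2).1, ((ha.app hl).1 k1).2.1,
        ((hb.app hl).1 k2).2.2⟩
  | 5 =>
    refine (h.and tq (h.diag hC (fun ξ x => ∀ s, Rk E s ξ → ∃ u, Rk E u x ∧ App E a s u)
      fun ξ hξ => ?_)).mono fun x k => ⟨k.1, fun hl a0 ha b0 hb c0 hc s hs => ?_⟩
    · obtain ⟨v, hv⟩ := ex_V (ko.mem hξ)
      obtain ⟨β, b1, b2⟩ := hi.bd (rk_of_sub ko hξ fun z => (hv z).1)
        (fun s δ => ∃ u, Rk E u δ ∧ App E a s u) fun s hs => by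
          obtain ⟨u, u1, u2⟩ := H s (((hv s).1 hs).lt ko hξ)
          obtain ⟨δ, d1, d2⟩ := hi.lim.rk u1
          exact ⟨δ, d1, u, d2, u2⟩
      refine h.mono (h.tail b1) fun x hx k s hs => ?_
      obtain ⟨δ, d1, u, d2, d3⟩ := b2 s ((hv s).2 hs)
      exact ⟨u, d2.lt (ko.mem hx) ((ko.mem hx).tr k d1), d3⟩
    · obtain ⟨ξ, c1, c2⟩ := hl.rk hs
      obtain ⟨u, u1, u2⟩ := k.2 ξ c1 s c2
      exact ⟨u, u1, (ha.app hl).2 ⟨u2, hs, u1⟩⟩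
  | 6 =>
    exact easy fun x hx k hl a0 ha b0 hb c0 hc s k1 =>
      (hb.app hl).2 ⟨H s ((ha s).1 k1).1, k, ha.sv s k1⟩
  | 7 =>
    exact easy fun x hx _ hl a0 ha b0 hb c0 hc t ht k => H t (ht.lt ko hx) ⟨k.1,
      fun n hn m hm e => let ⟨u, k1, v, k2, p, k3, k4⟩ := k.2 n hn m hm e
        ⟨u, k1, v, k2, p, ((ha.app hl).1 k3).1, k4⟩⟩
  | n + 8 =>
    exact easy fun x hx _ hl a0 ha b0 hb c0 hc => ⟨fun u v k =>
      let ⟨k1, k2, k3⟩ := (ha.app hl).1 k; ⟨k2, k3, (H.1 u v k1).2.2.down ko k2⟩,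
      fun u hu v hv k => (ha.app hl).2 ⟨H.2 u (hu.lt ko hx) v (hv.lt ko hx) (k.up ko hx), hu, hv⟩⟩

theorem ex_ty (hC : Choice E) {κ l U : M} (h : Nm E κ U) (hl : Tg E κ l) (lt : E κ l)
    (H : AE E U fun x => ∃ r, Gm E x r l) : ∃ k w, Ty E κ l U k w := by
  have dG := dGm (E := E)
  obtain ⟨ρ, -, -, hρ⟩ := skolem hC κ fun x r => Gm E x r l
  obtain ⟨K, hK⟩ := ex_V h.ord
  obtain ⟨P, hP⟩ := ex_pow E K
  obtain ⟨k, -, -, hk⟩ := skolem hC κ fun x g => ∀ a, E a P → ∀ a0, Cut E a x a0 →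
    ∀ r, r = ap E ρ x → ∀ a', a' = ap E g a → Im E r a0 a'
  replace hk : ∀ x, E x κ → ∀ a, SV E a κ → ∀ a0, Cut E a x a0 →
      Im E (ap E ρ x) a0 (kx E k x a) := fun x hx a ha a0 c => by
    refine hk x hx ?_ a ((hP a).2 fun s k => (hK s).2 (ha s k)) a0 c _ rfl _ rfl
    obtain ⟨g, -, -, hg⟩ := skolem hC P fun a a' => ∀ a0, Cut E a x a0 → Im E (ap E ρ x) a0 a'
    refine ⟨g, fun a ha a0 c r e a' e' => e ▸ e' ▸ hg a ha ?_ a0 c⟩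
    obtain ⟨a', k⟩ := ex_im (E := E) (ap E ρ x) a0
    exact ⟨a', fun a1 c1 => (ext' E fun s => (c s).trans (c1 s).symm : a0 = a1) ▸ k⟩
  obtain ⟨w, b1, b2⟩ := (omega_lt h.ord).2 h.2.1
  refine ⟨k, w, h.uf hC, hl, lt, b1, b2, fun n hn q a b c hq ha hb hc k' => ?_⟩
  refine h.mono (h.and H (h.refl hC n hq k')) fun x hx ⟨k1, k2, k3⟩ => ?_
  obtain ⟨k4, k5⟩ := hρ x hx k1
  obtain ⟨a0, ca⟩ := sep E a fun s => Rk E s x
  obtain ⟨b0, cb⟩ := sep E b fun s => Rk E s x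
  obtain ⟨c0, cc⟩ := sep E c fun s => Rk E s x
  exact k5 ⟨n, hn⟩ q k2 a0 (Cut.sv ca) b0 (Cut.sv cb) c0 (Cut.sv cc) (k3 k4 a0 ca b0 cb c0 cc)
    _ (hk x hx a ha a0 ca) _ (hk x hx b hb b0 cb) _ (hk x hx c hc c0 cc)

theorem Gm.ss (hC : Choice E) {x r l w : M} (h : Gm E x r l) (hl : IA E Set.univ l) (lt : E x l)
    (hw : IsOmega E w) (wx : E w x) : Superstrong E x l := by
  obtain ⟨Y, hY⟩ := ex_upair E w w
  obtain ⟨U, hU⟩ := ex_upair E Y Y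
  have ae : ∀ P, AE E U P ↔ P w := fun P =>
    ⟨fun ⟨Z, a, b⟩ => b w (((hU Z).1 a).elim id id ▸ (hY w).2 (Or.inl rfl)),
      fun k => ⟨Y, (hU Y).2 (Or.inl rfl), fun s a => ((hY s).1 a).elim id id ▸ k⟩⟩
  obtain ⟨K, hK⟩ := ex_V h.1.1
  obtain ⟨P, hP⟩ := ex_pow E K
  obtain ⟨g, -, -, hg⟩ := skolem hC P fun a a' => Im E r a a'
  replace hg : ∀ a, SV E a x → Im E r a (ap E g a) := fun a ha =>
    hg a ((hP a).2 fun s k => (hK s).2 (ha s k)) (ex_im r a)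
  obtain ⟨k, -, hk⟩ := lam hC x fun _ => g
  have ty : Ty E x l U k w := ⟨⟨h.1, fun a b => (ae _).2 ⟨(ae _).1 a, (ae _).1 b⟩,
    fun a b => (ae _).2 (b w wx ((ae _).1 a)), fun a => ⟨w, wx, (ae _).1 a⟩,
    fun a => (ae _).2 (a w wx), fun P _ => (em (P w)).imp (ae _).2 (ae _).2,
    fun _ P _ a => (ae _).2 fun ξ b => (ae _).1 (a ξ b)⟩, tg_ia hl lt, lt, hw, wx,
    fun n hn q a b c hq ha hb hc H => (ae _).2 (by
      simp only [kx, hk w wx]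
      exact h.2 ⟨n, hn⟩ q hq a ha b hb c hc H _ (hg a ha) _ (hg b hb) _ (hg c hc))⟩
  obtain ⟨K, L, N, V, a⟩ := ty.sz hC
  exact a.ss hC ae

theorem Superstrong.below {κ μ U T : M} (h : Superstrong E κ μ) (hU : Nm E κ U)
    (hT : AE E U fun x => E x T) : ∃ y, E y κ ∧ ∃ V, Nm E y V ∧ AE E V fun x => E x T := by
  obtain ⟨j, W, h, rfl, hV⟩ := h
  have hl : Lim E (j κ) := (h.el.tr1 (fun _ k => Lim E k) κ).1 h.ia.lim
  obtain ⟨p, hp⟩ := ex_pow E κ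
  have r1 : Rk E p (j κ) := MP_75a307_lc.Lim.pow hl (hl.1.rk h.lt) fun x => (hp x).1
  have r2 : Rk E U (j κ) := r1.sub fun Y a => (hp Y).2 (hU.2.2.1 Y a)
  obtain ⟨y, y1, V, -, y2⟩ := (h.el.tr2 (fun W k T => ∃ y, E y k ∧ ∃ V ∈ W, NW E W y V ∧
    AE E V fun x => E x T) κ T).2 ⟨κ, h.lt, U, hV.mem r2, hU.down W,
      hU.mono hT fun x a b => h.fix x a ▸ h.el.mem_iff.2 b⟩
  exact ⟨y, y1, V, y2⟩

theorem core (hC : Choice E) {k l U : M} (h : Nm E k U) (hl : Tg E k l) (lt : E k l)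
    (H : AE E U fun x => ∃ r, Gm E x r l) :
    ∃ κ, Le E κ k ∧ Tall E κ l ∧ ∀ μ, ¬ Superstrong E κ μ := by
  have dG := dGm (E := E)
  obtain ⟨T, hT⟩ := sep E l fun x => ∃ r, Gm E x r l
  obtain ⟨κ, k1, ⟨V, k2, k3⟩, k4⟩ := ord_min (fun y => ∃ V, Nm E y V ∧ AE E V fun x => E x T)
    h.ord ⟨U, h, h.mono H fun x a b => (hT x).2 ⟨hl.1.tr lt a, b⟩⟩
  have le : Le E κ k := k1.le_of_not h.ord fun c =>
    k4 k c ⟨U, h, h.mono H fun x a b => (hT x).2 ⟨hl.1.tr lt a, b⟩⟩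
  obtain ⟨f, w, a1⟩ := ex_ty hC k2 (hl.le (le.sub h.ord)) (le.lt hl.1 lt) (k3.mono fun x a => ((hT x).1 a).2)
  obtain ⟨K, L, N, V', a2⟩ := a1.sz hC
  exact ⟨κ, le, a2.tall hC k2, fun μ c => let ⟨y, y1, y2⟩ := c.below k2 k3; k4 y y1 y2⟩

end Pool.Agent.Lib.MP_894941_lc
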