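import Pool.Agent.Lib.MP_75a307_lc.Defs

/-!
Tall, superstrong and Vopenka cardinals inside a model `(M, E)` of ZFC.
-/

namespace Pool.Agent.Lib.MP_894941_lc

open Pool.Agent.Lib.MP_1d770b_lc Pool.Agent.Lib.MP_75a307_lc

universe u

variable {M : Type u} (E : M → M → Prop)

/-- `κ` is tall with target `l`: `j : V → W` has critical point `κ`, `j κ = l`, and each
function from `κ` to `W` lies in `W`. -/
def Tall (κ l : M) : Prop :=
  ∃ j W, ElEmb E j W κ ∧ j κ = l ∧
    ∀ f b, Func E f κ b → (∀ x y, App E f x y → y ∈ W) → f ∈ W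

/-- `κ` is superstrong with target `l`. -/
def Superstrong (κ l : M) : Prop := ∃ j W, ElEmb E j W κ ∧ j κ = l ∧ VSub E W l

/-- `((i, a), (b, c)) ∈ R`: the ternary relation number `i` of `R` holds of `a, b, c`. -/
def Tup (R i a b c : M) : Prop := ∃ p q, IsOPair E p i a ∧ IsOPair E q b c ∧ App E R p q

/-- `k` embeds the structure `(A, R)` in `(B, S)`; the relations are indexed by `I`. -/
def Emb (I A R B S k : M) : Prop :=
  Func E k A B ∧ OneOne E k ∧ ∀ i a b c a' b' c', E i I → App E k a a' → App E k b b' →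
    App E k c c' → (Tup E R i a b c ↔ Tup E S i a' b' c')

/-- `β` is a Vopenka cardinal: inaccessible, and for each signature `I ∈ V_β`, each family
`C ⊆ V_β`, `C ∉ V_β`, of structures has two different members with an embedding. -/
def Vop (β : M) : Prop :=
  Inacc E Set.univ β ∧ ∀ I C, InV E I β → (∀ s, E s C → InV E s β ∧ ∃ A R, IsOPair E s A R) →
    ¬ InV E C β → ∃ A R B S k, App E C A R ∧ App E C B S ∧ (A ≠ B ∨ R ≠ S) ∧ Emb E I A R B S k

end Pool.Agent.Lib.MP_894941_lc
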