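import Pool.Agent.Lib.MP_894941_lc.Defs

/-!
1-extendible and supercompact cardinals inside a model of ZFC.
-/

namespace Pool.Agent.Lib.MP_894941_lc

open Pool.Agent.Lib.MP_1d770b_lc Pool.Agent.Lib.MP_75a307_lc

universe u

variable {M : Type u} (E : M → M → Prop)

/-- `κ` is 1-extendible: a function `e : V_{κ+1} → V_{l+1}` is elementary with critical
point `κ`. -/
def OneExt (κ l : M) : Prop :=
  IsOrd E κ ∧ IsOrd E l ∧ ∃ A B e, (∀ x, E x A ↔ ∀ y, E y x → InV E y κ) ∧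
    (∀ x, E x B ↔ ∀ y, E y x → InV E y l) ∧ Func E e A B ∧
    (∀ φ (v : ℕ → {x | E x A}) (w : ℕ → {x | E x B}), (∀ n, App E e (v n).1 (w n).1) →
      (Sat (Res E {x | E x A}) φ v ↔ Sat (Res E {x | E x B}) φ w)) ∧
    (∀ α, E α κ → App E e α α) ∧ ¬ App E e κ κ

/-- `δ` is `μ`-supercompact: `j : V → W` has critical point `δ`, `μ < j δ`, and each function
from `μ` to `W` lies in `W`. -/
def SuperC (δ μ : M) : Prop :=
  ∃ j W, ElEmb E j W δ ∧ E μ (j δ) ∧
    ∀ f b, Func E f μ b → (∀ x y, App E f x y → y ∈ W) → f ∈ W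

end Pool.Agent.Lib.MP_894941_lc
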