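import Pool.Agent.Lib.MP_894941_lc.Defs

/-!
Strong limit cardinals inside a model of ZFC.
-/

namespace Pool.Agent.Lib.MP_894941_lc

open Pool.Agent.Lib.MP_1d770b_lc Pool.Agent.Lib.MP_75a307_lc

universe u

variable {M : Type u} (E : M → M → Prop)

/-- `l` is a strong limit cardinal: an infinite cardinal with `2^α < l` for all `α < l`. -/
def StrongLim (l : M) : Prop :=
  IsCard E l ∧ (∃ w, IsOmega E w ∧ Incl E w l) ∧
    ∀ α, E α l → ∀ p, (∀ x, E x p ↔ Incl E x α) → ∃ β, E β l ∧ ∃ f, Func E f p β ∧ OneOne E f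

end Pool.Agent.Lib.MP_894941_lc
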