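import Pool.Agent.Lib.MP_894941_lc.Thr

/-! The ultrapower by the thread filter witnesses tallness. -/

set_option synthInstance.maxSize 100000
set_option linter.unusedVariables false
set_option linter.unusedSectionVars false

namespace Pool.Agent.Lib.MP_894941_lc

open Pool.Agent.Lib.MP_1d770b_lc Pool.Agent.Lib.MP_75a307_lc

universe u
variable {M : Type u} {E : M → M → Prop} [hZ : ZF E]

theorem Sz.tall {κ l U k w K L N V : M} (h : Sz E κ l U k w K L N V) (hC : Choice E) :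
    Tall E κ l := by
  have hp := h.pe hC
  have ko := h.nm.ord
  have lo := h.il.1
  have cst : ∀ η, E η l → ∃ b, E b N ∧ AE E U fun x => ap E b x = η := fun η hη =>
    let ⟨b, b1, b2⟩ := h.seed hC h.hL h.hN (fun _ u => u = η)
      (h.nm.all fun x _ => ⟨η, lo.rk hη, rfl⟩)
    ⟨b, b1, b2⟩
  obtain ⟨c0, hc0, -⟩ := cst κ h.lt
  obtain ⟨val, j, dv, hj, h1, h2, h3, h4⟩ := hp.ultra hC hc0
  have dj := hj.fj
  obtain ⟨i, i1, i2⟩ := lam hC K fun s => s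
  have evi : ∀ b, E b N → AE E V fun σ => ev E (pr E b i) σ = ap E σ b := fun b hb =>
    (hp.dom hb).mono fun σ k => by rw [ev_pr, i2 _ k]
  have fix : ∀ α, E α κ → j α = α := fun α hα => by
    refine ord_ind (fun α => E α κ → j α = α) (fun α ho ih hα => ext' E fun z =>
      ⟨fun hz => ?_, fun hz => ih z hz (ko.tr hα hz) ▸ hj.mem_iff.2 hz⟩) α (ko.mem hα) hα
    obtain ⟨x, x1, x2, x3⟩ := h4 α
    obtain ⟨u, u1, u2, rfl⟩ := h3 x x1 z (x2 ▸ hz)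
    have u3 : AE E V fun σ => E (ev E u σ) α := (h.and u2 x3).mono fun σ k => k.2 ▸ k.1
    obtain ⟨b, b1, b2⟩ := h.n3 hC u1 (u3.mono fun σ k => ko.rk (ko.tr hα k))
    obtain ⟨ξ, c1, c2⟩ := h.small hC b1 (h.nm.mono (h.nm.and (h.nm.tail hα)
      ((h.rl hC 6 (by omega) (ko.rk hα) b1 b1).1 ((h.and u3 b2).mono fun σ k => k.2 ▸ k.1)))
      fun x hx k => (ko.mem hx).tr k.1 k.2)
    have u4 : AE E V fun σ => ev E u σ = ξ := (h.and b2 c2).mono fun σ k => k.1.trans k.2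
    obtain ⟨σ, d1, d2⟩ := h.ex (h.and u3 u4)
    obtain ⟨y, y1, y2, y3⟩ := h4 ξ
    rw [(h2 u y u1 y1).2 ((h.and u4 y3).mono fun σ k => k.1.trans k.2.symm), y2,
      ih ξ (d2 ▸ d1) c1]
    exact d2 ▸ d1
  obtain ⟨xk, k1, k2, k3⟩ := h4 κ
  have jo := hj.ord ko
  have inj : ∀ b, E b N → (AE E U fun x => E (ap E b x) l) → E (val (pr E b i)) (j κ) :=
    fun b hb H => k2 ▸ (h1 _ _ (Pt.mk' hb i1) k1).2 ((h.and (h.and (evi b hb) k3)
      ((h.rl hC 8 (by omega) h.wr hb hb).2 H)).mono fun σ k => by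
        rw [k.1.1, k.1.2]; exact k.2)
  have tgt : j κ = l := by
    refine ext' E fun z => ⟨fun hz => by_contra fun hn => ?_, fun hz => ?_⟩
    · have zo := jo.mem hz
      obtain ⟨u, u1, u2, rfl⟩ := h3 xk k1 z (k2 ▸ hz)
      have u3 : AE E V fun σ => E (ev E u σ) κ := (h.and u2 k3).mono fun σ k => k.2 ▸ k.1
      obtain ⟨b, b1, b2⟩ := h.n3 hC u1 (u3.mono fun σ k => ko.rk k)
      have b3 := (h.rl hC 8 (by omega) h.wr b1 b1).1 ((h.and u3 b2).mono fun σ k => k.2 ▸ k.1)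
      obtain ⟨ρ, r1, r2⟩ := h.il.bd (lo.rk h.lt) (fun x y => E (ap E b x) l → ap E b x = y)
        fun x _ => by
          by_cases c : E (ap E b x) l
          · exact ⟨_, c, fun _ => rfl⟩
          · exact ⟨κ, h.lt, fun d => (c d).elim⟩
      have b4 : AE E U fun x => E (ap E b x) ρ := h.nm.mono b3 fun x hx k =>
        let ⟨y, y1, y2⟩ := r2 x hx; (y2 k).symm ▸ y1
      obtain ⟨X, hX, rX⟩ := ex_funs (E := E) κ ρ
      refine h.il.big (rX l h.il.lim (lo.rk h.lt) (lo.rk r1)) (fun c y => val (pr E c i) = y)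
        (fun y hy => ?_) fun _ _ _ a b => a.symm.trans b
      obtain ⟨u', v1, v2, rfl⟩ := h3 u u1 y ((lo.le_of_not zo hn).sub zo y hy)
      obtain ⟨b', c1, c2⟩ := h.n3 hC v1 ((h.and v2 u3).mono fun σ k => ko.rk (ko.tr k.2 k.1))
      have c3 := (h.rl hC 2 (by omega) h.wr c1 b1).1 ((h.and v2 (h.and b2 c2)).mono
        fun σ k => k.2.1 ▸ k.2.2 ▸ k.1)
      obtain ⟨_, -, e⟩ := h.nm.ex b4
      obtain ⟨c, d1, d2⟩ := h.nm.seed hC e (fun x u => u = ap E b' x)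
        ((h.nm.and c3 b4).mono fun x k => ⟨_, (lo.mem r1).tr k.2 k.1, rfl⟩)
      have cN : E c N := (h.hN c).2 ⟨⟨fun p k => let ⟨x, y, a1, a2, a3⟩ := d1.1.1 p k
        ⟨x, y, a1, (h.hL y).2 (lo.rk (lo.tr r1 a2)), a3⟩, d1.fn⟩, d1.2⟩
      exact ⟨c, (hX c).2 d1, (h2 _ _ (Pt.mk' cN i1) v1).2 ((h.and (h.and (evi c cN) c2)
        ((h.rl hC 7 (by omega) h.wr cN c1).2 d2)).mono fun σ k =>
          k.1.1.trans (Eq.trans k.2 k.1.2.symm))⟩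
    · have key : ∀ η, IsOrd E η → E η l → ∀ b, E b N → (AE E U fun x => ap E b x = η) →
          Le E η (val (pr E b i)) := by
        refine ord_ind (fun η => E η l → ∀ b, E b N → (AE E U fun x => ap E b x = η) →
          Le E η (val (pr E b i))) fun η ho ih hη b hb H => ?_
        have vo := jo.mem (inj b hb (H.mono fun x k => k.symm ▸ hη))
        refine ho.le_of_sub vo fun ξ hξ => ?_
        obtain ⟨b', c1, c2⟩ := cst ξ (lo.tr hη hξ)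
        refine (ih ξ hξ (lo.tr hη hξ) b' c1 c2).lt vo
          ((h1 _ _ (Pt.mk' c1 i1) (Pt.mk' hb i1)).2 ((h.and (h.and (evi b' c1) (evi b hb))
            ((h.rl hC 2 (by omega) h.wr c1 hb).2 ((h.nm.and c2 H).mono fun x k => ?_))).mono
            fun σ k => by rw [k.1.1, k.1.2]; exact k.2))
        show E _ _
        rw [k.1, k.2]; exact hξ
      obtain ⟨b, b1, b2⟩ := cst z hz
      exact (key z (lo.mem hz) hz b b1 b2).lt jo (inj b b1 (b2.mono fun x k => k.symm ▸ hz))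
  refine ⟨j, _, hj.emb ko fix fun e => no1 ((tgt.symm.trans e) ▸ h.lt), tgt,
    fun f B hf hW => ?_⟩
  obtain ⟨G, -, -, hG⟩ := skolem hC κ fun ξ z => Pt E K N z ∧ val z = pr E ξ (ap E f ξ)
  replace hG : ∀ ξ, E ξ κ → Pt E K N (ap E G ξ) ∧ val (ap E G ξ) = pr E ξ (ap E f ξ) :=
    fun ξ hξ => hG ξ hξ (hj.pr_mem (hj.ord_mem (ko.mem hξ))
      (hW _ _ (app_ap hf.fn (hf.2 ξ hξ))) (pr_spec _ _))
  have gN : ∀ ξ, E ξ κ → E (p1 E (ap E G ξ)) N := fun ξ hξ => by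
    obtain ⟨a, g, e, k, -⟩ := (hG ξ hξ).1
    rwa [e, p1_pr]
  obtain ⟨c, c1, c2⟩ := h.seed hC h.hL h.hN
    (fun x u => ∀ ξ y, App E u ξ y ↔ E ξ x ∧ y = ap E (p1 E (ap E G ξ)) x)
    (h.nm.all fun x hx => by
      obtain ⟨u, u1, u2⟩ := ex_fun E x (fun ξ y => y = ap E (p1 E (ap E G ξ)) x)
        fun _ _ _ _ a b => a.trans b.symm
      have xl := lo.tr h.lt hx
      obtain ⟨ρ, r1, r2⟩ := h.il.bd (lo.rk xl) (fun ξ γ => Rk E (ap E (p1 E (ap E G ξ)) x) γ)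
        fun ξ hξ => h.il.lim.rk (h.sd' (gN ξ (ko.tr hx hξ)) hx)
      obtain ⟨m, m1, m2, m3⟩ := h.il.lim.two xl r1
      have mo := lo.mem m1
      refine ⟨u, h.il.lim.rel m1 fun p hp => ?_, u2⟩
      obtain ⟨ξ, y, a1, a2, rfl⟩ := u1 p hp
      obtain ⟨γ, a3, a4⟩ := r2 ξ a1
      exact ⟨ξ, _, a2, mo.rk (mo.tr m2 a1), a4.lt mo (mo.tr m3 a3)⟩)
  obtain ⟨F, F1, -, F2⟩ := skolem hC K fun t y => ∀ z, E z y ↔
    ∃ ξ, E ξ κ ∧ (∃ v, App E t ξ v) ∧ z = ap E (p2 E (ap E G ξ)) (ap E t ξ)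
  replace F2 := fun t ht => F2 t ht (repl E κ
    (fun ξ z => (∃ v, App E t ξ v) ∧ z = ap E (p2 E (ap E G ξ)) (ap E t ξ))
    fun _ _ _ _ a b => a.2.trans b.2.symm)
  have key : ∀ ξ, E ξ κ → AE E V fun σ => App E (ap E σ c) ξ (ap E σ (p1 E (ap E G ξ))) ∧
      ap E (ap E σ c) ξ = ap E σ (p1 E (ap E G ξ)) := fun ξ hξ =>
    (h.rl hC 3 (by omega) (ko.rk hξ) c1 (gN ξ hξ)).2 ((h.nm.and c2 (h.nm.tail hξ)).mono
      fun x k => have a := (k.1 ξ _).2 ⟨k.2, rfl⟩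
        ⟨a, ap_eq (fun _ _ _ d e => ((k.1 _ _).1 d).2.trans ((k.1 _ _).1 e).2.symm) a⟩)
  have pc := Pt.mk' c1 F1
  refine ⟨_, pc, ext' E fun z => ⟨fun hz => ?_, fun hz => ?_⟩⟩
  · obtain ⟨u, u1, u2, rfl⟩ := h3 _ pc z hz
    obtain ⟨y, y1, y2, -⟩ := hp.mkc hC u1 (Pt.mk' c1 i1) (fun u t ξ => E ξ κ ∧
      (∃ v, App E t ξ v) ∧ u = ap E (p2 E (ap E G ξ)) (ap E t ξ))
      fun _ _ _ _ _ _ => inferInstance
    have y3 : AE E V fun σ => E (ev E y σ) κ ∧ (∃ v, App E (ap E σ c) (ev E y σ) v) ∧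
        ev E u σ = ap E (p2 E (ap E G (ev E y σ))) (ap E (ap E σ c) (ev E y σ)) :=
      (h.and (h.and u2 y2) (h.and (evi c c1) (hp.dom c1))).mono fun σ ⟨⟨a1, a2⟩, a3, a4⟩ => by
        rw [a3] at a2
        rw [ev_pr] at a1
        exact a2 ((F2 _ a4 _).1 a1)
    obtain ⟨b, b1, b2⟩ := h.n3 hC y1 (y3.mono fun σ k => ko.rk k.1)
    obtain ⟨ξ, d1, d2⟩ := h.small hC b1 ((h.nm.and c2 ((h.rl hC 4 (by omega) h.wr c1 b1).1
      ((h.and y3 b2).mono fun σ k => k.2 ▸ k.1.2.1))).mono fun x ⟨k, v, k'⟩ => ((k _ _).1 k').1)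
    rw [(h2 u _ u1 (hG ξ d1).1).2 ((h.and (h.and y3 (key ξ d1)) (h.and b2 d2)).mono
      fun σ ⟨⟨a1, a2⟩, a3, a4⟩ => by rw [a1.2.2, a3, a4, a2.2]), (hG ξ d1).2]
    exact app_iff.1 (app_ap hf.fn (hf.2 ξ d1))
  · obtain ⟨ξ, y, a1, -, a2⟩ := hf.1.1 z hz
    rw [pr_eq.1 a2, ← ap_eq hf.fn ⟨z, a2, hz⟩, ← (hG ξ a1).2]
    refine (h1 _ _ (hG ξ a1).1 pc).2 ((h.and (key ξ a1) (hp.dom c1)).mono fun σ k => ?_)
    rw [ev_pr]
    exact (F2 _ k.2 _).2 ⟨ξ, a1, ⟨_, k.1.1⟩, by rw [k.1.2]⟩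

theorem main (hC : Choice E) {β : M} (hV : Vop E β)
    (hβ : Conc E β fun α => ∃ U, Normal E α U) :
    ∃ κ l, E κ l ∧ E l β ∧ Inacc E Set.univ l ∧ Tall E κ l ∧ ∀ μ, ¬ Superstrong E κ μ := by
  obtain ⟨U, X, h1, h2, h3⟩ := hβ
  obtain ⟨W, w1, w2⟩ := O2.o1 hC ⟨U, normal_nm hC h1, X, h2, fun α k =>
    let ⟨V, k'⟩ := h3 α k; ⟨V, normal_nm hC k'⟩⟩
  obtain ⟨κ, l, U', k, w, a1, a2, a3⟩ := ex_sy hC hV w1 w2
  obtain ⟨K, L, N, V, a4⟩ := a3.sz hC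
  exact ⟨κ, l, a3.lt, a1, a3.il.inacc hC, a4.tall hC, fun μ k => a2.2 (k.o2 hC a2.1)⟩

end Pool.Agent.Lib.MP_894941_lc
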