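import Pool.Agent.Lib.MP_894941_lc.PE
import Pool.Agent.Lib.MP_894941_lc.Defs

/-! Normal measures. -/

set_option synthInstance.maxSize 100000
set_option linter.unusedVariables false
set_option linter.unusedSectionVars false

namespace Pool.Agent.Lib.MP_894941_lc

open Pool.Agent.Lib.MP_1d770b_lc Pool.Agent.Lib.MP_75a307_lc

universe u
variable {M : Type u} {E : M → M → Prop} [hZ : ZF E]

def NW (E : M → M → Prop) (W : Set M) (κ U : M) : Prop :=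
  IsOrd E κ ∧ (∃ y, E y κ ∧ Lim E y ∧ ∃ z, E z y) ∧ (∀ Y, E Y U → Sub E Y κ) ∧
  (∀ Y, E Y U → ∃ x, E x Y) ∧
  (∀ Y, E Y U → ∀ Y', E Y' U → ∃ Z, E Z U ∧ Sub E Z Y ∧ Sub E Z Y') ∧
  (∀ X ∈ W, (AE E U fun x => E x X) ∨ AE E U fun x => ¬ E x X) ∧
  (∀ α, E α κ → AE E U fun x => E α x) ∧
  ∀ f ∈ W, (AE E U fun x => ∃ ξ, E ξ x ∧ App E f x ξ) → ∃ ξ, E ξ κ ∧ AE E U fun x => App E f x ξ

instance RD.nw (i j : ℕ) : RD E (Good E) fun W v => NW E W (v i) (v j) := by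
  unfold NW; infer_instance

abbrev Nm (E : M → M → Prop) (κ U : M) : Prop := NW E Set.univ κ U

instance (a b : (ℕ → M) → M) [DT E a] [DT E b] : Df E fun v => Nm E (a v) (b v) :=
  dt2 (RD.df (RD.nw 0 1) good_univ).d2 a b

theorem Nm.down {κ U : M} (h : Nm E κ U) (W : Set M) : NW E W κ U :=
  let ⟨h1, h2, h3, h4, h5, h6, h7, h8⟩ := h
  ⟨h1, h2, h3, h4, h5, fun X _ => h6 X trivial, h7, fun f _ => h8 f trivial⟩

theorem normal_nm (hC : Choice E) {κ U : M} (h : Normal E κ U) : Nm E κ U := by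
  obtain ⟨ho, w, hw, hwκ⟩ := h.unc
  have all : ∀ γ (P : M → M → Prop) [Df E fun v => P (v 0) (v 1)], E γ κ →
      (∀ ξ, E ξ γ → AE E U (P ξ)) → AE E U fun x => ∀ ξ, E ξ γ → P ξ x := fun γ P hP hγ H => by
    have := hP.d2
    obtain ⟨F, F1, F2⟩ := acF hC γ U (fun ξ Y => ∀ x, E x Y → P ξ x) H
    obtain ⟨Y, Y1, Y2⟩ := h.complete γ F hγ F1
    exact ⟨Y, Y1, fun x hx ξ hξ => let ⟨X, _, k⟩ := F1.tot hξ; (F2 _ _ k).2.2 x (Y2 _ _ k x hx)⟩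
  have ult : ∀ X, (AE E U fun x => E x X) ∨ AE E U fun x => ¬ E x X := fun X => by
    obtain ⟨A, hA⟩ := sep E κ fun x => E x X
    obtain ⟨B, hB⟩ := sep E κ fun x => ¬ E x X
    exact (h.ultra A B fun α => by rw [hA, hB]; tauto).imp
      (fun k => ⟨A, k, fun x hx => ((hA x).1 hx).2⟩) fun k => ⟨B, k, fun x hx => ((hB x).1 hx).2⟩
  have ne : ∀ ξ, AE E U fun x => x ≠ ξ := fun ξ => by
    obtain ⟨s, hs⟩ := ex_upair E ξ ξ
    rcases ult s with ⟨Y, k1, k2⟩ | k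
    · obtain ⟨β, k3, k4⟩ := h.free Y ξ k1
      exact (k4 (((hs β).1 (k2 β k3)).elim id id)).elim
    · exact k.mono fun x k e => k ((hs x).2 (Or.inl e))
  have inter : ∀ Y, E Y U → ∀ Y', E Y' U → ∃ Z, E Z U ∧ Sub E Z Y ∧ Sub E Z Y' :=
    fun Y hY Y' hY' => by
    obtain ⟨e, he⟩ := ex_emp E
    obtain ⟨s, hs⟩ := ex_suc E e
    obtain ⟨Z, k1, k2⟩ := all w (fun ξ x => (ξ = e → E x Y) ∧ (ξ ≠ e → E x Y')) hwκ fun ξ _ => by
      by_cases c : ξ = e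
      · exact ⟨Y, hY, fun x hx => ⟨fun _ => hx, fun k => (k c).elim⟩⟩
      · exact ⟨Y', hY', fun x hx => ⟨fun k => (c k).elim, fun _ => hx⟩⟩
    exact ⟨Z, k1, fun x hx => (k2 x hx e (hw.emp he)).1 rfl,
      fun x hx => (k2 x hx s (hw.suc hs (hw.emp he))).2 fun k => he e (k ▸ hs.self)⟩
  refine ⟨ho, (omega_lt ho).1 ⟨w, hw, hwκ⟩, h.sub, fun Y k => (h.free Y Y k).imp fun _ k => k.1,
    inter, fun X _ => ult X, fun α hα => ?_, fun f _ ⟨X, k1, k2⟩ => ?_⟩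
  · obtain ⟨Y, k1, k2⟩ := all α (fun ξ x => x ≠ ξ) hα fun ξ _ => ne ξ
    obtain ⟨Y', k3, k4⟩ := ne α
    obtain ⟨Z, k5, k6, k7⟩ := inter Y k1 Y' k3
    refine ⟨Z, k5, fun x hx => ?_⟩
    rcases ho.2 α x hα (h.sub Z k5 x hx) with k | k | k
    · exact k
    · exact (k4 x (k7 x hx) k.symm).elim
    · exact (k2 x (k6 x hx) x k rfl).elim
  · obtain ⟨r, -, hr⟩ := ex_rel E κ κ fun x ξ => App E f x ξ
    obtain ⟨β, Y, a1, a2⟩ := h.normal X r k1 fun α hα =>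
      let ⟨ξ, b1, b2⟩ := k2 α hα
      ⟨ξ, b1, (hr _ _).2 ⟨h.sub X k1 α hα, ho.tr (h.sub X k1 α hα) b1, b2⟩⟩
    obtain ⟨x, hx, -⟩ := h.free Y Y a1
    exact ⟨β, ((hr _ _).1 (a2 x hx)).2.1, Y, a1, fun α k => ((hr _ _).1 (a2 α k)).2.2⟩

namespace Nm

variable {κ U : M} (h : Nm E κ U)
include h

theorem ord : IsOrd E κ := h.1

theorem and {P Q : M → Prop} (k : AE E U P) (k' : AE E U Q) : AE E U fun σ => P σ ∧ Q σ :=
  let ⟨Y, h1, h2⟩ := k; let ⟨Y', h3, h4⟩ := k'; let ⟨Z, h5, h6, h7⟩ := h.2.2.2.2.1 Y h1 Y' h3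
  ⟨Z, h5, fun σ hσ => ⟨h2 σ (h6 σ hσ), h4 σ (h7 σ hσ)⟩⟩

theorem mono {P Q : M → Prop} (k : AE E U P) (H : ∀ x, E x κ → P x → Q x) : AE E U Q :=
  let ⟨Y, h1, h2⟩ := k; ⟨Y, h1, fun x hx => H x (h.2.2.1 Y h1 x hx) (h2 x hx)⟩

theorem ex {P : M → Prop} (k : AE E U P) : ∃ x, E x κ ∧ P x :=
  let ⟨Y, h1, h2⟩ := k; let ⟨x, hx⟩ := h.2.2.2.1 Y h1; ⟨x, h.2.2.1 Y h1 x hx, h2 x hx⟩

theorem tail {α : M} (k : E α κ) : AE E U fun x => E α x := h.2.2.2.2.2.2.1 α k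

theorem all {P : M → Prop} (H : ∀ x, E x κ → P x) : AE E U P :=
  let ⟨y, k, _⟩ := h.2.1; h.mono (h.tail k) fun x k _ => H x k

theorem ult (P : M → Prop) [Df E fun v => P (v 0)] : AE E U P ∨ AE E U fun x => ¬ P x := by
  obtain ⟨X, hX⟩ := sep E κ P
  exact (h.2.2.2.2.2.1 X trivial).imp (fun k => k.mono fun x k => ((hX x).1 k).2)
    fun k => h.mono k fun x a b c => b ((hX x).2 ⟨a, c⟩)

theorem reg (hC : Choice E) (P : M → M → Prop) [hP : Df E fun v => P (v 0) (v 1)]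
    (k : AE E U fun x => ∃ ξ, E ξ x ∧ P x ξ) : ∃ ξ, E ξ κ ∧ AE E U fun x => P x ξ := by
  have := hP.d2
  obtain ⟨f, -, -, f1, f2⟩ := ac hC κ fun x ξ => E ξ x ∧ P x ξ
  obtain ⟨ξ, a, b⟩ := h.2.2.2.2.2.2.2 f trivial (h.mono k fun x a b =>
    let ⟨ξ, c⟩ := f2 x a b; ⟨ξ, (f1 _ _ c).2.1, c⟩)
  exact ⟨ξ, a, b.mono fun x k => (f1 _ _ k).2.2⟩

theorem diag (hC : Choice E) (P : M → M → Prop) [hP : Df E fun v => P (v 0) (v 1)]
    (H : ∀ ξ, E ξ κ → AE E U (P ξ)) : AE E U fun x => ∀ ξ, E ξ x → P ξ x := by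
  have := hP.d2
  refine (h.ult fun x => ∀ ξ, E ξ x → P ξ x).resolve_right fun k => ?_
  obtain ⟨ξ, a, b⟩ := h.reg hC (fun x ξ => ¬ P ξ x) (k.mono fun x k => by
    by_contra c
    exact k fun ξ a => by_contra fun b => c ⟨ξ, a, b⟩)
  obtain ⟨x, -, c, d⟩ := h.ex (h.and b (H ξ a))
  exact c d

theorem bdd (hC : Choice E) {γ : M} (hγ : E γ κ) (P : M → M → Prop)
    [hP : Df E fun v => P (v 0) (v 1)] (H : ∀ ξ, E ξ γ → AE E U (P ξ)) :
    AE E U fun x => ∀ ξ, E ξ γ → P ξ x := by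
  have := hP.d2
  refine h.mono (h.and (h.tail hγ) (h.diag hC (fun ξ x => E ξ γ → P ξ x) fun ξ _ => ?_))
    fun x a ⟨b, c⟩ ξ d => c ξ ((h.ord.mem a).tr b d) d
  by_cases c : E ξ γ
  · exact (H ξ c).mono fun x k _ => k
  · exact h.all fun x _ k => (c k).elim

theorem ia (hC : Choice E) : IA E Set.univ κ := by
  refine Inacc.ia hC ⟨h.ord, (omega_lt h.ord).2 h.2.1, fun a ha f _ hf => ?_,
    fun α hα p _ hp => ?_⟩
  · obtain ⟨b, k1, k2⟩ := h.ex (h.bdd hC ha (fun ξ x => ∀ y, App E f ξ y → E y x) fun ξ hξ => by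
      obtain ⟨y, a1, a2⟩ := hf.tot hξ
      exact (h.tail a1).mono fun x k y' a3 => hf.fn _ _ _ a2 a3 ▸ k)
    exact ⟨b, k1, fun x y k => k2 x (hf.mem k).1 y k⟩
  · obtain ⟨c, θ, c1, c2, c3, c4, -⟩ := enum hC p
    refine ⟨θ, by_contra fun hn => ?_, c, trivial, c2, c3⟩
    have hs := (h.ord.le_of_not c1 hn).sub c1
    obtain ⟨t, ht⟩ := sep E α fun ξ => AE E U fun η => ∀ s, App E c s η → E ξ s
    have k : AE E U fun η => App E c t η := h.mono (h.bdd hC hα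
      (fun ξ η => ∀ s, App E c s η → (E ξ s ↔ E ξ t)) fun ξ hξ => by
        rcases h.ult fun η => ∀ s, App E c s η → E ξ s with k | k
        · exact k.mono fun η a s b => iff_of_true (a s b) ((ht ξ).2 ⟨hξ, k⟩)
        · refine h.mono k fun η a b s d => iff_of_false (fun e => b fun s' d' => c3 _ _ _ d d' ▸ e)
            fun e => ?_
          obtain ⟨x, -, e1, e2⟩ := h.ex (h.and k ((ht ξ).1 e).2)
          exact e1 e2) fun η a b => by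
      obtain ⟨s, d⟩ := c4 η (hs η a)
      have e : s = t := ext' E fun ξ => ⟨fun k => (b ξ ((hp s trivial).1 (c2.mem d).1 ξ k) s d).1 k,
        fun k => (b ξ ((ht ξ).1 k).1 s d).2 k⟩
      exact e ▸ d
    obtain ⟨η, a1, a2⟩ := h.ex k
    obtain ⟨η', -, a3, a4⟩ := h.ex (h.and k (h.tail a1))
    exact no1 (c2.fn _ _ _ a2 a3 ▸ a4)

end Nm

/-- measurable -/
def Ms (E : M → M → Prop) (α : M) : Prop := ∃ U, Nm E α U
/-- order at least two -/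
def O2 (E : M → M → Prop) (α : M) : Prop := ∃ U, Nm E α U ∧ AE E U (Ms E)
/-- order one -/
def O1 (E : M → M → Prop) (α : M) : Prop := Ms E α ∧ ¬ O2 E α

instance (a : (ℕ → M) → M) [IsT a] : Df E fun v => Ms E (a v) := by unfold Ms; infer_instance
instance (a : (ℕ → M) → M) [IsT a] : Df E fun v => O2 E (a v) := by unfold O2; infer_instance
instance (a : (ℕ → M) → M) [IsT a] : Df E fun v => O1 E (a v) := by unfold O1; infer_instance

theorem O2.o1 (hC : Choice E) {β : M} (h : O2 E β) : ∃ W, Nm E β W ∧ AE E W (O1 E) := by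
  have ho : IsOrd E β := let ⟨_, k, _⟩ := h; k.ord
  refine ord_ind (fun β => O2 E β → ∃ W, Nm E β W ∧ AE E W (O1 E)) ?_ β ho h
  rintro β - ih ⟨U, hU, k⟩
  rcases hU.ult (O1 E) with c | c
  · exact ⟨U, hU, c⟩
  obtain ⟨w, -, w1, w2, w3⟩ := ac hC β fun y W => Nm E y W ∧ AE E W (O1 E)
  have g : AE E U fun y => Nm E y (ap E w y) ∧ AE E (ap E w y) (O1 E) :=
    hU.mono (hU.and k c) fun y a ⟨b, d⟩ =>
      (w2 _ _ (app_ap w1 (w3 y a (ih y a (by_contra fun e => d ⟨b, e⟩))))).2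
  obtain ⟨p, hp⟩ := ex_pow E β
  obtain ⟨W, hW⟩ := sep E p fun X => AE E U fun y => AE E (ap E w y) fun x => E x X
  have tw : ∀ (P : M → Prop) [Df E fun v => P (v 0)],
      (AE E U fun y => AE E (ap E w y) P) → AE E W P := fun P _ k => by
    obtain ⟨X, hX⟩ := sep E β P
    refine ⟨X, (hW X).2 ⟨(hp X).2 fun x a => ((hX x).1 a).1, ?_⟩, fun x a => ((hX x).1 a).2⟩
    exact hU.mono (hU.and k g) fun y a ⟨b, d, _⟩ => d.mono b fun x e f =>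
      (hX x).2 ⟨hU.ord.tr a e, f⟩
  have fr : ∀ {P : M → Prop}, AE E W P → AE E U fun y => AE E (ap E w y) P :=
    fun ⟨X, a, b⟩ => ((hW X).1 a).2.mono fun y k => k.mono b
  refine ⟨W, ⟨hU.ord, hU.2.1, fun Y a => (hp Y).1 ((hW Y).1 a).1, fun Y a => ?_,
    fun Y a Y' b => ?_, fun X _ => ?_, fun α a => tw _ ?_, fun f _ a => ?_⟩,
    tw _ (g.mono fun y k => k.2)⟩
  · obtain ⟨y, -, b, d, -⟩ := hU.ex (hU.and ((hW Y).1 a).2 g)
    exact (d.ex b).imp fun _ k => k.2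
  · obtain ⟨Z, d, e⟩ := tw (fun x => E x Y ∧ E x Y')
      ((hU.and g (hU.and ((hW Y).1 a).2 ((hW Y').1 b).2)).mono fun y k => k.1.1.and k.2.1 k.2.2)
    exact ⟨Z, d, fun x k => (e x k).1, fun x k => (e x k).2⟩
  · refine (hU.ult fun y => AE E (ap E w y) fun x => E x X).imp (tw _) fun a => tw _ ?_
    exact (hU.and a g).mono fun y k => (k.2.1.ult fun x => E x X).resolve_left k.1
  · exact (hU.and g (hU.tail a)).mono fun y k => k.1.1.tail k.2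
  · obtain ⟨ξ, b, d⟩ := hU.reg hC (fun y ξ => AE E (ap E w y) fun x => App E f x ξ)
      ((hU.and g (fr a)).mono fun y k => k.1.1.2.2.2.2.2.2.2 f trivial k.2)
    exact ⟨ξ, b, tw _ d⟩

theorem Superstrong.o2 (hC : Choice E) {κ l : M} (h : Superstrong E κ l) (m : Ms E κ) :
    O2 E κ := by
  obtain ⟨j, W, h, rfl, hV⟩ := h
  obtain ⟨U, hU⟩ := m
  have hl : Lim E (j κ) := (h.el.tr1 (fun _ k => Lim E k) κ).1 h.ia.lim
  obtain ⟨p, hp⟩ := ex_pow E κ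
  have r1 : Rk E p (j κ) := MP_75a307_lc.Lim.pow hl (hl.1.rk h.lt) fun x => (hp x).1
  have r2 : Rk E U (j κ) := r1.sub fun Y a => (hp Y).2 (hU.2.2.1 Y a)
  obtain ⟨U', X, a, b, c⟩ := h.conc (fun W α _ => ∃ U ∈ W, NW E W α U) (fun _ _ => inferInstance)
    ⟨U, hV.mem r2, hU.down W⟩
  exact ⟨U', normal_nm hC a, X, b, fun x k => let ⟨_, V, _, d⟩ := c x k; ⟨V, d⟩⟩

end Pool.Agent.Lib.MP_894941_lc
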