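import Pool.Agent.Lib.MP_894941_lc.Trf
import Pool.Agent.Lib.MP_894941_lc.Defs2

/-! A 1-extendible cardinal carries a normal measure on cardinals superstrong with its target. -/

set_option synthInstance.maxSize 100000
set_option linter.unusedVariables false
set_option linter.unusedSectionVars false

namespace Pool.Agent.Lib.MP_894941_lc

open Pool.Agent.Lib.MP_1d770b_lc Pool.Agent.Lib.MP_75a307_lc

universe u
variable {M : Type u} {E : M → M → Prop} [hZ : ZF E]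

theorem Nm.conc {κ U : M} (h : Nm E κ U) (hC : Choice E) {P : M → Prop} (H : AE E U P) :
    Conc E κ P := by
  obtain ⟨p, hp⟩ := ex_pow E κ
  obtain ⟨V, hV⟩ := sep E p fun X => AE E U fun x => E x X
  replace hV : ∀ X, E X V ↔ Incl E X κ ∧ AE E U fun x => E x X := fun X =>
    (hV X).trans (and_congr_left' (hp X))
  obtain ⟨Y, y1, y2⟩ := H
  refine ⟨V, Y, ⟨⟨h.ord, (omega_lt h.ord).2 h.2.1⟩, fun X k => ((hV X).1 k).1,
    (hV κ).2 ⟨fun _ k => k, h.all fun _ k => k⟩,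
    fun X Z k1 k2 k3 => (hV Z).2 ⟨k3, ((hV X).1 k1).2.mono k2⟩, fun X Z k => ?_,
    fun X α k => ?_, fun γ F k1 k2 => ?_, fun X f k1 k2 => ?_⟩,
    (hV Y).2 ⟨h.2.2.1 Y y1, Y, y1, fun _ k => k⟩, y2⟩
  · exact (h.ult fun x => E x X).imp (fun a => (hV X).2 ⟨fun α b => (k α).2 (Or.inl b), a⟩)
      fun a => (hV Z).2 ⟨fun α b => (k α).2 (Or.inr b),
        h.mono a fun x b c => ((k x).1 b).resolve_left c⟩
  · by_cases c : E α κ
    · obtain ⟨x, -, a, b⟩ := h.ex (h.and ((hV X).1 k).2 (h.tail c))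
      exact ⟨x, a, fun e => no1 (e ▸ b)⟩
    · obtain ⟨x, a, b⟩ := h.ex ((hV X).1 k).2
      exact ⟨x, b, fun e => c (e ▸ a)⟩
  · obtain ⟨Z, hZ'⟩ := sep E κ fun α => ∀ β X, App E F β X → E α X
    refine ⟨Z, (hV Z).2 ⟨fun α k => ((hZ' α).1 k).1, h.mono (h.bdd hC k1
      (fun β α => ∀ X, App E F β X → E α X) fun β hβ => ?_) fun α a b =>
        (hZ' α).2 ⟨a, fun β X c => b β (k2.mem c).1 X c⟩⟩, fun β X k α a => ((hZ' α).1 a).2 β X k⟩
    obtain ⟨X, a1, a2⟩ := k2.tot hβ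
    exact ((hV X).1 a1).2.mono fun α a X' b => k2.fn _ _ _ a2 b ▸ a
  · obtain ⟨β, -, b⟩ := h.reg hC (fun α β => App E f α β) (((hV X).1 k1).2.mono k2)
    obtain ⟨Z, hZ'⟩ := sep E κ fun α => App E f α β
    exact ⟨β, Z, (hV Z).2 ⟨fun α k => ((hZ' α).1 k).1, h.mono b fun α a c => (hZ' α).2 ⟨a, c⟩⟩,
      fun α k => ((hZ' α).1 k).2⟩

theorem RD.allFin {G : Set M → Prop} (n : ℕ) (P : Fin n → Set M → (ℕ → M) → Prop)
    (h : ∀ k, RD E G (P k)) : RD E G fun W v => ∀ k, P k W v := by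
  induction n with
  | zero => exact RD.congr (P := fun _ v => v 0 = v 0) fun _ _ _ _ _ => by simp
  | succ n ih =>
    have := ih (fun k => P k.succ) fun k => h _
    have := h 0
    exact RD.congr (P := fun W v => P 0 W v ∧ ∀ k : Fin n, P k.succ W v) fun W _ _ v _ =>
      (Fin.forall_fin_succ (P := fun k => P k W v)).symm

instance RD.im {G : Set M → Prop} (i j k : ℕ) : RD E G fun _ v => Im E (v i) (v j) (v k) := by
  unfold Im; infer_instance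

variable (E) in
def GV (W : Set M) (K r x L l : M) : Prop := ∀ n : Fin 17, ∀ q, E q K → ∀ a ∈ W, Sub E a K →
  ∀ b ∈ W, Sub E b K → ∀ c ∈ W, Sub E c K → Pz E (fun s => E s K) n x q a b c →
    ∀ a' ∈ W, Im E r a a' → ∀ b' ∈ W, Im E r b b' → ∀ c' ∈ W, Im E r c c' →
      Pz E (fun s => E s L) n l q a' b' c'

instance RD.gv {G : Set M → Prop} (i j k l m : ℕ) :
    RD E G fun W v => GV E W (v i) (v j) (v k) (v l) (v m) := by
  unfold GV
  refine RD.allFin 17 _ fun n => ?_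
  have := rdPz (E := E) (G := G) n
  infer_instance

variable (E) in
def GW (W : Set M) (x L l : M) : Prop := Lim E x ∧ ∃ K ∈ W, (∀ s ∈ W, E s K ↔ RkW E W s x) ∧
  ∃ r ∈ W, (∀ a s, App E r a s → E s L) ∧ GV E W K r x L l

instance RD.gw {G : Set M → Prop} (i j k : ℕ) : RD E G fun W v => GW E W (v i) (v j) (v k) := by
  unfold GW; infer_instance

theorem rkW_of {W : Set M} {y γ z : M} (hl : Lim E y) (hW : ∀ a, SV E a y → a ∈ W) (hγ : E γ y)
    (h : Rk E z γ) : RkW E W z γ := by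
  obtain ⟨r, r1, hr⟩ := ex_relV hl fun u b => Rk E u b
  refine ⟨h.ord, r, hW r r1, fun u b hu => ?_, (hr _ _).2 ⟨h.lt hl.1 hγ, hl.1.rk hγ, h⟩⟩
  obtain ⟨h1, h2, h3⟩ := (hr _ _).1 hu
  obtain ⟨c, hc, H⟩ := h3.elim
  exact ⟨c, hc, fun t ht => (hr _ _).2 ⟨h1.mem ht, h2.mem hc, H t ht⟩⟩

theorem GW.gm {W : Set M} {x L l : M} (h : GW E W x L l) (t : Tr E W) (hl : Lim E l)
    (hL : ∀ s, E s L ↔ Rk E s l) (hW : ∀ a, SV E a l → a ∈ W) (hx : E x l) :
    ∃ r, Gm E x r l := by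
  obtain ⟨h1, K, kW, hK, r, -, r1, H⟩ := h
  have up : ∀ a, SV E a x → a ∈ W := fun a ha => hW a fun s k => (ha s k).lt hl.1 hx
  replace hK : ∀ s, E s K ↔ Rk E s x := fun s => ⟨fun k => ((hK s (t _ kW _ k)).1 k).rk,
    fun k => (hK s (up s fun _ => k.mem)).2 (rkW_of hl hW hx k)⟩
  have sb : ∀ a, SV E a x → Sub E a K := fun a ha s k => (hK s).2 (ha s k)
  have im : ∀ a a', Im E r a a' → a' ∈ W := fun a a' k =>
    hW a' fun s c => (hL s).1 (r1 a s (k.1 s c))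
  exact ⟨r, h1, fun n q hq a ha b hb c hc k a' k1 b' k2 c' k3 => (pz_iff hL _ _ _ _ _).1
    (H n q ((hK q).2 hq) a (up a ha) (sb a ha) b (up b hb) (sb b hb) c (up c hc) (sb c hc)
      ((pz_iff hK _ _ _ _ _).2 k) a' (im _ _ k1) k1 b' (im _ _ k2) k2 c' (im _ _ k3) k3)⟩

theorem satW_df {A : Set M} (hA : D1 E fun x => x ∈ A) (φ : Fm) :
    ∀ (t : ℕ → (ℕ → M) → M), (∀ i, IsT (t i)) → Df E fun v => SatW E A φ fun i => t i v := by
  induction φ with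
  | mem i j => intro t ht; exact inferInstanceAs (Df E fun v => E (t i v) (t j v))
  | eq i j => intro t ht; exact inferInstanceAs (Df E fun v => t i v = t j v)
  | neg φ ih =>
    intro t ht; have := ih t ht; exact inferInstanceAs (Df E fun v => ¬ SatW E A φ fun i => t i v)
  | and φ ψ ih1 ih2 =>
    intro t ht; have := ih1 t ht; have := ih2 t ht
    exact inferInstanceAs
      (Df E fun v => (SatW E A φ fun i => t i v) ∧ SatW E A ψ fun i => t i v)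
  | ex φ ih =>
    intro t ht
    have h := ih (fun i => match i with | 0 => fun w => w 0 | i + 1 => fun w => t i (tl w))
      (fun i => by cases i <;> infer_instance)
    refine @Df.ex _ _ (fun v a => a ∈ A ∧ SatW E A φ (scons a fun i => t i v))
      (@Df.and _ _ _ _ (hA _) (h.congr fun w => ?_))
    refine iff_of_eq (congrArg _ ?_)
    funext i; cases i <;> rfl

variable (E) in
structure Ex1 (A B : Set M) (e : M → M) (κ l : M) : Prop extends E2 E A B e where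
  dA : D1 E fun x => x ∈ A
  hA : ∀ a, a ∈ A ↔ SV E a κ
  hB : ∀ a, a ∈ B ↔ SV E a l
  ko : IsOrd E κ
  lo : IsOrd E l
  fix : ∀ α, E α κ → e α = α
  moves : e κ ≠ κ

theorem OneExt.ex1 {κ l : M} (h : OneExt E κ l) : ∃ A B e, Ex1 E A B e κ l := by
  obtain ⟨ko, lo, A, B, e, hA, hB, he, el, fx, mv⟩ := h
  replace hA : ∀ a, E a A ↔ SV E a κ := fun a =>
    (hA a).trans (forall₂_congr fun _ _ => inV_iff)
  replace hB : ∀ a, E a B ↔ SV E a l := fun a =>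
    (hB a).trans (forall₂_congr fun _ _ => inV_iff)
  have ap' : ∀ a, E a A → App E e a (ap E e a) := fun a k => app_ap he.fn (he.2 a k)
  have mp : ∀ a, E a A → E (ap E e a) B := fun a k => (he.mem (ap' a k)).2
  refine ⟨{x | E x A}, {x | E x B}, ap E e, ⟨fun x k y c => (hA y).2 fun s => ((hA x).1 k y c).mem,
    fun x k y c => (hB y).2 fun s => ((hB x).1 k y c).mem, mp, fun φ v hv => ?_,
    fun _ _ _ _ => inferInstance⟩, fun t _ => inferInstanceAs (Df E fun v => E (t v) A), hA, hB,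
    ko, lo, fun α k => ap_eq he.fn (fx α k),
    fun k => mv (by have := ap' κ ((hA κ).2 fun s => ko.rk); rwa [k] at this)⟩
  exact (satW_res φ fun n => ⟨v n, hv n⟩).trans ((el φ (fun n => ⟨v n, hv n⟩)
    (fun n => ⟨_, mp (v n) (hv n)⟩) fun n => ap' (v n) (hv n)).trans
    (satW_res (W := {x | E x B}) φ fun n => ⟨_, mp (v n) (hv n)⟩).symm)

namespace Ex1

variable {A B : Set M} {e : M → M} {κ l : M} (h : Ex1 E A B e κ l)
include h

theorem kA : κ ∈ A := (h.hA κ).2 fun s => h.ko.rk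

theorem rA {x : M} (hx : Rk E x κ) : x ∈ A := (h.hA x).2 fun s => hx.mem

theorem eK {K L : M} (hK : ∀ s, E s K ↔ Rk E s κ) (hL : ∀ s, E s L ↔ Rk E s l) : e K = L := by
  have a := (h.hA K).2 fun s => (hK s).1
  exact ext' E fun s => ⟨fun k => (hL s).2 ((h.hB _).1 (h.maps K a) s k),
    (h.tr2 (fun W K _ => ∀ a ∈ W, Sub E a K) a a).1 (fun b hb t c => (hK t).2 ((h.hA b).1 hb t c))
      L ((h.hB L).2 fun s => (hL s).1) s⟩

theorem ek : e κ = l := by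
  obtain ⟨K, hK⟩ := ex_V h.ko
  obtain ⟨L, hL⟩ := ex_V h.lo
  have a := (h.hA K).2 fun s => (hK s).1
  have := (h.tr2 (fun _ K k => (∀ s, E s k → E s K ∧ IsOrd E s) ∧ ∀ s, E s K → IsOrd E s → E s k)
    a h.kA).1 ⟨fun s k => ⟨(hK s).2 (h.ko.rk k), h.ko.mem k⟩, fun s k c => ((hK s).1 k).ord_mem c⟩
  rw [h.eK hK hL] at this
  exact ext' E fun s => ⟨fun k => ((hL s).1 (this.1 s k).1).ord_mem (this.1 s k).2,
    fun k => this.2 s ((hL s).2 (h.lo.rk k)) (h.lo.mem k)⟩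

theorem mem_iff {a b : M} (ha : a ∈ A) (hb : b ∈ A) : E (e a) (e b) ↔ E a b :=
  (h.tr2 (fun _ a b => E a b) ha hb).symm

theorem lt : E κ l :=
  (h.ko.le_of_sub h.lo fun α k => h.ek ▸ h.fix α k ▸
    (h.mem_iff (h.rA (h.ko.rk k)) h.kA).2 k).resolve_right fun k => h.moves (h.ek.trans k.symm)

theorem lim : Lim E κ := ⟨h.ko, fun α hα => by
  obtain ⟨s, hs⟩ := ex_suc E α
  rcases hs.le h.ko hα with k | rfl
  · exact ⟨s, k, hs.self⟩
  · have := (h.tr2 (fun _ s α => IsSuc E s α) h.kA (h.rA (h.ko.rk hα))).1 hs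
    rw [h.fix α hα] at this
    exact (h.moves (this.uniq hs)).elim⟩

theorem liml : Lim E l := h.ek ▸ (h.tr2 (fun _ k _ => Lim E k) h.kA h.kA).1 h.lim

theorem fixV {x : M} (hx : Rk E x κ) : e x = x := by
  have := f1 h.de
  have key : ∀ β, IsOrd E β → Le E β κ → ∀ x, Rk E x β → e x = x := by
    refine ord_ind (fun β => Le E β κ → ∀ x, Rk E x β → e x = x) fun β ho ih hβ x hx => ?_
    obtain ⟨γ, hγ, H⟩ := hx.elim
    have hγκ := hβ.sub h.ko γ hγ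
    have xA := h.rA (hx.mono h.ko hβ)
    have H' := (h.tr2 (fun W x γ => ∀ z, E z x → RkW E W z γ) xA (h.rA (h.ko.rk hγκ))).1
      fun z hz => rkW_of h.lim (fun a => (h.hA a).2) hγκ (H z hz)
    rw [h.fix γ hγκ] at H'
    refine ext' E fun y => ⟨fun hy => ?_, fun hy => ?_⟩
    · have r := (H' y hy).rk
      rwa [← ih γ hγ (Or.inl hγκ) y r, h.mem_iff (h.rA (r.lt h.ko hγκ)) xA] at hy
    · rw [← ih γ hγ (Or.inl hγκ) y (H y hy), h.mem_iff (h.ta _ xA _ hy) xA]; exact hy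
  exact key κ h.ko (Or.inr rfl) x hx

theorem nm : ∃ U, Nm E κ U ∧ ∀ (P : Set M → M → M → M → Prop),
    (∀ i j k, RD E (fun _ => True) fun W v => P W (v i) (v j) (v k)) → ∀ p ∈ A, ∀ q ∈ A,
      (P B κ (e p) (e q) ↔ AE E U fun x => P A x p q) := by
  have := f1 h.de
  obtain ⟨S, hS⟩ := ex_pow E κ
  obtain ⟨U, hU⟩ := sep E S fun X => E κ (e X)
  replace hU : ∀ X, E X U ↔ Sub E X κ ∧ E κ (e X) := fun X =>
    (hU X).trans (and_congr_left' (hS X))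
  have sA : ∀ X, Sub E X κ → X ∈ A := fun X k => (h.hA X).2 fun s c => h.ko.rk (k s c)
  have ae : ∀ (P : Set M → M → M → M → Prop),
      (∀ i j k, RD E (fun _ => True) fun W v => P W (v i) (v j) (v k)) → ∀ p ∈ A, ∀ q ∈ A,
      (P B κ (e p) (e q) ↔ AE E U fun x => P A x p q) := fun P hP p hp q hq => by
    refine ⟨fun k => ?_, fun ⟨X, k1, k2⟩ => (h.tr4 (fun W X _ p q => ∀ x, E x X → P W x p q)
      (sA X ((hU X).1 k1).1) hp hp hq).1 k2 κ ((hU X).1 k1).2⟩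
    obtain ⟨φ, hφ⟩ := (hP 0 1 2).out
    have := satW_df h.dA φ (fun i => match i with
      | 0 => fun v => v 0 | 1 => fun _ => p | _ + 2 => fun _ => q) fun i => match i with
      | 0 => inferInstance | 1 => inferInstance | _ + 2 => inferInstance
    obtain ⟨X, hX⟩ := @sep _ E _ κ (fun x => SatW E A φ fun i => match i with
      | 0 => x | 1 => p | _ + 2 => q) (this.congr fun v => iff_of_eq (congrArg _ (by
        funext i; match i with | 0 => rfl | 1 => rfl | _ + 2 => rfl)))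
    replace hX : ∀ x, E x X ↔ E x κ ∧ P A x p q := fun x => (hX x).trans
      (and_congr_right fun c => hφ A trivial h.ta _ fun i => match i with
        | 0 => h.rA (h.ko.rk c) | 1 => hp | _ + 2 => hq)
    have s : Sub E X κ := fun x c => ((hX x).1 c).1
    refine ⟨X, (hU X).2 ⟨s, (h.tr4 (fun W X k p q => ∀ x, E x k → P W x p q → E x X)
      (sA X s) h.kA hp hq).1 (fun x a b => (hX x).2 ⟨a, b⟩) κ (h.ek ▸ h.lt) k⟩,
      fun x c => ((hX x).1 c).2⟩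
  have mono : ∀ {P Q : M → Prop}, AE E U P → (∀ x, E x κ → P x → Q x) → AE E U Q :=
    fun ⟨Y, k1, k2⟩ H => ⟨Y, k1, fun x c => H x (((hU Y).1 k1).1 x c) (k2 x c)⟩
  refine ⟨U, ⟨h.ko, ?_, fun Y k => ((hU Y).1 k).1, fun Y k => ?_, fun Y k Y' k' => ?_,
    fun X _ => ?_, fun α k => ?_, fun f _ k => ?_⟩, ae⟩
  · exact (h.tr2 (fun _ k _ => ∃ y, E y k ∧ Lim E y ∧ ∃ z, E z y) h.kA h.kA).2
      ⟨κ, h.ek ▸ h.lt, h.lim, (h.tr2 (fun _ k _ => ∃ z, E z k) h.kA h.kA).2 ⟨κ, h.ek ▸ h.lt⟩⟩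
  · have a := sA Y ((hU Y).1 k).1
    exact (h.tr2 (fun _ k _ => ∃ z, E z k) a a).2 ⟨κ, ((hU Y).1 k).2⟩
  · obtain ⟨Z, a, b⟩ := (ae (fun _ x p q => E x p ∧ E x q) (fun _ _ _ => inferInstance)
      Y (sA Y ((hU Y).1 k).1) Y' (sA Y' ((hU Y').1 k').1)).1 ⟨((hU Y).1 k).2, ((hU Y').1 k').2⟩
    exact ⟨Z, a, fun x c => (b x c).1, fun x c => (b x c).2⟩
  · obtain ⟨X', hX⟩ := sep E κ fun x => E x X
    have a := sA X' fun x c => ((hX x).1 c).1
    by_cases c : E κ (e X')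
    · exact Or.inl (((ae (fun _ x p _ => E x p) (fun _ _ _ => inferInstance) X' a X' a).1 c).mono
        fun x d => ((hX x).1 d).2)
    · exact Or.inr (mono ((ae (fun _ x p _ => ¬ E x p) (fun _ _ _ => inferInstance) X' a X' a).1 c)
        fun x d d' d'' => d' ((hX x).2 ⟨d, d''⟩))
  · have a := h.rA (h.ko.rk k)
    exact (ae (fun _ x p _ => E p x) (fun _ _ _ => inferInstance) α a α a).1 ((h.fix α k).symm ▸ k)
  · obtain ⟨g, g1, g2⟩ := ex_relV h.lim fun x ξ => App E f x ξ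
    have a := (h.hA g).2 g1
    obtain ⟨ξ, b1, b2⟩ := (ae (fun _ x p _ => ∃ ξ, E ξ x ∧ App E p x ξ)
      (fun _ _ _ => inferInstance) g a g a).2 (mono k fun x c ⟨ξ, d1, d2⟩ =>
        ⟨ξ, d1, (g2 _ _).2 ⟨h.ko.rk c, h.ko.rk (h.ko.tr c d1), d2⟩⟩)
    exact ⟨ξ, b1, ((ae (fun _ x p q => App E p x q) (fun _ _ _ => inferInstance) g a ξ
      (h.rA (h.ko.rk b1))).1 ((h.fix ξ b1).symm ▸ b2)).mono fun x c => ((g2 _ _).1 c).2.2⟩

theorem ial (hi : IA E Set.univ κ) : IA E Set.univ l := by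
  obtain ⟨K, hK⟩ := ex_V h.ko
  obtain ⟨L, hL⟩ := ex_V h.lo
  obtain ⟨y, y1, -⟩ := hi.2.1
  refine ⟨h.lo, ⟨κ, h.lt, h.lim, y, y1⟩, fun x _ hx f _ H => ?_⟩
  have := (h.tr2 (fun W K k => ∀ x, E x K → ∀ f ∈ W, (∀ u, E u x → ∃ y, E y k ∧ App E f u y) →
    ∃ b, E b k ∧ ∀ u, E u x → ∃ y, E y b ∧ App E f u y) ((h.hA K).2 fun s => (hK s).1) h.kA).1
    fun x hx f _ => hi.2.2 x trivial ((hK x).1 hx) f trivial
  rw [h.eK hK hL, h.ek] at this
  obtain ⟨g, g1, g2⟩ := ex_relV h.liml fun u y => App E f u y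
  obtain ⟨b, b1, b2⟩ := this x ((hL x).2 hx) g ((h.hB g).2 g1) fun u hu =>
    let ⟨y, c1, c2⟩ := H u hu; ⟨y, c1, (g2 _ _).2 ⟨hx.mem hu, h.lo.rk c1, c2⟩⟩
  exact ⟨b, b1, fun u hu => let ⟨y, c1, c2⟩ := b2 u hu; ⟨y, c1, ((g2 _ _).1 c2).2.2⟩⟩

theorem hyp (hC : Choice E) :
    Inacc E Set.univ l ∧ E κ l ∧ Conc E κ fun α => Superstrong E α l := by
  obtain ⟨U, hU, ae⟩ := h.nm
  have il := h.ial (hU.ia hC)
  obtain ⟨K, hK⟩ := ex_V h.ko
  obtain ⟨L, hL⟩ := ex_V h.lo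
  have KA := (h.hA K).2 fun s => (hK s).1
  have up : ∀ a, SV E a κ → Rk E a l := fun a => rk_of_sub h.lo h.lt
  obtain ⟨r, r1, r2, r3⟩ := h.toE2.gm h.lim hK hL (fun a => (h.hA a).2) (h.eK hK hL) h.ek
    fun q => h.fixV
  have rs : SV E r l := fun p k =>
    let ⟨a, s, k1, k2, k3⟩ := r1 p k; h.liml.opair (up a k1) k2 k3
  have sv : ∀ a, Sub E a K → SV E a κ := fun a k s c => (hK s).1 (k s c)
  have g : GW E B κ (e K) (e κ) := by
    rw [h.eK hK hL, h.ek]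
    exact ⟨h.lim, K, (h.hB K).2 fun s c => ((hK s).1 c).lt h.lo h.lt, fun s _ => (hK s).trans
      ⟨rkW_of h.liml (fun a => (h.hB a).2) h.lt, RkW.rk⟩, r, (h.hB r).2 rs,
      fun a s k => (hL s).2 (rs.app k).2, fun n q hq a _ ha b _ hb c _ hc k a' _ k1 b' _ k2 c' _ k3 =>
        (pz_iff hL _ _ _ _ _).2 (r3.2 n q ((hK q).1 hq) a (sv a ha) b (sv b hb) c (sv c hc)
          ((pz_iff hK _ _ _ _ _).1 k) a' k1 b' k2 c' k3)⟩
  obtain ⟨w, w1, w2⟩ := (omega_lt hU.ord).2 hU.2.1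
  refine ⟨il.inacc hC, h.lt, hU.conc hC (hU.mono (hU.and (hU.tail w2)
    ((ae (fun W x p q => GW E W x p q) (fun _ _ _ => inferInstance) K KA κ h.kA).1 g))
    fun x hx ⟨k1, k2⟩ => ?_)⟩
  have := (h.tr4 (fun W x p q _ => GW E W x p q) (h.rA (h.ko.rk hx)) KA h.kA h.kA).1 k2
  rw [h.fix x hx, h.eK hK hL, h.ek] at this
  obtain ⟨r', k3⟩ := this.gm h.tb h.liml hL (fun a => (h.hB a).2) (h.lo.tr h.lt hx)
  exact k3.ss hC il (h.lo.tr h.lt hx) w1 k1

end Ex1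

theorem OneExt.hyp (hC : Choice E) {κ l : M} (h : OneExt E κ l) :
    Inacc E Set.univ l ∧ E κ l ∧ Conc E κ fun α => Superstrong E α l :=
  let ⟨_, _, _, k⟩ := h.ex1; k.hyp hC

end Pool.Agent.Lib.MP_894941_lc
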