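import Pool.Agent.Lib.MP_894941_lc.One

/-! Below a supercompact `δ` some normal measure concentrates on cardinals superstrong with
target `δ`. -/

set_option synthInstance.maxSize 100000
set_option linter.unusedVariables false
set_option linter.unusedSectionVars false

namespace Pool.Agent.Lib.MP_894941_lc

open Pool.Agent.Lib.MP_1d770b_lc Pool.Agent.Lib.MP_75a307_lc

universe u
variable {M : Type u} {E : M → M → Prop} [hZ : ZF E]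

theorem SuperC.hyp (hC : Choice E) {δ μ p : M} (h : SuperC E δ μ)
    (hp : ∀ x, E x p ↔ ∀ y, E y x → InV E y δ) (hμ : Eqp E μ p) :
    Inacc E Set.univ δ ∧ ∃ k, E k δ ∧ Conc E k fun α => Superstrong E α δ := by
  obtain ⟨j, W, h, -, cl⟩ := h
  obtain ⟨c, c1, -, c2⟩ := hμ
  replace hp : ∀ a, E a p ↔ SV E a δ := fun a =>
    (hp a).trans (forall₂_congr fun _ _ => inV_iff)
  have dj := h.el.fj
  have img : ∀ X y0, E y0 X → (∀ y, E y X → y ∈ W) → ∀ (P : M → M → Prop), D2 E P →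
      (∀ y, E y X → ∃ a, E a p ∧ P a y) → (∀ a y y', P a y → P a y' → y = y') → X ∈ W :=
    fun X y0 h0 hX P dP H hu => by
    obtain ⟨f, f1, f2⟩ := acF hC μ X (fun ξ y => ∀ a, App E c ξ a → ∀ y', E y' X → P a y' →
      y = y') fun ξ hξ => by
        obtain ⟨a, -, k⟩ := c1.tot hξ
        by_cases d : ∃ y, E y X ∧ P a y
        · obtain ⟨y, d1, d2⟩ := d
          exact ⟨y, d1, fun a' k' y' _ d3 => hu a _ _ d2 (c1.fn _ _ _ k' k ▸ d3)⟩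
        · exact ⟨y0, h0, fun a' k' y' d1 d2 => (d ⟨y', d1, c1.fn _ _ _ k' k ▸ d2⟩).elim⟩
    obtain ⟨R, r0, r1, r2⟩ := (h.el.tr0 fun W => ∀ f ∈ W, ∃ R ∈ W,
      (∀ s, E s R → ∃ x, App E f x s) ∧ ∀ x s, App E f x s → E s R).1 (fun f _ => by
        obtain ⟨d, hd⟩ := ex_fld E f
        obtain ⟨R, hR⟩ := sep E d fun s => ∃ x, App E f x s
        exact ⟨R, trivial, fun s k => ((hR s).1 k).2, fun x s k => (hR s).2 ⟨(hd _ _ k).2, x, k⟩⟩)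
      f (cl f X f1 fun x y k => hX y (f1.mem k).2)
    refine (ext' E fun s => ⟨fun k => let ⟨x, k'⟩ := r1 s k; (f1.mem k').2, fun k => ?_⟩ : R = X) ▸ r0
    obtain ⟨a, a1, a2⟩ := H s k
    obtain ⟨ξ, a3⟩ := c2 a a1
    obtain ⟨y, -, a4⟩ := f1.tot (c1.mem a3).1
    exact (f2 _ _ a4).2.2 a a3 s k a2 ▸ r2 _ _ a4
  have dW := h.el.ord_mem h.ord
  obtain ⟨K, kW, hK⟩ := (h.el.tr0 fun W => ∀ α ∈ W, IsOrd E α → ∃ v ∈ W, ∀ x ∈ W,
    E x v ↔ Rk E x α).1 (fun α _ k => let ⟨v, hv⟩ := ex_V k; ⟨v, trivial, fun x _ => hv x⟩) δ dW h.ord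
  replace hK : ∀ x, E x K ↔ Rk E x δ := fun x => ⟨fun k => (hK x (h.trans _ kW _ k)).1 k,
    fun k => (hK x (h.fixV k ▸ h.maps x)).2 k⟩
  have pW : ∀ a, SV E a δ → a ∈ W := fun a ha => by
    obtain ⟨d, d0, d1, d2⟩ := (h.el.tr0 fun W => ∀ a ∈ W, ∀ b ∈ W, ∃ d ∈ W,
      (∀ s, E s d → E s a ∧ E s b) ∧ ∀ s, E s a → E s b → E s d).1 (fun a _ b _ =>
        let ⟨d, hd⟩ := sep E a fun s => E s b
        ⟨d, trivial, fun s => (hd s).1, fun s k k' => (hd s).2 ⟨k, k'⟩⟩) K kW (j a) (h.maps a)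
    refine (ext' E fun s => ⟨fun k => ?_, fun k => d2 s ((hK s).2 (ha s k))
      (h.fixV (ha s k) ▸ h.el.mem_iff.2 k)⟩ : d = a) ▸ d0
    exact h.el.mem_iff.1 ((h.fixV ((hK s).1 (d1 s k).1)).symm ▸ (d1 s k).2)
  have dp : SV E δ δ := fun s => h.ord.rk
  obtain ⟨X, hX⟩ := repl E p (fun a y => y = pr E a (j a)) fun _ _ _ _ a b => a.trans b.symm
  have xW : X ∈ W := img X _ ((hX _).2 ⟨δ, (hp δ).2 dp, rfl⟩) (fun y k => by
    obtain ⟨a, k1, rfl⟩ := (hX y).1 k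
    exact h.el.pr_mem (pW a ((hp a).1 k1)) (h.maps a) (pr_spec _ _))
    (fun a y => y = pr E a (j a)) (fun _ _ _ _ => inferInstance) (fun y => (hX y).1)
    fun _ _ _ a b => a.trans b.symm
  have xa : ∀ a y, App E X a y ↔ SV E a δ ∧ y = j a := fun a y => by
    rw [app_iff, hX]
    exact ⟨fun ⟨a', k1, k2⟩ => by obtain ⟨rfl, rfl⟩ := pr_inj k2; exact ⟨(hp a).1 k1, rfl⟩,
      fun ⟨k1, k2⟩ => ⟨a, (hp a).2 k1, k2 ▸ rfl⟩⟩
  obtain ⟨r, rW, r1, r2⟩ := (h.el.tr0 fun W => ∀ X ∈ W, ∃ r ∈ W,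
    (∀ a s, App E r a s → ∃ y, App E X a y ∧ E s y) ∧
      ∀ a y, App E X a y → ∀ s, E s y → App E r a s).1 (fun X _ => by
      obtain ⟨d, hd⟩ := ex_fld E X
      obtain ⟨t, ht⟩ := ex_sUnion E d
      obtain ⟨r, -, hr⟩ := ex_rel E d t fun a s => ∃ y, App E X a y ∧ E s y
      exact ⟨r, trivial, fun a s k => ((hr a s).1 k).2.2, fun a y k s k' =>
        (hr a s).2 ⟨(hd _ _ k).1, (ht s).2 ⟨y, (hd _ _ k).2, k'⟩, y, k, k'⟩⟩) X xW
  have sv : ∀ a, Sub E a K → SV E a δ := fun a k s c => (hK s).1 (k s c)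
  have im : ∀ a a', Sub E a K → Im E r a a' → a' = j a := fun a a' ha k => ext' E fun s =>
    ⟨fun c => let ⟨y, d1, d2⟩ := r1 a s (k.1 s c); ((xa a y).1 d1).2 ▸ d2,
      fun c => k.2 s (r2 a _ ((xa a _).2 ⟨sv a ha, rfl⟩) s c)⟩
  have g : GW E W δ (j K) (j δ) := by
    refine ⟨h.ia.lim, K, kW, fun s hs => (hK s).trans ⟨(h.el.tr0 fun W => ∀ x ∈ W, ∀ α ∈ W,
      Rk E x α → RkW E W x α).1 (fun x _ α _ => rkW_univ) s hs δ dW, RkW.rk⟩, r, rW,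
      fun a s k => ?_, fun n q hq a _ ha b _ hb c _ hc k a' _ k1 b' _ k2 c' _ k3 => ?_⟩
    · obtain ⟨y, d1, d2⟩ := r1 a s k
      obtain ⟨d3, rfl⟩ := (xa a y).1 d1
      exact (h.el.tr2 (fun _ a K => Sub E a K) a K).1 (fun s c => (hK s).2 (d3 s c)) s d2
    · rw [im a a' ha k1, im b b' hb k2, im c c' hc k3, ← h.fixV ((hK q).1 hq)]
      exact (ElEmb.e2 h).pz n trivial trivial trivial trivial trivial trivial k
  obtain ⟨U, u1, u2⟩ := h.normal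
  have := (RD.df (RD.gw (E := E) (G := Good E) 0 1 2) good_univ).d3
  obtain ⟨T, hT⟩ := sep E δ fun x => GW E Set.univ x K δ
  have tU : E T U := (u2 T).2 ⟨fun x k => ((hT x).1 k).1, (h.el.tr3
    (fun W k K T => ∀ x, E x k → GW E W x K k → E x T) δ K T).1
      (fun x a b => (hT x).2 ⟨a, b⟩) δ h.lt g⟩
  have sU : ∀ Y, E Y U → SV E Y δ := fun Y k s c => h.ord.rk (u1.sub Y k s c)
  obtain ⟨y, y1, V, -, y2, y3⟩ := (h.el.tr2 (fun W k T => ∃ y, E y k ∧ ∃ V ∈ W, NW E W y V ∧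
    AE E V fun x => E x T) δ T).2 ⟨δ, h.lt, U, img U δ u1.top (fun Y k => pW Y (sU Y k)) Eq
      (fun _ _ _ _ => inferInstance) (fun Y k => ⟨Y, (hp Y).2 (sU Y k), rfl⟩)
      fun _ _ _ a b => a.symm.trans b, (normal_nm hC u1).down W,
      T, tU, fun x k => h.fix x ((hT x).1 k).1 ▸ h.el.mem_iff.2 k⟩
  replace y2 : Nm E y V := y2
  obtain ⟨w, w1, w2⟩ := (omega_lt y2.ord).2 y2.2.1
  refine ⟨h.ia.inacc hC, y, y1, y2.conc hC ((y2.and y3 (y2.tail w2)).mono fun x ⟨k1, k2⟩ => ?_)⟩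
  obtain ⟨k3, k4⟩ := (hT x).1 k1
  obtain ⟨r', k5⟩ := k4.gm tr_univ h.ia.lim hK (fun _ _ => trivial) k3
  exact k5.ss hC h.ia k3 w1 k2

end Pool.Agent.Lib.MP_894941_lc
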