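import Pool.Agent.Lib.MP_894941_lc.Vp

/-! The system of maps `k_x : P(V_κ) → P(V_l)` and its threads. -/

set_option synthInstance.maxSize 100000
set_option linter.unusedVariables false
set_option linter.unusedSectionVars false

namespace Pool.Agent.Lib.MP_894941_lc

open Pool.Agent.Lib.MP_1d770b_lc Pool.Agent.Lib.MP_75a307_lc

universe u
variable {M : Type u} {E : M → M → Prop} [hZ : ZF E]

variable (E) in
def Rl : ℕ → M → M → M → M → Prop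
  | 0, _, _, u, v => p1 E u = v
  | 1, _, _, u, v => p2 E u = v
  | 2, _, _, u, v => E u v
  | 3, _, q, u, v => App E u q v ∧ ap E u q = v
  | 4, _, _, u, v => ∃ w, App E u v w
  | 5, _, q, u, _ => u = q
  | 6, _, q, u, _ => E u q
  | 7, _, _, u, v => u = v
  | _ + 8, y, _, u, _ => E u y

theorem dRl (n : ℕ) : D4 E (Rl E n) := fun _ _ _ _ _ _ _ _ => by
  match n with
  | 0 | 1 | 2 | 3 | 4 | 5 | 6 | 7 | _ + 8 => simp only [Rl]; infer_instance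

variable (E) in
def Ph : ℕ → M → M → M → M → M → Prop
  | 0, y, _, a, b, _ => ∀ u v, Rk E u y → Rk E v y → App E a u v ∨ App E b u v
  | 1, _, _, a, b, c => ∀ s, E s a → E s b → E s c
  | 2, _, _, a, _, _ => ∀ s, ¬ E s a
  | 3, _, _, a, b, c => ∀ t v, App E a t v → App E b t v → E t c
  | 4, _, _, a, b, c => ∀ t u v, App E a t u → App E b u v → App E c t v
  | 5, y, _, a, _, _ => ∀ s, Rk E s y → ∃ u, Rk E u y ∧ App E a s u
  | 6, _, q, a, b, _ => ∀ s, E s a → App E b q s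
  | 7, _, q, a, _, _ => ∃ t, ∀ n m, E n q → IsSuc E m n → App E a n (pr E (ap E t m) (ap E t n))
  | n + 8, y, q, a, _, _ => ∀ u v, App E a u v ↔ Rk E u y ∧ Rk E v y ∧ Rl E n y q u v

theorem dPh (n : ℕ) : D5 E (Ph E n) := fun _ _ _ _ _ _ _ _ _ _ => by
  match n with
  | 0 | 1 | 2 | 3 | 4 | 5 | 6 | 7 => simp only [Ph]; infer_instance
  | n + 8 => have := dRl (E := E) n; simp only [Ph]; infer_instance

variable (E) in
noncomputable abbrev kx (k x a : M) : M := ap E (ap E k x) a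

variable (E) in
structure Sy (κ l U k w : M) : Prop where
  nm : Nm E κ U
  il : IA E Set.univ l
  lt : E κ l
  om : IsOmega E w
  ow : E w κ
  tr : ∀ n, n < 17 → ∀ q, Rk E q κ → AE E U fun x => ∀ a b c, SV E a κ → SV E b κ → SV E c κ →
    (Ph E n κ q a b c ↔ Ph E n l q (kx E k x a) (kx E k x b) (kx E k x c))

theorem ex_sy (hC : Choice E) {β W : M} (hV : Vop E β) (hW : Nm E β W) (h1 : AE E W (O1 E)) :
    ∃ κ l U k w, E l β ∧ O1 E κ ∧ Sy E κ l U k w := by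
  let Φ : M → M → M → M → M → Prop := fun y i a b c =>
    ∃ n : Fin 17, ∃ m q, IsOPair E i m q ∧ IsNum E n m ∧ Ph E n y q a b c
  have hΦ : D5 E Φ := fun _ _ _ _ _ _ _ _ _ _ => by
    simp only [Φ]
    refine @Df.exFin _ _ 17 _ fun n => ?_
    have := dPh (E := E) n
    infer_instance
  have key : ∀ n, n < 17 → ∀ m, IsNum E n m → ∀ y q a b c,
      (Φ y (pr E m q) a b c ↔ Ph E n y q a b c) := fun n hn m hm y q a b c =>
    ⟨fun ⟨n', m', q', k1, k2, k3⟩ => by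
      obtain ⟨rfl, rfl⟩ := k1.inj (pr_spec m q)
      exact k2.inj hm ▸ k3, fun k => ⟨⟨n, hn⟩, m, q, pr_spec _ _, hm, k⟩⟩
  obtain ⟨κ, l, a1, a2, a3, a4, a5⟩ := vp hC hΦ hV hW h1
  obtain ⟨U, hU⟩ := a3.1
  obtain ⟨V, hV'⟩ := a4.1
  have := dGd hΦ
  obtain ⟨k, -, -, hk⟩ := skolem hC κ fun x k => Gd E Φ k κ l x
  obtain ⟨w, b1, b2⟩ := (omega_lt hU.ord).2 hU.2.1
  refine ⟨κ, l, U, k, w, a2, a3, hU, hV'.ia hC, a1, b1, b2, fun n hn q hq => ?_⟩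
  obtain ⟨m, hm⟩ := ex_num E n
  have hl := (hU.ia hC).lim
  obtain ⟨γ, g1, g2⟩ := hl.rk (hl.opair (hU.ord.rk (hU.ord.tr b2 (hm.mem b1))) hq (pr_spec _ _))
  refine hU.mono (hU.tail g1) fun x hx k' a b c ha hb hc => ?_
  rw [← key n hn m hm, ← key n hn m hm]
  exact hk x hx (a5 x hx) _ a b c (g2.lt (hU.ord.mem hx) k') ha hb hc _ rfl _ rfl _ rfl

theorem SV.app {p y t u : M} (h : SV E p y) (k : App E p t u) : Rk E t y ∧ Rk E u y := by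
  obtain ⟨z, ⟨s, t', _, ht, hp⟩, hf⟩ := k
  have := (h z hf).mem ((hp t').2 (Or.inr rfl))
  exact ⟨this.mem ((ht t).2 (Or.inl rfl)), this.mem ((ht u).2 (Or.inr rfl))⟩

theorem ex_relV {κ : M} (h : Lim E κ) (R : M → M → Prop) [Df E fun v => R (v 0) (v 1)] :
    ∃ g, SV E g κ ∧ ∀ u v, App E g u v ↔ Rk E u κ ∧ Rk E v κ ∧ R u v := by
  obtain ⟨K, hK⟩ := ex_V h.1
  obtain ⟨g, g1, g2⟩ := ex_rel E K K R
  refine ⟨g, fun p hp => ?_, fun u v => by rw [g2, hK, hK]⟩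
  obtain ⟨u, v, a, b, c, -⟩ := (g1 p).1 hp
  exact h.opair ((hK u).1 a) ((hK v).1 b) c

theorem ex_funs (a b : M) : ∃ N, (∀ c, E c N ↔ Func E c a b) ∧
    ∀ β, Lim E β → Rk E a β → Rk E b β → Rk E N β := by
  obtain ⟨D, hD, -⟩ := ex_rel E a b fun _ _ => True
  obtain ⟨S, hS⟩ := ex_pow E D
  obtain ⟨N, hN⟩ := sep E S fun c => Func E c a b
  refine ⟨N, fun c => (hN c).trans ⟨fun k => k.2, fun k => ⟨(hS c).2 fun p hp => (hD p).2 ?_, k⟩⟩,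
    fun β hl ha hb => ?_⟩
  · obtain ⟨x, y, k1, k2, k3⟩ := k.1.1 p hp
    exact ⟨x, y, k1, k2, k3, trivial⟩
  · obtain ⟨γ, g1, g2, g3⟩ := hl.rk2 ha hb
    refine MP_75a307_lc.Lim.pow hl (hl.rel g1 fun p hp => ?_) fun c k => (hS c).1 ((hN c).1 k).1
    obtain ⟨x, y, k1, k2, k3, -⟩ := (hD p).1 hp
    exact ⟨x, y, k3, g2.mem k1, g3.mem k2⟩

theorem Nm.seed {κ U : M} (h : Nm E κ U) (hC : Choice E) {B e : M} (he : E e B)
    (P : M → M → Prop) [hP : Df E fun v => P (v 0) (v 1)]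
    (H : AE E U fun x => ∃ u, E u B ∧ P x u) :
    ∃ c, Func E c κ B ∧ AE E U fun x => P x (ap E c x) := by
  have := hP.d2
  obtain ⟨c, c1, c2⟩ := acF hC κ B (fun x u => (∃ u', E u' B ∧ P x u') → P x u) fun x _ => by
    by_cases k : ∃ u', E u' B ∧ P x u'
    · exact let ⟨u, k1, k2⟩ := k; ⟨u, k1, fun _ => k2⟩
    · exact ⟨e, he, fun k' => (k k').elim⟩
  exact ⟨c, c1, h.mono H fun x hx k => (c2 _ _ (app_ap c1.fn (c1.2 x hx))).2.2 k⟩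

namespace Sy

variable {κ l U k w : M} (h : Sy E κ l U k w) (hC : Choice E)
include h

theorem wr : Rk E w κ := h.nm.ord.rk h.ow

theorem up (n : ℕ) (hn : n < 17) {q a b c : M} (hq : Rk E q κ) (ha : SV E a κ) (hb : SV E b κ)
    (hc : SV E c κ) (H : Ph E n κ q a b c) :
    AE E U fun x => Ph E n l q (kx E k x a) (kx E k x b) (kx E k x c) :=
  (h.tr n hn q hq).mono fun x k => (k a b c ha hb hc).1 H

theorem dn (n : ℕ) (hn : n < 17) {q a b c : M} (hq : Rk E q κ) (ha : SV E a κ) (hb : SV E b κ)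
    (hc : SV E c κ) (H : AE E U fun x => Ph E n l q (kx E k x a) (kx E k x b) (kx E k x c)) :
    Ph E n κ q a b c :=
  let ⟨x, _, k1, k2⟩ := h.nm.ex (h.nm.and (h.tr n hn q hq) H); (k1 a b c ha hb hc).2 k2

include hC

theorem lim : Lim E κ := (h.nm.ia hC).lim

theorem gr (n : ℕ) (hn : n < 9) {q : M} (hq : Rk E q κ) : ∃ g, SV E g κ ∧
    (∀ u v, App E g u v ↔ Rk E u κ ∧ Rk E v κ ∧ Rl E n κ q u v) ∧ AE E U fun x =>
      ∀ u v, App E (kx E k x g) u v ↔ Rk E u l ∧ Rk E v l ∧ Rl E n l q u v := by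
  have := dRl (E := E) n
  obtain ⟨g, g1, g2⟩ := ex_relV (h.lim hC) fun u v => Rl E n κ q u v
  exact ⟨g, g1, g2, h.up (n + 8) (by omega) hq g1 g1 g1 g2⟩

theorem comp {p p' : M} (hp : SV E p κ) (hp' : SV E p' κ) : ∃ g, SV E g κ ∧
    (∀ t v, App E g t v → ∃ u, App E p t u ∧ App E p' u v) ∧ AE E U fun x =>
      ∀ t u v, App E (kx E k x p) t u → App E (kx E k x p') u v → App E (kx E k x g) t v := by
  obtain ⟨g, g1, g2⟩ := ex_relV (h.lim hC) fun t v => ∃ u, App E p t u ∧ App E p' u v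
  exact ⟨g, g1, fun t v k => ((g2 t v).1 k).2.2, h.up 4 (by omega) h.wr hp hp' g1
    fun t u v a b => (g2 t v).2 ⟨(hp.app a).1, (hp'.app b).2, u, a, b⟩⟩

variable {L N : M} (hL : ∀ s, E s L ↔ Rk E s l) (hN : ∀ c, E c N ↔ Func E c κ L)
include hL hN

omit hC in
theorem sd {c x : M} (hc : E c N) (hx : E x κ) : Rk E (ap E c x) l :=
  let k := (hN c).1 hc; (hL _).1 (k.mem (app_ap k.fn (k.2 x hx))).2

theorem seed (P : M → M → Prop) [hP : Df E fun v => P (v 0) (v 1)]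
    (H : AE E U fun x => ∃ u, Rk E u l ∧ P x u) :
    ∃ c, E c N ∧ AE E U fun x => P x (ap E c x) :=
  let ⟨c, c1, c2⟩ := h.nm.seed hC ((hL κ).2 (h.il.1.rk h.lt)) P
    (H.mono fun x ⟨u, a, b⟩ => ⟨u, (hL u).2 a, b⟩)
  ⟨c, (hN c).2 c1, c2⟩

theorem pair {a b : M} (ha : E a N) (hb : E b N) :
    ∃ c, E c N ∧ AE E U fun x => ap E c x = pr E (ap E a x) (ap E b x) :=
  h.seed hC hL hN (fun x u => u = pr E (ap E a x) (ap E b x)) (h.nm.all fun x hx =>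
    ⟨_, h.il.lim.opair (h.sd hL hN ha hx) (h.sd hL hN hb hx) (pr_spec _ _), rfl⟩)

theorem threads : ∃ V, (∀ Y, E Y V → ∃ σ, E σ Y) ∧
    (∀ Y, E Y V → ∀ Y', E Y' V → ∃ Z, E Z V ∧ Sub E Z Y ∧ Sub E Z Y') ∧
    ∀ r a b, SV E r κ → E a N → E b N →
      (AE E U fun x => App E (kx E k x r) (ap E a x) (ap E b x)) →
      AE E V fun σ => App E r (ap E σ a) (ap E σ b) := by
  let Q : M → M → M → Prop := fun c a p => SV E p κ ∧ Fn E p ∧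
    AE E U fun x => App E (kx E k x p) (ap E c x) (ap E a x)
  have dQ : D3 E Q := fun _ _ _ _ _ _ => by simp only [Q]; infer_instance
  have dQ' := dt3 dQ
  have dir : ∀ a b, E a N → E b N → ∃ c, E c N ∧ (∃ p, Q c a p) ∧
      ∀ e, (∃ p, Q e c p) → (∃ p, Q e a p) ∧ ∃ p, Q e b p := fun a b ha hb => by
    obtain ⟨c, c1, c2⟩ := h.pair hC hL hN ha hb
    have tr : ∀ a e, (∃ p, Q c a p) → (∃ p, Q e c p) → ∃ p, Q e a p :=
      fun a e ⟨p, a1, a2, a3⟩ ⟨p', b1, b2, b3⟩ => by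
      obtain ⟨g, g1, g2, g3⟩ := h.comp hC b1 a1
      refine ⟨g, g1, fun t v v' d1 d2 => ?_,
        (h.nm.and g3 (h.nm.and a3 b3)).mono fun x k => k.1 _ _ _ k.2.2 k.2.1⟩
      obtain ⟨u, d3, d4⟩ := g2 t v d1
      obtain ⟨u', d5, d6⟩ := g2 t v' d2
      exact a2 _ _ _ d4 (b2 _ _ _ d5 d3 ▸ d6)
    obtain ⟨g, g1, g2, g3⟩ := h.gr hC 0 (by omega) h.wr
    obtain ⟨g', g4, g5, g6⟩ := h.gr hC 1 (by omega) h.wr
    have qa : ∃ p, Q c a p := ⟨g, g1, fun u v v' d1 d2 =>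
      Eq.trans (Eq.symm ((g2 u v).1 d1).2.2) ((g2 u v').1 d2).2.2,
      h.nm.mono (h.nm.and g3 c2) fun x hx k => (k.1 _ _).2
        ⟨h.sd hL hN c1 hx, h.sd hL hN ha hx, k.2.symm ▸ p1_pr _ _⟩⟩
    have qb : ∃ p, Q c b p := ⟨g', g4, fun u v v' d1 d2 =>
      Eq.trans (Eq.symm ((g5 u v).1 d1).2.2) ((g5 u v').1 d2).2.2,
      h.nm.mono (h.nm.and g6 c2) fun x hx k => (k.1 _ _).2
        ⟨h.sd hL hN c1 hx, h.sd hL hN hb hx, k.2.symm ▸ p2_pr _ _⟩⟩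
    exact ⟨c, c1, qa, fun e k => ⟨tr a e qa k, tr b e qb k⟩⟩
  obtain ⟨K, hK⟩ := ex_V h.nm.ord
  obtain ⟨D, -, hD⟩ := ex_rel E N N fun _ _ => True
  obtain ⟨D', -, hD'⟩ := ex_rel E N K fun _ _ => True
  obtain ⟨π, -, -, hπ⟩ := skolem hC D fun z p => Q (p1 E z) (p2 E z) p
  replace hπ : ∀ c a, E c N → E a N → (∃ p, Q c a p) → Q c a (ap E π (pr E c a)) :=
    fun c a hc ha k => by simpa using hπ _ (app_iff.1 ((hD c a).2 ⟨hc, ha, trivial⟩)) (by simpa)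
  let Th : M → M → M → Prop := fun σ c t => ∀ a, E a N → ap E σ a = ap E (ap E π (pr E c a)) t
  have dT : D3 E Th := fun _ _ _ _ _ _ => by simp only [Th]; infer_instance
  have dT' := dt3 dT
  obtain ⟨T, hT⟩ := coll E D' fun z σ => Th σ (p1 E z) (p2 E z)
  replace hT : ∀ c t, E c N → Rk E t κ → ∃ σ, E σ T ∧ Th σ c t := fun c t hc ht => by
    obtain ⟨σ, -, s⟩ := lam hC N fun a => ap E (ap E π (pr E c a)) t
    simpa using hT _ (app_iff.1 ((hD' c t).2 ⟨hc, (hK t).2 ht, trivial⟩)) ⟨σ, by simpa⟩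
  obtain ⟨S, hS⟩ := ex_pow E T
  obtain ⟨V, hV⟩ := sep E S fun Y => ∃ d, E d N ∧ ∀ c, E c N → (∃ p, Q c d p) → ∃ Z, SV E Z κ ∧
    (∀ t, E t Z → ∀ σ, E σ T → Th σ c t → E σ Y) ∧ AE E U fun x => E (ap E c x) (kx E k x Z)
  refine ⟨V, fun Y hY => ?_, fun Y hY Y' hY' => ?_, fun r a b hr ha hb H => ?_⟩
  · obtain ⟨-, d, d1, d2⟩ := (hV Y).1 hY
    obtain ⟨c, c1, c2, -⟩ := dir d d d1 d1
    obtain ⟨Z, z1, z2, z3⟩ := d2 c c1 c2
    by_contra hn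
    obtain ⟨x, -, a, b⟩ := h.nm.ex (h.nm.and z3 (h.up 2 (by omega) h.wr z1 z1 z1 fun t ht =>
      let ⟨σ, s1, s2⟩ := hT c t c1 (z1 t ht); hn ⟨σ, z2 t ht σ s1 s2⟩))
    exact b _ a
  · obtain ⟨y, d, d1, d2⟩ := (hV Y).1 hY
    obtain ⟨-, d', d3, d4⟩ := (hV Y').1 hY'
    obtain ⟨c, c1, -, c2⟩ := dir d d' d1 d3
    obtain ⟨X, hX⟩ := sep E Y fun σ => E σ Y'
    refine ⟨X, (hV X).2 ⟨(hS X).2 fun σ k => (hS Y).1 y σ ((hX σ).1 k).1, c, c1, fun e he k => ?_⟩,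
      fun σ k => ((hX σ).1 k).1, fun σ k => ((hX σ).1 k).2⟩
    obtain ⟨Z, z1, z2, z3⟩ := d2 e he (c2 e k).1
    obtain ⟨Z', z4, z5, z6⟩ := d4 e he (c2 e k).2
    obtain ⟨A, hA⟩ := sep E Z fun t => E t Z'
    have a : SV E A κ := fun t k => z1 t ((hA t).1 k).1
    exact ⟨A, a, fun t k σ s1 s2 => (hX σ).2
      ⟨z2 t ((hA t).1 k).1 σ s1 s2, z5 t ((hA t).1 k).2 σ s1 s2⟩,
      (h.nm.and (h.up 1 (by omega) h.wr z1 z4 a fun t k1 k2 => (hA t).2 ⟨k1, k2⟩)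
        (h.nm.and z3 z6)).mono fun x k => k.1 _ k.2.1 k.2.2⟩
  · obtain ⟨c, c1, -, c2⟩ := dir a b ha hb
    obtain ⟨Y, hY⟩ := sep E T fun σ => App E r (ap E σ a) (ap E σ b)
    refine ⟨Y, (hV Y).2 ⟨(hS Y).2 fun σ k => ((hY σ).1 k).1, c, c1, fun e he k => ?_⟩,
      fun σ k => ((hY σ).1 k).2⟩
    obtain ⟨a1, a2, a3⟩ := hπ e a he ha (c2 e k).1
    obtain ⟨b1, b2, b3⟩ := hπ e b he hb (c2 e k).2
    obtain ⟨g, g1, g2, g3⟩ := h.comp hC a1 hr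
    obtain ⟨Z, hZ'⟩ := sep E K fun t => ∃ v, App E g t v ∧ App E (ap E π (pr E e b)) t v
    have z : SV E Z κ := fun t k => (hK t).1 ((hZ' t).1 k).1
    refine ⟨Z, z, fun t k σ s1 s2 => (hY σ).2 ⟨s1, ?_⟩,
      (h.nm.and (h.up 3 (by omega) h.wr g1 b1 z fun t v k1 k2 =>
        (hZ' t).2 ⟨(hK t).2 (g1.app k1).1, v, k1, k2⟩)
        (h.nm.and (h.nm.and g3 H) (h.nm.and a3 b3))).mono
        fun x k => k.1 _ _ (k.2.1.1 _ _ _ k.2.2.1 k.2.1.2) k.2.2.2⟩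
    obtain ⟨-, v, k1, k2⟩ := (hZ' t).1 k
    obtain ⟨u, k3, k4⟩ := g2 t v k1
    rwa [s2 a ha, s2 b hb, ap_eq a2 k3, ap_eq b2 k2]

end Sy

end Pool.Agent.Lib.MP_894941_lc
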