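import Pool.Agent.Lib.MP_894941_lc.Thr

/-! The system of maps `a ↦ k_x (a ∩ V_x)` from `P(V_κ)` to `P(V_l)` and its threads. -/

set_option synthInstance.maxSize 100000
set_option linter.unusedVariables false
set_option linter.unusedSectionVars false

namespace Pool.Agent.Lib.MP_894941_lc

open Pool.Agent.Lib.MP_1d770b_lc Pool.Agent.Lib.MP_75a307_lc

universe u
variable {M : Type u} {E : M → M → Prop} [hZ : ZF E]

variable (E) in
def Rm : ℕ → M → M → M → M → Prop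
  | 0, _, _, u, v => ∃ s t, IsOPair E u s t ∧ s = v
  | 1, _, _, u, v => ∃ s t, IsOPair E u s t ∧ t = v
  | 2, _, _, u, v => E u v
  | 3, _, q, u, v => App E u q v ∧ ∀ v', App E u q v' → v' = v
  | 4, _, _, u, v => ∃ w, App E u v w
  | 5, _, q, u, _ => u = q
  | 6, _, q, u, _ => E u q
  | 7, _, _, u, v => u = v
  | _ + 8, y, _, u, _ => E u y

theorem dRm (n : ℕ) : D4 E (Rm E n) := fun _ _ _ _ _ _ _ _ => by
  match n with
  | 0 | 1 | 2 | 3 | 4 | 5 | 6 | 7 | _ + 8 => simp only [Rm]; infer_instance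

variable (E) in
/-- `t` is a chain of length `q` through `a` -/
def Chn (q a t : M) : Prop := Fn E t ∧ ∀ n, E n q → ∀ m, E m q → IsSuc E m n →
  ∃ u, App E t m u ∧ ∃ v, App E t n v ∧ ∃ p, App E a n p ∧ IsOPair E p u v

variable (E) in
def Pz (Z : M → Prop) : ℕ → M → M → M → M → M → Prop
  | 0, _, _, a, b, _ => ∀ u, Z u → ∀ v, Z v → App E a u v ∨ App E b u v
  | 1, _, _, a, b, c => ∀ s, E s a → E s b → E s c
  | 2, _, _, a, _, _ => ∀ s, E s a → s ≠ s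
  | 3, _, _, a, b, c => ∀ t v, App E a t v → App E b t v → E t c
  | 4, _, _, a, b, c => ∀ t u, App E a t u → ∀ v, App E b u v → App E c t v
  | 5, _, _, a, _, _ => ∀ s, Z s → ∃ u, Z u ∧ App E a s u
  | 6, _, q, a, b, _ => ∀ s, E s a → App E b q s
  | 7, _, q, a, _, _ => ∀ t, Z t → ¬ Chn E q a t
  | n + 8, y, q, a, _, _ => (∀ u v, App E a u v → Z u ∧ Z v ∧ Rm E n y q u v) ∧
      ∀ u, Z u → ∀ v, Z v → Rm E n y q u v → App E a u v

variable (E) in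
def Pm (n : ℕ) (y q a b c : M) : Prop := Pz E (fun s => Rk E s y) n y q a b c

theorem dPm (n : ℕ) : D5 E (Pm E n) := fun _ _ _ _ _ _ _ _ _ _ => by
  match n with
  | 0 | 1 | 2 | 3 | 4 | 5 | 6 | 7 => simp only [Pm, Pz, Chn]; infer_instance
  | n + 8 => have := dRm (E := E) n; simp only [Pm, Pz]; infer_instance

variable (E) in
/-- a `κ`-complete ultrafilter on `κ`, possibly principal -/
structure Uf (κ U : M) : Prop where
  lim : Lim E κ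
  and : ∀ {P Q : M → Prop}, AE E U P → AE E U Q → AE E U fun x => P x ∧ Q x
  mono : ∀ {P Q : M → Prop}, AE E U P → (∀ x, E x κ → P x → Q x) → AE E U Q
  ex : ∀ {P : M → Prop}, AE E U P → ∃ x, E x κ ∧ P x
  all : ∀ {P : M → Prop}, (∀ x, E x κ → P x) → AE E U P
  ult : ∀ (P : M → Prop) [Df E fun v => P (v 0)], AE E U P ∨ AE E U fun x => ¬ P x
  bdd : ∀ {γ : M}, E γ κ → ∀ (P : M → M → Prop) [Df E fun v => P (v 0) (v 1)],
    (∀ ξ, E ξ γ → AE E U (P ξ)) → AE E U fun x => ∀ ξ, E ξ γ → P ξ x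

theorem Uf.ord {κ U : M} (h : Uf E κ U) : IsOrd E κ := h.lim.1

theorem Nm.uf {κ U : M} (h : Nm E κ U) (hC : Choice E) : Uf E κ U :=
  ⟨(h.ia hC).lim, h.and, h.mono, h.ex, h.all, fun P _ => h.ult P, fun k P _ => h.bdd hC k P⟩

theorem Uf.seed {κ U : M} (h : Uf E κ U) (hC : Choice E) {B e : M} (he : E e B)
    (P : M → M → Prop) [hP : Df E fun v => P (v 0) (v 1)]
    (H : AE E U fun x => ∃ u, E u B ∧ P x u) :
    ∃ c, Func E c κ B ∧ AE E U fun x => P x (ap E c x) := by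
  have := hP.d2
  obtain ⟨c, c1, c2⟩ := acF hC κ B (fun x u => (∃ u', E u' B ∧ P x u') → P x u) fun x _ => by
    by_cases k : ∃ u', E u' B ∧ P x u'
    · exact let ⟨u, k1, k2⟩ := k; ⟨u, k1, fun _ => k2⟩
    · exact ⟨e, he, fun k' => (k k').elim⟩
  exact ⟨c, c1, h.mono H fun x hx k => (c2 _ _ (app_ap c1.fn (c1.2 x hx))).2.2 k⟩

variable (E) in
/-- `l` is a strong limit of cofinality above `κ` -/
structure Tg (κ l : M) : Prop where
  ord : IsOrd E l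
  lim : Lim E l
  bd : ∀ {x : M}, Sub E x κ → ∀ (P : M → M → Prop) [Df E fun v => P (v 0) (v 1)],
    (∀ u, E u x → ∃ y, E y l ∧ P u y) → ∃ b, E b l ∧ ∀ u, E u x → ∃ y, E y b ∧ P u y
  big : ∀ {x : M}, Rk E x l → ∀ (P : M → M → Prop) [Df E fun v => P (v 0) (v 1)],
    (∀ y, E y l → ∃ u, E u x ∧ P u y) → (∀ u y y', P u y → P u y' → y = y') → False

theorem tg_ia {κ l : M} (h : IA E Set.univ l) (lt : E κ l) : Tg E κ l :=
  ⟨h.1, h.lim, fun k P _ => h.bd ((h.1.rk lt).sub k) P, fun k P _ => h.big k P⟩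

theorem Tg.le {κ k l : M} (h : Tg E k l) (s : Sub E κ k) : Tg E κ l :=
  ⟨h.1, h.lim, fun a => h.bd fun u b => s u (a u b), h.big⟩

variable (E) in
structure Ty (κ l U k w : M) : Prop where
  nm : Uf E κ U
  il : Tg E κ l
  lt : E κ l
  om : IsOmega E w
  ow : E w κ
  up : ∀ n, n < 17 → ∀ {q a b c}, Rk E q κ → SV E a κ → SV E b κ → SV E c κ → Pm E n κ q a b c →
    AE E U fun x => Pm E n l q (kx E k x a) (kx E k x b) (kx E k x c)

namespace Ty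

variable {κ l U k w : M} (h : Ty E κ l U k w) (hC : Choice E)
include h

theorem wr : Rk E w κ := h.nm.ord.rk h.ow

include hC

theorem lim : Lim E κ := h.nm.lim

theorem gr (n : ℕ) (hn : n < 9) {q : M} (hq : Rk E q κ) : ∃ g, SV E g κ ∧
    (∀ u v, App E g u v ↔ Rk E u κ ∧ Rk E v κ ∧ Rm E n κ q u v) ∧ AE E U fun x =>
      ∀ u v, App E (kx E k x g) u v ↔ Rk E u l ∧ Rk E v l ∧ Rm E n l q u v := by
  have := dRm (E := E) n
  obtain ⟨g, g1, g2⟩ := ex_relV (h.lim hC) fun u v => Rm E n κ q u v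
  exact ⟨g, g1, g2, (h.up (n + 8) (by omega) hq g1 g1 g1 ⟨fun u v => (g2 u v).1,
    fun u a v b c => (g2 u v).2 ⟨a, b, c⟩⟩).mono fun x k u v =>
      ⟨k.1 u v, fun a => k.2 u a.1 v a.2.1 a.2.2⟩⟩

theorem comp {p p' : M} (hp : SV E p κ) (hp' : SV E p' κ) : ∃ g, SV E g κ ∧
    (∀ t v, App E g t v → ∃ u, App E p t u ∧ App E p' u v) ∧ AE E U fun x =>
      ∀ t u v, App E (kx E k x p) t u → App E (kx E k x p') u v → App E (kx E k x g) t v := by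
  obtain ⟨g, g1, g2⟩ := ex_relV (h.lim hC) fun t v => ∃ u, App E p t u ∧ App E p' u v
  exact ⟨g, g1, fun t v k => ((g2 t v).1 k).2.2, (h.up 4 (by omega) h.wr hp hp' g1
    fun t u a v b => (g2 t v).2 ⟨(hp.app a).1, (hp'.app b).2, u, a, b⟩).mono
      fun x k t u v a b => k t u a v b⟩

variable {L N : M} (hL : ∀ s, E s L ↔ Rk E s l) (hN : ∀ c, E c N ↔ Func E c κ L)
include hL hN

omit hC in
theorem sd {c x : M} (hc : E c N) (hx : E x κ) : Rk E (ap E c x) l :=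
  let k := (hN c).1 hc; (hL _).1 (k.mem (app_ap k.fn (k.2 x hx))).2

theorem seed (P : M → M → Prop) [hP : Df E fun v => P (v 0) (v 1)]
    (H : AE E U fun x => ∃ u, Rk E u l ∧ P x u) :
    ∃ c, E c N ∧ AE E U fun x => P x (ap E c x) :=
  let ⟨c, c1, c2⟩ := h.nm.seed hC ((hL κ).2 (h.il.1.rk h.lt)) P
    (H.mono fun x ⟨u, a, b⟩ => ⟨u, (hL u).2 a, b⟩)
  ⟨c, (hN c).2 c1, c2⟩

theorem pair {a b : M} (ha : E a N) (hb : E b N) :
    ∃ c, E c N ∧ AE E U fun x => ap E c x = pr E (ap E a x) (ap E b x) :=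
  h.seed hC hL hN (fun x u => u = pr E (ap E a x) (ap E b x)) (h.nm.all fun x hx =>
    ⟨_, h.il.lim.opair (h.sd hL hN ha hx) (h.sd hL hN hb hx) (pr_spec _ _), rfl⟩)

theorem threads : ∃ V, (∀ Y, E Y V → ∃ σ, E σ Y) ∧
    (∀ Y, E Y V → ∀ Y', E Y' V → ∃ Z, E Z V ∧ Sub E Z Y ∧ Sub E Z Y') ∧
    ∀ r a b, SV E r κ → E a N → E b N →
      (AE E U fun x => App E (kx E k x r) (ap E a x) (ap E b x)) →
      AE E V fun σ => App E r (ap E σ a) (ap E σ b) := by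
  let Q : M → M → M → Prop := fun c a p => SV E p κ ∧ Fn E p ∧
    AE E U fun x => App E (kx E k x p) (ap E c x) (ap E a x)
  have dQ : D3 E Q := fun _ _ _ _ _ _ => by simp only [Q]; infer_instance
  have dQ' := dt3 dQ
  have dir : ∀ a b, E a N → E b N → ∃ c, E c N ∧ (∃ p, Q c a p) ∧
      ∀ e, (∃ p, Q e c p) → (∃ p, Q e a p) ∧ ∃ p, Q e b p := fun a b ha hb => by
    obtain ⟨c, c1, c2⟩ := h.pair hC hL hN ha hb
    have tr : ∀ a e, (∃ p, Q c a p) → (∃ p, Q e c p) → ∃ p, Q e a p :=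
      fun a e ⟨p, a1, a2, a3⟩ ⟨p', b1, b2, b3⟩ => by
      obtain ⟨g, g1, g2, g3⟩ := h.comp hC b1 a1
      refine ⟨g, g1, fun t v v' d1 d2 => ?_,
        (h.nm.and g3 (h.nm.and a3 b3)).mono fun x k => k.1 _ _ _ k.2.2 k.2.1⟩
      obtain ⟨u, d3, d4⟩ := g2 t v d1
      obtain ⟨u', d5, d6⟩ := g2 t v' d2
      exact a2 _ _ _ d4 (b2 _ _ _ d5 d3 ▸ d6)
    obtain ⟨g, g1, g2, g3⟩ := h.gr hC 0 (by omega) h.wr
    obtain ⟨g', g4, g5, g6⟩ := h.gr hC 1 (by omega) h.wr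
    have qa : ∃ p, Q c a p := ⟨g, g1, fun u v v' d1 d2 =>
      let ⟨_, _, e1, e2⟩ := ((g2 u v).1 d1).2.2; let ⟨_, _, e3, e4⟩ := ((g2 u v').1 d2).2.2
      e2.symm.trans ((e1.inj e3).1.trans e4),
      h.nm.mono (h.nm.and g3 c2) fun x hx k => (k.1 _ _).2
        ⟨h.sd hL hN c1 hx, h.sd hL hN ha hx, _, _, pr_eq.2 k.2, rfl⟩⟩
    have qb : ∃ p, Q c b p := ⟨g', g4, fun u v v' d1 d2 =>
      let ⟨_, _, e1, e2⟩ := ((g5 u v).1 d1).2.2; let ⟨_, _, e3, e4⟩ := ((g5 u v').1 d2).2.2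
      e2.symm.trans ((e1.inj e3).2.trans e4),
      h.nm.mono (h.nm.and g6 c2) fun x hx k => (k.1 _ _).2
        ⟨h.sd hL hN c1 hx, h.sd hL hN hb hx, _, _, pr_eq.2 k.2, rfl⟩⟩
    exact ⟨c, c1, qa, fun e k => ⟨tr a e qa k, tr b e qb k⟩⟩
  obtain ⟨K, hK⟩ := ex_V h.nm.ord
  obtain ⟨D, -, hD⟩ := ex_rel E N N fun _ _ => True
  obtain ⟨D', -, hD'⟩ := ex_rel E N K fun _ _ => True
  obtain ⟨π, -, -, hπ⟩ := skolem hC D fun z p => Q (p1 E z) (p2 E z) p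
  replace hπ : ∀ c a, E c N → E a N → (∃ p, Q c a p) → Q c a (ap E π (pr E c a)) :=
    fun c a hc ha k => by simpa using hπ _ (app_iff.1 ((hD c a).2 ⟨hc, ha, trivial⟩)) (by simpa)
  let Th : M → M → M → Prop := fun σ c t => ∀ a, E a N → ap E σ a = ap E (ap E π (pr E c a)) t
  have dT : D3 E Th := fun _ _ _ _ _ _ => by simp only [Th]; infer_instance
  have dT' := dt3 dT
  obtain ⟨T, hT⟩ := coll E D' fun z σ => Th σ (p1 E z) (p2 E z)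
  replace hT : ∀ c t, E c N → Rk E t κ → ∃ σ, E σ T ∧ Th σ c t := fun c t hc ht => by
    obtain ⟨σ, -, s⟩ := lam hC N fun a => ap E (ap E π (pr E c a)) t
    simpa using hT _ (app_iff.1 ((hD' c t).2 ⟨hc, (hK t).2 ht, trivial⟩)) ⟨σ, by simpa⟩
  obtain ⟨S, hS⟩ := ex_pow E T
  obtain ⟨V, hV⟩ := sep E S fun Y => ∃ d, E d N ∧ ∀ c, E c N → (∃ p, Q c d p) → ∃ Z, SV E Z κ ∧
    (∀ t, E t Z → ∀ σ, E σ T → Th σ c t → E σ Y) ∧ AE E U fun x => E (ap E c x) (kx E k x Z)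
  refine ⟨V, fun Y hY => ?_, fun Y hY Y' hY' => ?_, fun r a b hr ha hb H => ?_⟩
  · obtain ⟨-, d, d1, d2⟩ := (hV Y).1 hY
    obtain ⟨c, c1, c2, -⟩ := dir d d d1 d1
    obtain ⟨Z, z1, z2, z3⟩ := d2 c c1 c2
    by_contra hn
    obtain ⟨x, -, a, b⟩ := h.nm.ex (h.nm.and z3 (h.up 2 (by omega) h.wr z1 z1 z1 fun t ht _ =>
      let ⟨σ, s1, s2⟩ := hT c t c1 (z1 t ht); hn ⟨σ, z2 t ht σ s1 s2⟩))
    exact b _ a rfl
  · obtain ⟨y, d, d1, d2⟩ := (hV Y).1 hY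
    obtain ⟨-, d', d3, d4⟩ := (hV Y').1 hY'
    obtain ⟨c, c1, -, c2⟩ := dir d d' d1 d3
    obtain ⟨X, hX⟩ := sep E Y fun σ => E σ Y'
    refine ⟨X, (hV X).2 ⟨(hS X).2 fun σ k => (hS Y).1 y σ ((hX σ).1 k).1, c, c1, fun e he k => ?_⟩,
      fun σ k => ((hX σ).1 k).1, fun σ k => ((hX σ).1 k).2⟩
    obtain ⟨Z, z1, z2, z3⟩ := d2 e he (c2 e k).1
    obtain ⟨Z', z4, z5, z6⟩ := d4 e he (c2 e k).2
    obtain ⟨A, hA⟩ := sep E Z fun t => E t Z'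
    have a : SV E A κ := fun t k => z1 t ((hA t).1 k).1
    exact ⟨A, a, fun t k σ s1 s2 => (hX σ).2
      ⟨z2 t ((hA t).1 k).1 σ s1 s2, z5 t ((hA t).1 k).2 σ s1 s2⟩,
      (h.nm.and (h.up 1 (by omega) h.wr z1 z4 a fun t k1 k2 => (hA t).2 ⟨k1, k2⟩)
        (h.nm.and z3 z6)).mono fun x k => k.1 _ k.2.1 k.2.2⟩
  · obtain ⟨c, c1, -, c2⟩ := dir a b ha hb
    obtain ⟨Y, hY⟩ := sep E T fun σ => App E r (ap E σ a) (ap E σ b)
    refine ⟨Y, (hV Y).2 ⟨(hS Y).2 fun σ k => ((hY σ).1 k).1, c, c1, fun e he k => ?_⟩,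
      fun σ k => ((hY σ).1 k).2⟩
    obtain ⟨a1, a2, a3⟩ := hπ e a he ha (c2 e k).1
    obtain ⟨b1, b2, b3⟩ := hπ e b he hb (c2 e k).2
    obtain ⟨g, g1, g2, g3⟩ := h.comp hC a1 hr
    obtain ⟨Z, hZ'⟩ := sep E K fun t => ∃ v, App E g t v ∧ App E (ap E π (pr E e b)) t v
    have z : SV E Z κ := fun t k => (hK t).1 ((hZ' t).1 k).1
    refine ⟨Z, z, fun t k σ s1 s2 => (hY σ).2 ⟨s1, ?_⟩,
      (h.nm.and (h.up 3 (by omega) h.wr g1 b1 z fun t v k1 k2 =>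
        (hZ' t).2 ⟨(hK t).2 (g1.app k1).1, v, k1, k2⟩)
        (h.nm.and (h.nm.and g3 H) (h.nm.and a3 b3))).mono
        fun x k => k.1 _ _ (k.2.1.1 _ _ _ k.2.2.1 k.2.1.2) k.2.2.2⟩
    obtain ⟨-, v, k1, k2⟩ := (hZ' t).1 k
    obtain ⟨u, k3, k4⟩ := g2 t v k1
    rwa [s2 a ha, s2 b hb, ap_eq a2 k3, ap_eq b2 k2]

end Ty

end Pool.Agent.Lib.MP_894941_lc
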