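import Pool.Agent.Lib.MP_894941_lc.Sys

/-! The thread filter is a well-founded system of ultrafilters. -/

set_option synthInstance.maxSize 100000
set_option linter.unusedVariables false
set_option linter.unusedSectionVars false

namespace Pool.Agent.Lib.MP_894941_lc

open Pool.Agent.Lib.MP_1d770b_lc Pool.Agent.Lib.MP_75a307_lc

universe u
variable {M : Type u} {E : M → M → Prop} [hZ : ZF E]

theorem ex_iter {w F S a : M} (hw : IsOmega E w) (hF : Func E F S S) (ha : E a S) :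
    ∃ t, (∀ n, E n w → E (ap E t n) S) ∧
      ∀ n m, E n w → IsSuc E m n → App E F (ap E t n) (ap E t m) := by
  let R : M → M → M → Prop := fun f n y =>
    (∃ m y', IsSuc E n m ∧ App E f m y' ∧ y = ap E F y') ∨ ((¬ ∃ m, IsSuc E n m) ∧ y = a)
  have hr : RecOK E (IsOrd E) E R :=
    { wfOrd E with
      dS := fun _ _ _ _ _ _ => by simp only [R]; infer_instance
      inv := fun f g x y _ H k => k.imp_left fun ⟨m, y', k1, k2, k3⟩ =>
        ⟨m, y', k1, (H m k1.self y').1 k2, k3⟩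
      ex := fun f x _ H => by
        by_cases k : ∃ m, IsSuc E x m
        · obtain ⟨m, k⟩ := k
          obtain ⟨y', k', -⟩ := H m k.self
          exact ⟨_, Or.inl ⟨m, y', k, k', rfl⟩⟩
        · exact ⟨a, Or.inr ⟨k, rfl⟩⟩
      uniq := fun f x y y' _ H h1 h2 => by
        rcases h1 with ⟨m, z, k1, k2, rfl⟩ | ⟨k1, rfl⟩ <;>
          rcases h2 with ⟨m', z', k3, k4, rfl⟩ | ⟨k3, rfl⟩
        · obtain rfl := k1.inj k3
          rw [(H m k1.self).unique k2 k4]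
        · exact (k3 ⟨m, k1⟩).elim
        · exact (k1 ⟨m', k3⟩).elim
        · rfl }
  have dH := hr.dRec
  obtain ⟨t, -, ht⟩ := ex_fun E w (Rec E (IsOrd E) E R) fun _ _ _ _ a b => hr.fn a b
  have tf : Fn E t := fun n y y' a b => hr.fn ((ht _ _).1 a).2 ((ht _ _).1 b).2
  have t1 : ∀ n, E n w → Rec E (IsOrd E) E R n (ap E t n) := fun n hn =>
    let ⟨y, k⟩ := hr.total (hw.ord.mem hn); (ap_eq tf ((ht n y).2 ⟨hn, k⟩)).symm ▸ k
  have t2 : ∀ n m, E n w → IsSuc E m n → ap E t m = ap E F (ap E t n) := fun n m hn hm => by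
    obtain ⟨f, f1, ⟨n', y, k1, k2, k3⟩ | k⟩ := hr.elim (t1 m (hw.suc hm hn))
    · obtain rfl := hm.inj k1
      rw [k3, hr.fn ((f1 n hm.self y).1 k2) (t1 n hn)]
    · exact (k.1 ⟨n, hm⟩).elim
  have t3 : ∀ n, E n w → E (ap E t n) S := hw.ind (fun n => E (ap E t n) S) (fun e he => by
    obtain ⟨f, f1, ⟨n', y, k1, -⟩ | k⟩ := hr.elim (t1 e (hw.emp he))
    · exact (he _ k1.self).elim
    · exact k.2 ▸ ha) fun n s hn hs k =>
      t2 n s hn hs ▸ (hF.mem (app_ap hF.fn (hF.2 _ k))).2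
  exact ⟨t, t3, fun n m hn hm => t2 n m hn hm ▸ app_ap hF.fn (hF.2 _ (t3 n hn))⟩

variable (E) in
structure Sz (κ l U k w K L N V : M) : Prop extends Sy E κ l U k w where
  hK : ∀ s, E s K ↔ Rk E s κ
  hL : ∀ s, E s L ↔ Rk E s l
  hN : ∀ c, E c N ↔ Func E c κ L
  ne : ∀ Y, E Y V → ∃ σ, E σ Y
  inter : ∀ Y, E Y V → ∀ Y', E Y' V → ∃ Z, E Z V ∧ Sub E Z Y ∧ Sub E Z Y'
  tt : ∀ r a b, SV E r κ → E a N → E b N →
    (AE E U fun x => App E (kx E k x r) (ap E a x) (ap E b x)) →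
    AE E V fun σ => App E r (ap E σ a) (ap E σ b)

theorem Sy.sz (hC : Choice E) {κ l U k w : M} (h : Sy E κ l U k w) :
    ∃ K L N V, Sz E κ l U k w K L N V := by
  obtain ⟨K, hK⟩ := ex_V h.nm.ord
  obtain ⟨L, hL⟩ := ex_V h.il.1
  obtain ⟨N, hN, -⟩ := ex_funs (E := E) κ L
  obtain ⟨V, h1, h2, h3⟩ := h.threads hC hL hN
  exact ⟨K, L, N, V, h, hK, hL, hN, h1, h2, h3⟩

namespace Sz

variable {κ l U k w K L N V : M} (h : Sz E κ l U k w K L N V) (hC : Choice E)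
include h

theorem and {P Q : M → Prop} (k : AE E V P) (k' : AE E V Q) : AE E V fun σ => P σ ∧ Q σ :=
  let ⟨Y, h1, h2⟩ := k; let ⟨Y', h3, h4⟩ := k'; let ⟨Z, h5, h6, h7⟩ := h.inter Y h1 Y' h3
  ⟨Z, h5, fun σ hσ => ⟨h2 σ (h6 σ hσ), h4 σ (h7 σ hσ)⟩⟩

theorem ex {P : M → Prop} (k : AE E V P) : ∃ σ, P σ :=
  let ⟨Y, h1, h2⟩ := k; let ⟨σ, hσ⟩ := h.ne Y h1; ⟨σ, h2 σ hσ⟩

theorem sd' {c x : M} (hc : E c N) (hx : E x κ) : Rk E (ap E c x) l := h.toSy.sd h.hL h.hN hc hx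

theorem cov {r r' a b : M} (hr : SV E r κ) (hr' : SV E r' κ) (ha : E a N) (hb : E b N)
    (H : ∀ u v, Rk E u κ → Rk E v κ → App E r u v ∨ App E r' u v) :
    (AE E U fun x => App E (kx E k x r) (ap E a x) (ap E b x)) ∨
      AE E U fun x => App E (kx E k x r') (ap E a x) (ap E b x) :=
  (h.nm.ult fun x => App E (kx E k x r) (ap E a x) (ap E b x)).imp_right fun c =>
    h.nm.mono (h.nm.and c (h.up 0 (by omega) h.wr hr hr' hr H)) fun x hx d =>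
      (d.2 _ _ (h.sd' ha hx) (h.sd' hb hx)).resolve_left d.1

include hC

theorem dom {a : M} (ha : E a N) : AE E V fun σ => Rk E (ap E σ a) κ := by
  obtain ⟨g, g1, g2⟩ := ex_relV (h.lim hC) fun _ _ => True
  exact (h.tt g a a g1 ha ha ((h.cov g1 g1 ha ha fun u v a b =>
    Or.inl ((g2 u v).2 ⟨a, b, trivial⟩)).elim id id)).mono fun σ k => (g1.app k).1

theorem rev {r a b : M} (hr : SV E r κ) (ha : E a N) (hb : E b N)
    (H : AE E V fun σ => App E r (ap E σ a) (ap E σ b)) :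
    AE E U fun x => App E (kx E k x r) (ap E a x) (ap E b x) := by
  obtain ⟨g, g1, g2⟩ := ex_relV (h.lim hC) fun u v => ¬ App E r u v
  refine (h.cov hr g1 ha hb fun u v a b => (em _).imp_right fun c =>
    (g2 u v).2 ⟨a, b, c⟩).resolve_right fun c => ?_
  obtain ⟨σ, k1, k2⟩ := h.ex (h.and H (h.tt g a b g1 ha hb c))
  exact ((g2 _ _).1 k2).2.2 k1

theorem rl (n : ℕ) (hn : n < 9) {q a b : M} (hq : Rk E q κ) (ha : E a N) (hb : E b N) :
    (AE E V fun σ => Rl E n κ q (ap E σ a) (ap E σ b)) ↔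
      AE E U fun x => Rl E n l q (ap E a x) (ap E b x) := by
  obtain ⟨g, g1, g2, g3⟩ := h.gr hC n hn hq
  exact ⟨fun k => (h.nm.and g3 (h.rev hC g1 ha hb
    ((h.and k (h.and (h.dom hC ha) (h.dom hC hb))).mono fun σ k =>
      (g2 _ _).2 ⟨k.2.1, k.2.2, k.1⟩))).mono fun x k => ((k.1 _ _).1 k.2).2.2,
    fun k => (h.tt g a b g1 ha hb (h.nm.mono (h.nm.and g3 k) fun x hx k =>
      (k.1 _ _).2 ⟨h.sd' ha hx, h.sd' hb hx, k.2⟩)).mono fun σ k => ((g2 _ _).1 k).2.2⟩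

theorem pe : PE E K N V := by
  refine ⟨h.ne, h.inter, fun ha => (h.dom hC ha).mono fun σ => (h.hK _).2, fun a ha X => ?_,
    fun {a b} ha hb => ?_, fun S x hx hS => ?_⟩
  · obtain ⟨g, g1, g2⟩ := ex_relV (h.lim hC) fun u _ => E u X
    obtain ⟨g', g3, g4⟩ := ex_relV (h.lim hC) fun u _ => ¬ E u X
    exact (h.cov g1 g3 ha ha fun u v a b => (em _).imp (fun c => (g2 u v).2 ⟨a, b, c⟩)
      fun c => (g4 u v).2 ⟨a, b, c⟩).imp
      (fun c => (h.tt g a a g1 ha ha c).mono fun σ k => ((g2 _ _).1 k).2.2)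
      fun c => (h.tt g' a a g3 ha ha c).mono fun σ k => ((g4 _ _).1 k).2.2
  · obtain ⟨c, c1, c2⟩ := h.pair hC h.hL h.hN ha hb
    exact ⟨c, c1, h.and ((h.dom hC c1).mono fun σ => (h.hK _).2) (h.and
      ((h.rl hC 0 (by omega) h.wr c1 ha).2 (c2.mono fun x k => k.symm ▸ p1_pr _ _))
      ((h.rl hC 1 (by omega) h.wr c1 hb).2 (c2.mono fun x k => k.symm ▸ p2_pr _ _)))⟩
  by_contra hn
  obtain ⟨F, F1, F2⟩ := acF hC S S (fun x x' => Pr E V x' x) fun x hx => by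
    by_contra c
    exact hn ⟨x, hx, fun x' a b => c ⟨x', a, b⟩⟩
  obtain ⟨t, t1, t2⟩ := ex_iter h.om F1 hx
  have tN : ∀ n, E n w → E (p1 E (ap E t n)) N := fun n hn => by
    obtain ⟨a, f, e, k, -⟩ := hS _ (t1 n hn)
    rwa [e, p1_pr]
  obtain ⟨r, r1, r2⟩ := ex_relV (h.lim hC) fun n s => ∀ m, IsSuc E m n →
    E (ap E (p2 E (ap E t m)) (p1 E s)) (ap E (p2 E (ap E t n)) (p2 E s))
  obtain ⟨s, hs⟩ := h.dn 7 (by omega) h.wr r1 r1 r1 ((h.nm.bdd hC h.ow (fun n x => ∀ m,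
    IsSuc E m n → App E (kx E k x r) n
      (pr E (ap E (p1 E (ap E t m)) x) (ap E (p1 E (ap E t n)) x))) fun n hn => by
      obtain ⟨m, hm⟩ := ex_suc E n
      have mw := h.om.suc hm hn
      have nr : Rk E n κ := h.nm.ord.rk (h.nm.ord.tr h.ow hn)
      obtain ⟨Z, hZ'⟩ := sep E K fun s => App E r n s
      have z : SV E Z κ := fun s k => (h.hK s).1 ((hZ' s).1 k).1
      refine (h.nm.and (h.up 6 (by omega) nr z r1 z fun s k => ((hZ' s).1 k).2)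
        (h.rev hC z (tN m mw) (tN n hn) ((h.and (F2 _ _ (t2 n m hn hm)).2.2
          (h.and (h.dom hC (tN m mw)) (h.dom hC (tN n hn)))).mono fun σ k => ?_))).mono
        fun x k m' hm' => hm.uniq hm' ▸ k.1 _ (app_iff.1 k.2)
      have := (h.lim hC).opair k.2.1 k.2.2 (pr_spec _ _)
      refine app_iff.2 ((hZ' _).2 ⟨(h.hK _).2 this, (r2 _ _).2 ⟨nr, this, fun m' hm' => ?_⟩⟩)
      rw [p1_pr, p2_pr, ← hm.uniq hm']
      exact k.1).mono fun x k => by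
      obtain ⟨s, -, hs⟩ := lam hC w fun n => ap E (p1 E (ap E t n)) x
      exact ⟨s, fun n m hn hm => by rw [hs n hn, hs m (h.om.suc hm hn)]; exact k n hn m hm⟩)
  obtain ⟨B, hB⟩ := repl E w (fun n y => y = ap E (p2 E (ap E t n)) (ap E s n))
    fun _ _ _ _ a b => a.trans b.symm
  obtain ⟨e, he⟩ := ex_emp E
  obtain ⟨z, z1, z2⟩ := found B _ ((hB _).2 ⟨e, h.om.emp he, rfl⟩)
  obtain ⟨n, hn', rfl⟩ := (hB z).1 z1
  obtain ⟨m, hm⟩ := ex_suc E n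
  have := ((r2 _ _).1 (hs n m hn' hm)).2.2 m hm
  rw [p1_pr, p2_pr] at this
  exact z2 _ this ((hB _).2 ⟨m, h.om.suc hm hn', rfl⟩)

theorem n3 {z : M} (hz : Pt E K N z) (H : AE E V fun σ => Rk E (ev E z σ) κ) :
    ∃ b, E b N ∧ AE E V fun σ => ev E z σ = ap E σ b := by
  obtain ⟨d, f, rfl, hd, hf⟩ := hz
  simp only [ev_pr] at H ⊢
  obtain ⟨g, g1, g2⟩ := ex_relV (h.lim hC) fun s u =>
    u = ap E f s ∨ (¬ Rk E (ap E f s) κ ∧ u = s)
  obtain ⟨b, b1, b2⟩ := h.seed hC h.hL h.hN (fun x u => App E (kx E k x g) (ap E d x) u)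
    (h.nm.mono (h.up 5 (by omega) h.wr g1 g1 g1 fun s hs => by
      by_cases c : Rk E (ap E f s) κ
      · exact ⟨_, c, (g2 _ _).2 ⟨hs, c, Or.inl rfl⟩⟩
      · exact ⟨s, hs, (g2 _ _).2 ⟨hs, hs, Or.inr ⟨c, rfl⟩⟩⟩) fun x hx k => k _ (h.sd' hd hx))
  exact ⟨b, b1, (h.and H (h.tt g d b g1 hd b1 b2)).mono fun σ k =>
    (((g2 _ _).1 k.2).2.2.resolve_right fun c => c.1 k.1).symm⟩

theorem small {b : M} (hb : E b N) (H : AE E U fun x => E (ap E b x) x) :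
    ∃ ξ, E ξ κ ∧ AE E V fun σ => ap E σ b = ξ :=
  let ⟨ξ, k1, k2⟩ := h.nm.reg hC (fun x ξ => ap E b x = ξ) (H.mono fun x k => ⟨_, k, rfl⟩)
  ⟨ξ, k1, (h.rl hC 5 (by omega) (h.nm.ord.rk k1) hb hb).2 k2⟩

end Sz

end Pool.Agent.Lib.MP_894941_lc
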