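import Pool.Agent.Lib.MP_894941_lc.Sys2

/-! The thread filter is a well-founded system of ultrafilters; its ultrapower witnesses
tallness. -/

set_option synthInstance.maxSize 100000
set_option linter.unusedVariables false
set_option linter.unusedSectionVars false

namespace Pool.Agent.Lib.MP_894941_lc

open Pool.Agent.Lib.MP_1d770b_lc Pool.Agent.Lib.MP_75a307_lc

universe u
variable {M : Type u} {E : M → M → Prop} [hZ : ZF E]

variable (E) in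
structure Tz (κ l U k w K L N V : M) : Prop extends Ty E κ l U k w where
  hK : ∀ s, E s K ↔ Rk E s κ
  hL : ∀ s, E s L ↔ Rk E s l
  hN : ∀ c, E c N ↔ Func E c κ L
  ne : ∀ Y, E Y V → ∃ σ, E σ Y
  inter : ∀ Y, E Y V → ∀ Y', E Y' V → ∃ Z, E Z V ∧ Sub E Z Y ∧ Sub E Z Y'
  tt : ∀ r a b, SV E r κ → E a N → E b N →
    (AE E U fun x => App E (kx E k x r) (ap E a x) (ap E b x)) →
    AE E V fun σ => App E r (ap E σ a) (ap E σ b)

theorem Ty.sz (hC : Choice E) {κ l U k w : M} (h : Ty E κ l U k w) :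
    ∃ K L N V, Tz E κ l U k w K L N V := by
  obtain ⟨K, hK⟩ := ex_V h.nm.ord
  obtain ⟨L, hL⟩ := ex_V h.il.1
  obtain ⟨N, hN, -⟩ := ex_funs (E := E) κ L
  obtain ⟨V, h1, h2, h3⟩ := h.threads hC hL hN
  exact ⟨K, L, N, V, h, hK, hL, hN, h1, h2, h3⟩

namespace Tz

variable {κ l U k w K L N V : M} (h : Tz E κ l U k w K L N V) (hC : Choice E)
include h

theorem and {P Q : M → Prop} (k : AE E V P) (k' : AE E V Q) : AE E V fun σ => P σ ∧ Q σ :=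
  let ⟨Y, h1, h2⟩ := k; let ⟨Y', h3, h4⟩ := k'; let ⟨Z, h5, h6, h7⟩ := h.inter Y h1 Y' h3
  ⟨Z, h5, fun σ hσ => ⟨h2 σ (h6 σ hσ), h4 σ (h7 σ hσ)⟩⟩

theorem ex {P : M → Prop} (k : AE E V P) : ∃ σ, P σ :=
  let ⟨Y, h1, h2⟩ := k; let ⟨σ, hσ⟩ := h.ne Y h1; ⟨σ, h2 σ hσ⟩

theorem sd' {c x : M} (hc : E c N) (hx : E x κ) : Rk E (ap E c x) l := h.toTy.sd h.hL h.hN hc hx

theorem cov {r r' a b : M} (hr : SV E r κ) (hr' : SV E r' κ) (ha : E a N) (hb : E b N)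
    (H : ∀ u v, Rk E u κ → Rk E v κ → App E r u v ∨ App E r' u v) :
    (AE E U fun x => App E (kx E k x r) (ap E a x) (ap E b x)) ∨
      AE E U fun x => App E (kx E k x r') (ap E a x) (ap E b x) :=
  (h.nm.ult fun x => App E (kx E k x r) (ap E a x) (ap E b x)).imp_right fun c =>
    h.nm.mono (h.nm.and c (h.up 0 (by omega) h.wr hr hr' hr fun u a v b => H u v a b))
      fun x hx d => (d.2 _ (h.sd' ha hx) _ (h.sd' hb hx)).resolve_left d.1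

include hC

theorem dom {a : M} (ha : E a N) : AE E V fun σ => Rk E (ap E σ a) κ := by
  obtain ⟨g, g1, g2⟩ := ex_relV (h.lim hC) fun _ _ => True
  exact (h.tt g a a g1 ha ha ((h.cov g1 g1 ha ha fun u v a b =>
    Or.inl ((g2 u v).2 ⟨a, b, trivial⟩)).elim id id)).mono fun σ k => (g1.app k).1

theorem rev {r a b : M} (hr : SV E r κ) (ha : E a N) (hb : E b N)
    (H : AE E V fun σ => App E r (ap E σ a) (ap E σ b)) :
    AE E U fun x => App E (kx E k x r) (ap E a x) (ap E b x) := by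
  obtain ⟨g, g1, g2⟩ := ex_relV (h.lim hC) fun u v => ¬ App E r u v
  refine (h.cov hr g1 ha hb fun u v a b => (em _).imp_right fun c =>
    (g2 u v).2 ⟨a, b, c⟩).resolve_right fun c => ?_
  obtain ⟨σ, k1, k2⟩ := h.ex (h.and H (h.tt g a b g1 ha hb c))
  exact ((g2 _ _).1 k2).2.2 k1

theorem rl (n : ℕ) (hn : n < 9) {q a b : M} (hq : Rk E q κ) (ha : E a N) (hb : E b N) :
    (AE E V fun σ => Rm E n κ q (ap E σ a) (ap E σ b)) ↔
      AE E U fun x => Rm E n l q (ap E a x) (ap E b x) := by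
  obtain ⟨g, g1, g2, g3⟩ := h.gr hC n hn hq
  exact ⟨fun k => (h.nm.and g3 (h.rev hC g1 ha hb
    ((h.and k (h.and (h.dom hC ha) (h.dom hC hb))).mono fun σ k =>
      (g2 _ _).2 ⟨k.2.1, k.2.2, k.1⟩))).mono fun x k => ((k.1 _ _).1 k.2).2.2,
    fun k => (h.tt g a b g1 ha hb (h.nm.mono (h.nm.and g3 k) fun x hx k =>
      (k.1 _ _).2 ⟨h.sd' ha hx, h.sd' hb hx, k.2⟩)).mono fun σ k => ((g2 _ _).1 k).2.2⟩

theorem pe : PE E K N V := by
  refine ⟨h.ne, h.inter, fun ha => (h.dom hC ha).mono fun σ => (h.hK _).2, fun a ha X => ?_,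
    fun {a b} ha hb => ?_, fun S x hx hS => ?_⟩
  · obtain ⟨g, g1, g2⟩ := ex_relV (h.lim hC) fun u _ => E u X
    obtain ⟨g', g3, g4⟩ := ex_relV (h.lim hC) fun u _ => ¬ E u X
    exact (h.cov g1 g3 ha ha fun u v a b => (em _).imp (fun c => (g2 u v).2 ⟨a, b, c⟩)
      fun c => (g4 u v).2 ⟨a, b, c⟩).imp
      (fun c => (h.tt g a a g1 ha ha c).mono fun σ k => ((g2 _ _).1 k).2.2)
      fun c => (h.tt g' a a g3 ha ha c).mono fun σ k => ((g4 _ _).1 k).2.2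
  · obtain ⟨c, c1, c2⟩ := h.pair hC h.hL h.hN ha hb
    exact ⟨c, c1, h.and ((h.dom hC c1).mono fun σ => (h.hK _).2) (h.and
      (((h.rl hC 0 (by omega) h.wr c1 ha).2 (c2.mono fun x k => ⟨_, _, pr_eq.2 k, rfl⟩)).mono
        fun σ ⟨s, t, e1, e2⟩ => by rw [pr_eq.1 e1, p1_pr, e2])
      (((h.rl hC 1 (by omega) h.wr c1 hb).2 (c2.mono fun x k => ⟨_, _, pr_eq.2 k, rfl⟩)).mono
        fun σ ⟨s, t, e1, e2⟩ => by rw [pr_eq.1 e1, p2_pr, e2]))⟩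
  by_contra hn
  obtain ⟨F, F1, F2⟩ := acF hC S S (fun x x' => Pr E V x' x) fun x hx => by
    by_contra c
    exact hn ⟨x, hx, fun x' a b => c ⟨x', a, b⟩⟩
  obtain ⟨t, t1, t2⟩ := ex_iter h.om F1 hx
  have tN : ∀ n, E n w → E (p1 E (ap E t n)) N := fun n hn => by
    obtain ⟨a, f, e, k, -⟩ := hS _ (t1 n hn)
    rwa [e, p1_pr]
  obtain ⟨r, r1, r2⟩ := ex_relV (h.lim hC) fun n s => ∀ m, IsSuc E m n →
    E (ap E (p2 E (ap E t m)) (p1 E s)) (ap E (p2 E (ap E t n)) (p2 E s))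
  have no : Pm E 7 κ w r r r := fun s _ ⟨sf, hs⟩ => by
    obtain ⟨B, hB⟩ := repl E w (fun n y => y = ap E (p2 E (ap E t n)) (ap E s n))
      fun _ _ _ _ a b => a.trans b.symm
    obtain ⟨e, he⟩ := ex_emp E
    obtain ⟨z, z1, z2⟩ := found B _ ((hB _).2 ⟨e, h.om.emp he, rfl⟩)
    obtain ⟨n, hn', rfl⟩ := (hB z).1 z1
    obtain ⟨m, hm⟩ := ex_suc E n
    obtain ⟨u, a1, v, a2, p, a3, a4⟩ := hs n hn' m (h.om.suc hm hn') hm
    have := ((r2 _ _).1 a3).2.2 m hm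
    rw [pr_eq.1 a4, p1_pr, p2_pr, ← ap_eq sf a1, ← ap_eq sf a2] at this
    exact z2 _ this ((hB _).2 ⟨m, h.om.suc hm hn', rfl⟩)
  obtain ⟨x, hx, k1, k2⟩ := h.nm.ex (h.nm.and (h.up 7 (by omega) h.wr r1 r1 r1 no)
    (h.nm.bdd h.ow (fun n x => ∀ m, IsSuc E m n → App E (kx E k x r) n
      (pr E (ap E (p1 E (ap E t m)) x) (ap E (p1 E (ap E t n)) x))) fun n hn => by
      obtain ⟨m, hm⟩ := ex_suc E n
      have mw := h.om.suc hm hn
      have nr : Rk E n κ := h.nm.ord.rk (h.nm.ord.tr h.ow hn)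
      obtain ⟨Z, hZ'⟩ := sep E K fun s => App E r n s
      have z : SV E Z κ := fun s k => (h.hK s).1 ((hZ' s).1 k).1
      refine (h.nm.and (h.up 6 (by omega) nr z r1 z fun s k => ((hZ' s).1 k).2)
        (h.rev hC z (tN m mw) (tN n hn) ((h.and (F2 _ _ (t2 n m hn hm)).2.2
          (h.and (h.dom hC (tN m mw)) (h.dom hC (tN n hn)))).mono fun σ k => ?_))).mono
        fun x k m' hm' => hm.uniq hm' ▸ k.1 _ (app_iff.1 k.2)
      have := (h.lim hC).opair k.2.1 k.2.2 (pr_spec _ _)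
      refine app_iff.2 ((hZ' _).2 ⟨(h.hK _).2 this, (r2 _ _).2 ⟨nr, this, fun m' hm' => ?_⟩⟩)
      rw [p1_pr, p2_pr, ← hm.uniq hm']
      exact k.1))
  obtain ⟨s, s1, s2⟩ := ex_fun E w (fun n y => y = ap E (p1 E (ap E t n)) x)
    fun _ _ _ _ a b => a.trans b.symm
  have lo := h.il.1
  have wl := lo.tr h.lt h.ow
  obtain ⟨ρ, c1, c2⟩ := h.il.bd (fun _ => h.nm.ord.tr h.ow) (fun n γ => Rk E (ap E (p1 E (ap E t n)) x) γ)
    fun n hn => h.il.lim.rk (h.sd' (tN n hn) hx)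
  obtain ⟨μ, m1, m2, m3⟩ := h.il.lim.two wl c1
  have mo := lo.mem m1
  refine k1 s (h.il.lim.rel m1 fun p hp => ?_) ⟨fun _ _ _ a b =>
    ((s2 _ _).1 a).2.trans ((s2 _ _).1 b).2.symm, fun n hn m hm e =>
      ⟨_, (s2 _ _).2 ⟨hm, rfl⟩, _, (s2 _ _).2 ⟨hn, rfl⟩, _, k2 n hn m e, pr_spec _ _⟩⟩
  obtain ⟨n, y, a1, a2, rfl⟩ := s1 p hp
  obtain ⟨γ, a3, a4⟩ := c2 n a1
  exact ⟨n, _, a2, mo.rk (mo.tr m2 a1), a4.lt mo (mo.tr m3 a3)⟩

theorem n3 {z : M} (hz : Pt E K N z) (H : AE E V fun σ => Rk E (ev E z σ) κ) :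
    ∃ b, E b N ∧ AE E V fun σ => ev E z σ = ap E σ b := by
  obtain ⟨d, f, rfl, hd, hf⟩ := hz
  simp only [ev_pr] at H ⊢
  obtain ⟨g, g1, g2⟩ := ex_relV (h.lim hC) fun s u =>
    u = ap E f s ∨ (¬ Rk E (ap E f s) κ ∧ u = s)
  obtain ⟨b, b1, b2⟩ := h.seed hC h.hL h.hN (fun x u => App E (kx E k x g) (ap E d x) u)
    (h.nm.mono (h.up 5 (by omega) h.wr g1 g1 g1 fun s hs => by
      by_cases c : Rk E (ap E f s) κ
      · exact ⟨_, c, (g2 _ _).2 ⟨hs, c, Or.inl rfl⟩⟩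
      · exact ⟨s, hs, (g2 _ _).2 ⟨hs, hs, Or.inr ⟨c, rfl⟩⟩⟩) fun x hx k => k _ (h.sd' hd hx))
  exact ⟨b, b1, (h.and H (h.tt g d b g1 hd b1 b2)).mono fun σ k =>
    (((g2 _ _).1 k.2).2.2.resolve_right fun c => c.1 k.1).symm⟩

theorem small0 {b α : M} (hb : E b N) (hα : E α κ) (H : AE E U fun x => E (ap E b x) α) :
    ∃ ξ, E ξ κ ∧ AE E V fun σ => ap E σ b = ξ := by
  by_contra hn
  obtain ⟨x, -, k1, k2⟩ := h.nm.ex (h.nm.and H (h.nm.bdd hα (fun ξ x => ¬ ap E b x = ξ)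
    fun ξ hξ => (h.nm.ult fun x => ap E b x = ξ).resolve_left fun c =>
      have a := h.nm.ord.tr hα hξ
      hn ⟨ξ, a, (h.rl hC 5 (by omega) (h.nm.ord.rk a) hb hb).2 c⟩))
  exact k2 _ k1 rfl

theorem cst {s : M} (hs : Rk E s l) : ∃ b, E b N ∧ AE E U fun x => ap E b x = s :=
  let ⟨b, b1, b2⟩ := h.seed hC h.hL h.hN (fun _ u => u = s) (h.nm.all fun x _ => ⟨s, hs, rfl⟩)
  ⟨b, b1, b2⟩

theorem small (hn : Nm E κ U) {b : M} (hb : E b N) (H : AE E U fun x => E (ap E b x) x) :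
    ∃ ξ, E ξ κ ∧ AE E V fun σ => ap E σ b = ξ :=
  let ⟨ξ, k1, k2⟩ := hn.reg hC (fun x ξ => ap E b x = ξ) (H.mono fun x k => ⟨_, k, rfl⟩)
  ⟨ξ, k1, (h.rl hC 5 (by omega) (h.nm.ord.rk k1) hb hb).2 k2⟩

end Tz

theorem Tz.base {κ l U k w K L N V : M} (h : Tz E κ l U k w K L N V) (hC : Choice E) :
    ∃ (val j : M → M) (i : M), F1 E val ∧ ElEmb E j {y | ∃ x, Pt E K N x ∧ val x = y} κ ∧
    j κ = l ∧ (∀ x y, Pt E K N x → Pt E K N y → (E (val x) (val y) ↔ Pr E V x y)) ∧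
    (∀ x y, Pt E K N x → Pt E K N y → (val x = val y ↔ Eqv E V x y)) ∧
    (∀ x, Pt E K N x → ∀ z, E z (val x) → ∃ u, Pt E K N u ∧ Pr E V u x ∧ val u = z) ∧
    Tot E K i ∧ ∀ b, E b N → AE E V fun σ => ev E (pr E b i) σ = ap E σ b := by
  have hp := h.pe hC
  have ko := h.nm.ord
  have lo := h.il.1
  have cst : ∀ η, E η l → ∃ b, E b N ∧ AE E U fun x => ap E b x = η := fun η hη =>
    h.cst hC (lo.rk hη)
  obtain ⟨c0, hc0, -⟩ := cst κ h.lt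
  obtain ⟨val, j, dv, hj, h1, h2, h3, h4⟩ := hp.ultra hC hc0
  have dj := hj.fj
  obtain ⟨i, i1, i2⟩ := lam hC K fun s => s
  have evi : ∀ b, E b N → AE E V fun σ => ev E (pr E b i) σ = ap E σ b := fun b hb =>
    (hp.dom hb).mono fun σ k => by rw [ev_pr, i2 _ k]
  have fix : ∀ α, E α κ → j α = α := fun α hα => by
    refine ord_ind (fun α => E α κ → j α = α) (fun α ho ih hα => ext' E fun z =>
      ⟨fun hz => ?_, fun hz => ih z hz (ko.tr hα hz) ▸ hj.mem_iff.2 hz⟩) α (ko.mem hα) hα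
    obtain ⟨x, x1, x2, x3⟩ := h4 α
    obtain ⟨u, u1, u2, rfl⟩ := h3 x x1 z (x2 ▸ hz)
    have u3 : AE E V fun σ => E (ev E u σ) α := (h.and u2 x3).mono fun σ k => k.2 ▸ k.1
    obtain ⟨b, b1, b2⟩ := h.n3 hC u1 (u3.mono fun σ k => ko.rk (ko.tr hα k))
    obtain ⟨ξ, c1, c2⟩ := h.small0 hC b1 hα
      ((h.rl hC 6 (by omega) (ko.rk hα) b1 b1).1 ((h.and u3 b2).mono fun σ k => k.2 ▸ k.1))
    have u4 : AE E V fun σ => ev E u σ = ξ := (h.and b2 c2).mono fun σ k => k.1.trans k.2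
    obtain ⟨σ, d1, d2⟩ := h.ex (h.and u3 u4)
    obtain ⟨y, y1, y2, y3⟩ := h4 ξ
    rw [(h2 u y u1 y1).2 ((h.and u4 y3).mono fun σ k => k.1.trans k.2.symm), y2,
      ih ξ (d2 ▸ d1) c1]
    exact d2 ▸ d1
  obtain ⟨xk, k1, k2, k3⟩ := h4 κ
  have jo := hj.ord ko
  have inj : ∀ b, E b N → (AE E U fun x => E (ap E b x) l) → E (val (pr E b i)) (j κ) :=
    fun b hb H => k2 ▸ (h1 _ _ (Pt.mk' hb i1) k1).2 ((h.and (h.and (evi b hb) k3)
      ((h.rl hC 8 (by omega) h.wr hb hb).2 H)).mono fun σ k => by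
        rw [k.1.1, k.1.2]; exact k.2)
  have tgt : j κ = l := by
    refine ext' E fun z => ⟨fun hz => by_contra fun hn => ?_, fun hz => ?_⟩
    · have zo := jo.mem hz
      obtain ⟨u, u1, u2, rfl⟩ := h3 xk k1 z (k2 ▸ hz)
      have u3 : AE E V fun σ => E (ev E u σ) κ := (h.and u2 k3).mono fun σ k => k.2 ▸ k.1
      obtain ⟨b, b1, b2⟩ := h.n3 hC u1 (u3.mono fun σ k => ko.rk k)
      have b3 := (h.rl hC 8 (by omega) h.wr b1 b1).1 ((h.and u3 b2).mono fun σ k => k.2 ▸ k.1)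
      obtain ⟨ρ, r1, r2⟩ := h.il.bd (fun _ a => a) (fun x y => E (ap E b x) l → ap E b x = y)
        fun x _ => by
          by_cases c : E (ap E b x) l
          · exact ⟨_, c, fun _ => rfl⟩
          · exact ⟨κ, h.lt, fun d => (c d).elim⟩
      have b4 : AE E U fun x => E (ap E b x) ρ := h.nm.mono b3 fun x hx k =>
        let ⟨y, y1, y2⟩ := r2 x hx; (y2 k).symm ▸ y1
      obtain ⟨X, hX, rX⟩ := ex_funs (E := E) κ ρ
      refine h.il.big (rX l h.il.lim (lo.rk h.lt) (lo.rk r1)) (fun c y => val (pr E c i) = y)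
        (fun y hy => ?_) fun _ _ _ a b => a.symm.trans b
      obtain ⟨u', v1, v2, rfl⟩ := h3 u u1 y ((lo.le_of_not zo hn).sub zo y hy)
      obtain ⟨b', c1, c2⟩ := h.n3 hC v1 ((h.and v2 u3).mono fun σ k => ko.rk (ko.tr k.2 k.1))
      have c3 := (h.rl hC 2 (by omega) h.wr c1 b1).1 ((h.and v2 (h.and b2 c2)).mono
        fun σ k => k.2.1 ▸ k.2.2 ▸ k.1)
      obtain ⟨_, -, e⟩ := h.nm.ex b4
      obtain ⟨c, d1, d2⟩ := h.nm.seed hC e (fun x u => u = ap E b' x)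
        ((h.nm.and c3 b4).mono fun x k => ⟨_, (lo.mem r1).tr k.2 k.1, rfl⟩)
      have cN : E c N := (h.hN c).2 ⟨⟨fun p k => let ⟨x, y, a1, a2, a3⟩ := d1.1.1 p k
        ⟨x, y, a1, (h.hL y).2 (lo.rk (lo.tr r1 a2)), a3⟩, d1.fn⟩, d1.2⟩
      exact ⟨c, (hX c).2 d1, (h2 _ _ (Pt.mk' cN i1) v1).2 ((h.and (h.and (evi c cN) c2)
        ((h.rl hC 7 (by omega) h.wr cN c1).2 d2)).mono fun σ k =>
          k.1.1.trans (Eq.trans k.2 k.1.2.symm))⟩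
    · have key : ∀ η, IsOrd E η → E η l → ∀ b, E b N → (AE E U fun x => ap E b x = η) →
          Le E η (val (pr E b i)) := by
        refine ord_ind (fun η => E η l → ∀ b, E b N → (AE E U fun x => ap E b x = η) →
          Le E η (val (pr E b i))) fun η ho ih hη b hb H => ?_
        have vo := jo.mem (inj b hb (H.mono fun x k => k.symm ▸ hη))
        refine ho.le_of_sub vo fun ξ hξ => ?_
        obtain ⟨b', c1, c2⟩ := cst ξ (lo.tr hη hξ)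
        refine (ih ξ hξ (lo.tr hη hξ) b' c1 c2).lt vo
          ((h1 _ _ (Pt.mk' c1 i1) (Pt.mk' hb i1)).2 ((h.and (h.and (evi b' c1) (evi b hb))
            ((h.rl hC 2 (by omega) h.wr c1 hb).2 ((h.nm.and c2 H).mono fun x k => ?_))).mono
            fun σ k => by rw [k.1.1, k.1.2]; exact k.2))
        show E _ _
        rw [k.1, k.2]; exact hξ
      obtain ⟨b, b1, b2⟩ := cst z hz
      exact (key z (lo.mem hz) hz b b1 b2).lt jo (inj b b1 (b2.mono fun x k => k.symm ▸ hz))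
  exact ⟨val, j, i, dv, hj.emb ko fix fun e => no1 ((tgt.symm.trans e) ▸ h.lt), tgt, h1, h2, h3,
    i1, evi⟩

theorem Tz.ss {κ l U k w K L N V x0 : M} (h : Tz E κ l U k w K L N V) (hC : Choice E)
    (hU : ∀ P, AE E U P ↔ P x0) : Superstrong E κ l := by
  obtain ⟨val, j, i, dv, hj, tgt, h1, h2, h3, i1, evi⟩ := h.base hC
  have key : ∀ s, Rk E s l → ∀ b, E b N → ap E b x0 = s → val (pr E b i) = s := by
    refine mem_ind E (fun s => Rk E s l → ∀ b, E b N → ap E b x0 = s → val (pr E b i) = s)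
      fun s ih hs b hb e => ext' E fun z => ⟨fun hz => ?_, fun hz => ?_⟩
    · obtain ⟨u, u1, u2, rfl⟩ := h3 _ (Pt.mk' hb i1) z hz
      have u3 : AE E V fun σ => E (ev E u σ) (ap E σ b) :=
        (h.and u2 (evi b hb)).mono fun σ k => k.2 ▸ k.1
      obtain ⟨b', b1, b2⟩ := h.n3 hC u1 ((h.and u3 (h.dom hC hb)).mono fun σ k => k.2.mem k.1)
      have b3 : E (ap E b' x0) s := e ▸ (hU _).1 ((h.rl hC 2 (by omega) h.wr b1 hb).1
        ((h.and u3 b2).mono fun σ k => k.2 ▸ k.1))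
      rwa [(h2 u _ u1 (Pt.mk' b1 i1)).2 ((h.and b2 (evi b' b1)).mono fun σ k =>
        k.1.trans k.2.symm), ih _ b3 (hs.mem b3) b' b1 rfl]
    · obtain ⟨b', b1, b2⟩ := h.cst hC (hs.mem hz)
      have b3 := (hU _).1 b2
      rw [← ih z hz (hs.mem hz) b' b1 b3]
      refine (h1 _ _ (Pt.mk' b1 i1) (Pt.mk' hb i1)).2 ((h.and (h.and (evi b' b1) (evi b hb))
        ((h.rl hC 2 (by omega) h.wr b1 hb).2 ((hU _).2 ?_))).mono fun σ k => by
          rw [k.1.1, k.1.2]; exact k.2)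
      show E _ _
      rw [b3, e]; exact hz
  refine ⟨j, _, hj, tgt, fun s hs => ?_⟩
  obtain ⟨b, b1, b2⟩ := h.cst hC (inV_iff.1 hs)
  exact ⟨_, Pt.mk' b1 i1, key s (inV_iff.1 hs) b b1 ((hU _).1 b2)⟩

theorem Tz.tall {κ l U k w K L N V : M} (h : Tz E κ l U k w K L N V) (hC : Choice E)
    (hn : Nm E κ U) : Tall E κ l := by
  obtain ⟨val, j, i, dv, hj', tgt, h1, h2, h3, i1, evi⟩ := h.base hC
  have hj := hj'.el
  have hp := h.pe hC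
  have ko := h.nm.ord
  have lo := h.il.1
  refine ⟨j, _, hj', tgt, fun f B hf hW => ?_⟩
  obtain ⟨G, -, -, hG⟩ := skolem hC κ fun ξ z => Pt E K N z ∧ val z = pr E ξ (ap E f ξ)
  replace hG : ∀ ξ, E ξ κ → Pt E K N (ap E G ξ) ∧ val (ap E G ξ) = pr E ξ (ap E f ξ) :=
    fun ξ hξ => hG ξ hξ (hj.pr_mem (hj.ord_mem (ko.mem hξ))
      (hW _ _ (app_ap hf.fn (hf.2 ξ hξ))) (pr_spec _ _))
  have gN : ∀ ξ, E ξ κ → E (p1 E (ap E G ξ)) N := fun ξ hξ => by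
    obtain ⟨a, g, e, k, -⟩ := (hG ξ hξ).1
    rwa [e, p1_pr]
  obtain ⟨c, c1, c2⟩ := h.seed hC h.hL h.hN
    (fun x u => ∀ ξ y, App E u ξ y ↔ E ξ x ∧ y = ap E (p1 E (ap E G ξ)) x)
    (h.nm.all fun x hx => by
      obtain ⟨u, u1, u2⟩ := ex_fun E x (fun ξ y => y = ap E (p1 E (ap E G ξ)) x)
        fun _ _ _ _ a b => a.trans b.symm
      have xl := lo.tr h.lt hx
      obtain ⟨ρ, r1, r2⟩ := h.il.bd (fun _ => ko.tr hx) (fun ξ γ => Rk E (ap E (p1 E (ap E G ξ)) x) γ)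
        fun ξ hξ => h.il.lim.rk (h.sd' (gN ξ (ko.tr hx hξ)) hx)
      obtain ⟨m, m1, m2, m3⟩ := h.il.lim.two xl r1
      have mo := lo.mem m1
      refine ⟨u, h.il.lim.rel m1 fun p hp => ?_, u2⟩
      obtain ⟨ξ, y, a1, a2, rfl⟩ := u1 p hp
      obtain ⟨γ, a3, a4⟩ := r2 ξ a1
      exact ⟨ξ, _, a2, mo.rk (mo.tr m2 a1), a4.lt mo (mo.tr m3 a3)⟩)
  obtain ⟨F, F1, -, F2⟩ := skolem hC K fun t y => ∀ z, E z y ↔
    ∃ ξ, E ξ κ ∧ (∃ v, App E t ξ v) ∧ z = ap E (p2 E (ap E G ξ)) (ap E t ξ)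
  replace F2 := fun t ht => F2 t ht (repl E κ
    (fun ξ z => (∃ v, App E t ξ v) ∧ z = ap E (p2 E (ap E G ξ)) (ap E t ξ))
    fun _ _ _ _ a b => a.2.trans b.2.symm)
  have key : ∀ ξ, E ξ κ → AE E V fun σ => App E (ap E σ c) ξ (ap E σ (p1 E (ap E G ξ))) ∧
      ap E (ap E σ c) ξ = ap E σ (p1 E (ap E G ξ)) := fun ξ hξ =>
    ((h.rl hC 3 (by omega) (ko.rk hξ) c1 (gN ξ hξ)).2 ((h.nm.and c2 (hn.tail hξ)).mono
      fun x k => ⟨(k.1 ξ _).2 ⟨k.2, rfl⟩, fun _ d => ((k.1 _ _).1 d).2⟩)).mono fun σ k =>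
        ⟨k.1, ext' E fun z => (ap_spec _ _ z).trans
          ⟨fun ⟨y, d, e⟩ => k.2 y d ▸ e, fun e => ⟨_, k.1, e⟩⟩⟩
  have pc := Pt.mk' c1 F1
  refine ⟨_, pc, ext' E fun z => ⟨fun hz => ?_, fun hz => ?_⟩⟩
  · obtain ⟨u, u1, u2, rfl⟩ := h3 _ pc z hz
    obtain ⟨y, y1, y2, -⟩ := hp.mkc hC u1 (Pt.mk' c1 i1) (fun u t ξ => E ξ κ ∧
      (∃ v, App E t ξ v) ∧ u = ap E (p2 E (ap E G ξ)) (ap E t ξ))
      fun _ _ _ _ _ _ => inferInstance
    have y3 : AE E V fun σ => E (ev E y σ) κ ∧ (∃ v, App E (ap E σ c) (ev E y σ) v) ∧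
        ev E u σ = ap E (p2 E (ap E G (ev E y σ))) (ap E (ap E σ c) (ev E y σ)) :=
      (h.and (h.and u2 y2) (h.and (evi c c1) (hp.dom c1))).mono fun σ ⟨⟨a1, a2⟩, a3, a4⟩ => by
        rw [a3] at a2
        rw [ev_pr] at a1
        exact a2 ((F2 _ a4 _).1 a1)
    obtain ⟨b, b1, b2⟩ := h.n3 hC y1 (y3.mono fun σ k => ko.rk k.1)
    obtain ⟨ξ, d1, d2⟩ := h.small hC hn b1 ((h.nm.and c2 ((h.rl hC 4 (by omega) h.wr c1 b1).1
      ((h.and y3 b2).mono fun σ k => k.2 ▸ k.1.2.1))).mono fun x ⟨k, v, k'⟩ => ((k _ _).1 k').1)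
    rw [(h2 u _ u1 (hG ξ d1).1).2 ((h.and (h.and y3 (key ξ d1)) (h.and b2 d2)).mono
      fun σ ⟨⟨a1, a2⟩, a3, a4⟩ => by rw [a1.2.2, a3, a4, a2.2]), (hG ξ d1).2]
    exact app_iff.1 (app_ap hf.fn (hf.2 ξ d1))
  · obtain ⟨ξ, y, a1, -, a2⟩ := hf.1.1 z hz
    rw [pr_eq.1 a2, ← ap_eq hf.fn ⟨z, a2, hz⟩, ← (hG ξ a1).2]
    refine (h1 _ _ (hG ξ a1).1 pc).2 ((h.and (key ξ a1) (hp.dom c1)).mono fun σ k => ?_)
    rw [ev_pr]
    exact (F2 _ k.2 _).2 ⟨ξ, a1, ⟨_, k.1.1⟩, by rw [k.1.2]⟩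

end Pool.Agent.Lib.MP_894941_lc
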