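import Pool.Agent.Lib.MP_894941_lc.Core
import Pool.Agent.Lib.MP_894941_lc.Defs3

/-! Elementary maps between transitive classes give good maps. -/

set_option synthInstance.maxSize 100000
set_option linter.unusedVariables false
set_option linter.unusedSectionVars false

namespace Pool.Agent.Lib.MP_894941_lc

open Pool.Agent.Lib.MP_1d770b_lc Pool.Agent.Lib.MP_75a307_lc

universe u
variable {M : Type u} {E : M → M → Prop} [hZ : ZF E]

theorem rdRm {G : Set M → Prop} (n i j k l : ℕ) :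
    RD E G fun _ v => Rm E n (v i) (v j) (v k) (v l) := by
  match n with
  | 0 | 1 | 2 | 3 | 4 | 5 | 6 | 7 | _ + 8 => simp only [Rm]; infer_instance

theorem rdPz {G : Set M → Prop} (n i j k l m o : ℕ) :
    RD E G fun _ v => Pz E (fun s => E s (v i)) n (v j) (v k) (v l) (v m) (v o) := by
  match n with
  | 0 | 1 | 2 | 3 | 4 | 5 | 6 | 7 => simp only [Pz, Chn]; infer_instance
  | n + 8 => have := rdRm (E := E) (G := G) n; simp only [Pz]; infer_instance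

theorem pz_iff {K y : M} (hK : ∀ s, E s K ↔ Rk E s y) (n : ℕ) (q a b c : M) :
    Pz E (fun s => E s K) n y q a b c ↔ Pm E n y q a b c := by
  rw [Pm, funext fun s => propext (hK s)]

variable (E) in
structure E2 (A B : Set M) (e : M → M) : Prop where
  ta : Tr E A
  tb : Tr E B
  maps : ∀ x ∈ A, e x ∈ B
  elem : ∀ φ (v : ℕ → M), (∀ i, v i ∈ A) → (SatW E A φ v ↔ SatW E B φ fun n => e (v n))
  de : D2 E fun x y => e x = y

theorem E2.tr {A B : Set M} {e : M → M} (h : E2 E A B e) (P : Set M → (ℕ → M) → Prop)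
    [d : RD E (fun _ => True) P] (v : ℕ → M) (hv : ∀ i, v i ∈ A) :
    P A v ↔ P B fun n => e (v n) := by
  obtain ⟨φ, hφ⟩ := d.out
  rw [← hφ _ trivial h.ta v hv, ← hφ _ trivial h.tb _ fun _ => h.maps _ (hv _)]
  exact h.elem φ v hv

theorem E2.tr2 {A B : Set M} {e : M → M} (h : E2 E A B e) (P : Set M → M → M → Prop)
    [RD E (fun _ => True) fun W v => P W (v 0) (v 1)] {a b : M} (ha : a ∈ A) (hb : b ∈ A) :
    P A a b ↔ P B (e a) (e b) :=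
  h.tr (fun W v => P W (v 0) (v 1)) (fun n => [a].getD n b) fun n =>
    match n with | 0 => ha | _ + 1 => hb

theorem E2.tr4 {A B : Set M} {e : M → M} (h : E2 E A B e) (P : Set M → M → M → M → M → Prop)
    [RD E (fun _ => True) fun W v => P W (v 0) (v 1) (v 2) (v 3)] {a b c d : M} (ha : a ∈ A)
    (hb : b ∈ A) (hc : c ∈ A) (hd : d ∈ A) : P A a b c d ↔ P B (e a) (e b) (e c) (e d) :=
  h.tr (fun W v => P W (v 0) (v 1) (v 2) (v 3)) (fun n => [a, b, c].getD n d) fun n =>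
    match n with | 0 => ha | 1 => hb | 2 => hc | _ + 3 => hd

theorem E2.pz {A B : Set M} {e : M → M} (h : E2 E A B e) (n : ℕ) {K x q a b c : M} (hK : K ∈ A)
    (hx : x ∈ A) (hq : q ∈ A) (ha : a ∈ A) (hb : b ∈ A) (hc : c ∈ A)
    (H : Pz E (fun s => E s K) n x q a b c) :
    Pz E (fun s => E s (e K)) n (e x) (e q) (e a) (e b) (e c) :=
  have := rdPz (E := E) (G := fun _ => True) n
  (h.tr (fun _ v => Pz E (fun s => E s (v 0)) n (v 1) (v 2) (v 3) (v 4) (v 5))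
    (fun n => [K, x, q, a, b].getD n c) fun n => match n with
      | 0 => hK | 1 => hx | 2 => hq | 3 => ha | 4 => hb | _ + 5 => hc).1 H

theorem E2.gm {A B : Set M} {e : M → M} (h : E2 E A B e) {x l K L : M} (hx : Lim E x)
    (hK : ∀ s, E s K ↔ Rk E s x) (hL : ∀ s, E s L ↔ Rk E s l) (hA : ∀ a, SV E a x → a ∈ A)
    (e1 : e K = L) (e2 : e x = l) (e3 : ∀ q, Rk E q x → e q = q) :
    ∃ r, (∀ p, E p r → ∃ a s, SV E a x ∧ Rk E s l ∧ IsOPair E p a s) ∧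
      (∀ a s, App E r a s ↔ SV E a x ∧ E s (e a)) ∧ Gm E x r l := by
  have de := f1 h.de
  obtain ⟨P, hP⟩ := ex_pow E K
  replace hP : ∀ a, E a P ↔ SV E a x := fun a =>
    (hP a).trans (forall_congr' fun s => imp_congr_right fun _ => hK s)
  have kA := hA K fun s => (hK s).1
  obtain ⟨r, r1, r2⟩ := ex_rel E P L fun a s => E s (e a)
  have r3 : ∀ a s, App E r a s ↔ SV E a x ∧ E s (e a) := fun a s => (r2 a s).trans
    ⟨fun k => ⟨(hP a).1 k.1, k.2.2⟩, fun k => ⟨(hP a).2 k.1, e1 ▸ (h.tr2 (fun _ a K => Sub E a K)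
      (hA a k.1) kA).1 (fun s c => (hK s).2 (k.1 s c)) s k.2, k.2⟩⟩
  have im : ∀ a a', SV E a x → Im E r a a' → a' = e a := fun a a' ha k =>
    ext' E fun s => ⟨fun c => ((r3 a s).1 (k.1 s c)).2, fun c => k.2 s ((r3 a s).2 ⟨ha, c⟩)⟩
  refine ⟨r, fun p k => ?_, r3, hx, fun n q hq a ha b hb c hc H a' k1 b' k2 c' k3 => ?_⟩
  · obtain ⟨a, s, k1, k2, k3, -⟩ := (r1 p).1 k
    exact ⟨a, s, (hP a).1 k1, (hL s).1 k2, k3⟩
  have := h.pz n kA (hA x fun s => hx.1.rk) (hA q fun s => hq.mem) (hA a ha) (hA b hb) (hA c hc)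
    ((pz_iff hK n q a b c).2 H)
  rw [im a a' ha k1, im b b' hb k2, im c c' hc k3, ← pz_iff hL, ← e1, ← e2, ← e3 q hq]
  exact this

theorem ElEmb.e2 {j : M → M} {W : Set M} {κ : M} (h : ElEmb E j W κ) : E2 E Set.univ W j :=
  ⟨tr_univ, h.trans, fun x _ => h.maps x, fun φ v _ => (satW_univ φ v).trans (h.el.elem φ v),
    h.el.dj⟩

theorem ElEmb.gm {j : M → M} {W : Set M} {κ : M} (h : ElEmb E j W κ) (hV : VSub E W (j κ)) :
    ∃ r, Gm E κ r (j κ) := by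
  obtain ⟨K, hK⟩ := ex_V h.ord
  obtain ⟨r, -, -, k⟩ := (ElEmb.e2 h).gm (L := j K) h.ia.lim hK (fun s =>
    ⟨fun c => (h.el.mem_V hK (h.trans _ (h.maps K) s c)).1 c,
      fun c => (h.el.mem_V hK (hV.mem c)).2 c⟩) (fun _ _ => trivial) rfl rfl fun q => h.fixV
  exact ⟨r, k⟩

theorem Superstrong.tg (hC : Choice E) {α k l : M} (h : Superstrong E α l) (lt : E k l)
    (hc : ∀ f, Func E f k l → ∃ b, E b l ∧ ∀ x y, App E f x y → E y b) : Tg E k l := by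
  obtain ⟨j, W, h, rfl, hV⟩ := h
  have hl : Lim E (j α) := (h.el.tr1 (fun _ k => Lim E k) α).1 h.ia.lim
  refine ⟨hl.1, hl, fun {x} s P hP H => ?_, fun {x} hx P hP H hu => ?_⟩
  · have := hP.d2
    obtain ⟨f, f1, f2⟩ := acF hC k (j α) (fun u y => E u x → P u y) fun u _ => by
      by_cases c : E u x
      · exact let ⟨y, a, b⟩ := H u c; ⟨y, a, fun _ => b⟩
      · exact ⟨k, lt, fun d => (c d).elim⟩
    obtain ⟨b, b1, b2⟩ := hc f f1
    exact ⟨b, b1, fun u hu => let ⟨y, _, a⟩ := f1.tot (s u hu); ⟨y, b2 _ _ a, (f2 _ _ a).2.2 hu⟩⟩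
  obtain ⟨θ, t1, t2⟩ := (h.el.tr1 (fun W k => ∀ x ∈ W, Rk E x k → ∃ θ, E θ k ∧ ∀ g ∈ W, Fn E g →
    ∃ y, E y θ ∧ ∀ u, E u x → ¬ App E g u y) α).1 (fun x _ hx => by
      obtain ⟨p, hp⟩ := ex_pow E x
      obtain ⟨θ, t1, c, c1, c2⟩ := h.ia.small hC
        (MP_75a307_lc.Lim.pow h.ia.lim hx fun s => (hp s).1)
      refine ⟨θ, t1, fun g _ hg => ?_⟩
      obtain ⟨D, hD⟩ := sep E x fun u => ∀ y s, App E g u y → App E c s y → ¬ E u s
      obtain ⟨y, y1, y2⟩ := c1.tot ((hp D).2 fun u a => ((hD u).1 a).1)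
      refine ⟨y, y1, fun u a b => ?_⟩
      have : ¬ E u D := fun d => ((hD u).1 d).2 y D b y2 d
      exact this ((hD u).2 ⟨a, fun y' s d e => c2 _ _ _ y2 (hg _ _ _ d b ▸ e) ▸ this⟩))
    x (hV.mem hx) hx
  obtain ⟨g, g1, g2⟩ := ex_rel E x θ P
  obtain ⟨γ, a1, a2, a3⟩ := hl.rk2 hx (hl.1.rk t1)
  obtain ⟨y, y1, y2⟩ := t2 g (hV.mem (hl.rel a1 fun p k =>
    let ⟨u, y, b1, b2, b3, _⟩ := (g1 p).1 k; ⟨u, y, b3, a2.mem b1, a3.mem b2⟩))
    fun u y y' a b => hu u y y' ((g2 _ _).1 a).2.2 ((g2 _ _).1 b).2.2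
  obtain ⟨u, u1, u2⟩ := H y (hl.1.tr t1 y1)
  exact y2 u u1 ((g2 _ _).2 ⟨u1, y1, u2⟩)

theorem Tg.sl (hC : Choice E) {k l w : M} (h : Tg E k l) (hw : IsOmega E w) (wl : E w l) :
    StrongLim E l := by
  refine ⟨⟨h.1, fun α hα ⟨f, h1, h2, _⟩ => h.big (h.1.rk hα) (fun u y => App E f y u)
    (fun y hy => h1.tot hy) fun u y y' => h2 y y' u⟩, ⟨w, hw, fun _ => h.1.tr wl⟩,
    fun α hα p hp => ?_⟩
  obtain ⟨c, θ, h1, h2, h3, h4, -⟩ := enum hC p
  refine ⟨θ, by_contra fun hn => ?_, c, h2, h3⟩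
  refine h.big (MP_75a307_lc.Lim.pow h.lim (h.1.rk hα) fun x => (hp x).1)
    (fun u y => App E c u y) (fun y hy => ?_) h2.fn
  obtain ⟨u, hu⟩ := h4 y ((h.1.le_of_not h1 hn).sub h1 y hy)
  exact ⟨u, (h2.mem hu).1, hu⟩

theorem main2 (hC : Choice E) {k l : M} (lt : E k l)
    (hc : ∀ f, Func E f k l → ∃ b, E b l ∧ ∀ x y, App E f x y → E y b)
    (H : Conc E k fun α => Superstrong E α l) :
    StrongLim E l ∧ ∃ κ, Incl E κ k ∧ Tall E κ l ∧ ∀ μ, ¬ Superstrong E κ μ := by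
  obtain ⟨U, X, h1, h2, h3⟩ := H
  obtain ⟨α, a, -⟩ := h1.free X X h2
  have hl := (h3 α a).tg hC lt hc
  obtain ⟨κ, k1, k2⟩ := core hC (normal_nm hC h1) hl lt ⟨X, h2, fun α k =>
    let ⟨j, W, a, b, c⟩ := h3 α k; b ▸ ElEmb.gm a (b.symm ▸ c)⟩
  obtain ⟨w, w1, w2⟩ := h1.unc.2
  exact ⟨hl.sl hC w1 (hl.1.tr lt w2), κ, k1.sub h1.unc.1, k2⟩

end Pool.Agent.Lib.MP_894941_lc
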