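import Pool.Agent.Lib.MP_894941_lc.Nm

/-! Embeddings between power sets of ranks, from a measurable Vopenka cardinal. -/

set_option synthInstance.maxSize 100000
set_option linter.unusedVariables false
set_option linter.unusedSectionVars false

namespace Pool.Agent.Lib.MP_894941_lc

open Pool.Agent.Lib.MP_1d770b_lc Pool.Agent.Lib.MP_75a307_lc

universe u
variable {M : Type u} {E : M → M → Prop} [hZ : ZF E]

/-- `a ⊆ V_y` -/
def SV (E : M → M → Prop) (a y : M) : Prop := ∀ s, E s a → Rk E s y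

instance (a b : (ℕ → M) → M) [IsT a] [IsT b] : Df E fun v => SV E (a v) (b v) := by
  unfold SV; infer_instance

abbrev D5 (E : M → M → Prop) (S : M → M → M → M → M → Prop) : Prop :=
  ∀ (p q r s t : (ℕ → M) → M) [IsT p] [IsT q] [IsT r] [IsT s] [IsT t],
    Df E (fun v => S (p v) (q v) (r v) (s v) (t v))

variable (E) in
/-- `k` preserves `Φ` from `P(V_y)` to `P(V_l)`, with parameters from `V_x` -/
def Gd (Φ : M → M → M → M → M → Prop) (k y l x : M) : Prop :=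
  ∀ i a b c, Rk E i x → SV E a y → SV E b y → SV E c y → ∀ a', a' = ap E k a → ∀ b',
    b' = ap E k b → ∀ c', c' = ap E k c → (Φ y i a b c ↔ Φ l i a' b' c')

theorem dGd {Φ : M → M → M → M → M → Prop} (hΦ : D5 E Φ) : D4 E (Gd E Φ) :=
  fun _ _ _ _ _ _ _ _ => by unfold Gd; infer_instance

theorem vp (hC : Choice E) {Φ : M → M → M → M → M → Prop} (hΦ : D5 E Φ) {β W : M}
    (hV : Vop E β) (hW : Nm E β W) (h1 : AE E W (O1 E)) :
    ∃ y l, E y l ∧ E l β ∧ O1 E y ∧ O1 E l ∧ ∀ x, E x y → ∃ k, Gd E Φ k y l x := by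
  by_contra hn
  have dG := dGd hΦ
  have hb := hW.ia hC
  have s1 : AE E W fun y => ∃ x, E x y ∧ AE E W fun l => ¬ ∃ k, Gd E Φ k y l x :=
    hW.mono h1 fun y hy oy => by
      obtain ⟨x, -, k⟩ := hW.reg hC (fun l x => E x y ∧ ¬ ∃ k, Gd E Φ k y l x)
        (hW.mono (hW.and h1 (hW.tail hy)) fun l hl ⟨ol, k⟩ => by
          by_contra c
          exact hn ⟨y, l, k, hl, oy, ol, fun x hx => by_contra fun d =>
            c ⟨x, (hW.ord.mem hl).tr k hx, hx, d⟩⟩)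
      obtain ⟨_, -, k', -⟩ := hW.ex k
      exact ⟨x, k', k.mono fun l a => a.2⟩
  obtain ⟨e, he, s2⟩ := hW.reg hC (fun y x => AE E W fun l => ¬ ∃ k, Gd E Φ k y l x) s1
  obtain ⟨H0, a1, a2⟩ := s2
  obtain ⟨H, b1, b2⟩ := hW.and (hW.and h1 ⟨H0, a1, fun _ k => k⟩) (hW.diag hC
    (fun y l => E y H0 → ¬ ∃ k, Gd E Φ k y l e) fun y _ => by
      by_cases c : E y H0
      · exact (a2 y c).mono fun l k _ => k
      · exact hW.all fun l _ k => (c k).elim)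
  let St : M → M → M → Prop := fun y A R => (∀ a, E a A ↔ SV E a y) ∧ ∀ p, E p R ↔
    ∃ i a b c, p = pr E (pr E i a) (pr E b c) ∧ Rk E i e ∧ SV E a y ∧ SV E b y ∧ SV E c y ∧
      Φ y i a b c
  have dS : D3 E St := fun _ _ _ _ _ _ => by simp only [St]; infer_instance
  obtain ⟨v, hv⟩ := ex_V hb.1
  obtain ⟨I, hI⟩ := ex_V (hb.1.mem he)
  obtain ⟨C, hC'⟩ := sep E v fun s => ∃ y A R, E y H ∧ IsOPair E s A R ∧ St y A R
  have ex : ∀ y, E y H → ∃ A R, App E C A R ∧ St y A R := fun y hy => by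
    obtain ⟨m, m1, m2, m3⟩ := hb.lim.two (hW.2.2.1 H b1 y hy) he
    obtain ⟨n, n1, n2, n3⟩ := hb.lim_below m1
    have r : ∀ a, SV E a y → Rk E a n := fun a => rk_of_sub n3.1 (n3.1.tr n2 m2)
    obtain ⟨t, ht⟩ := ex_V n3.1
    obtain ⟨A, hA⟩ := sep E t fun a => SV E a y
    obtain ⟨R, hR⟩ := sep E t fun p => ∃ i a b c, p = pr E (pr E i a) (pr E b c) ∧ Rk E i e ∧
      SV E a y ∧ SV E b y ∧ SV E c y ∧ Φ y i a b c
    have st : St y A R := ⟨fun a => (hA a).trans ⟨fun k => k.2, fun k => ⟨(ht a).2 (r a k), k⟩⟩,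
      fun p => (hR p).trans ⟨fun k => k.2, fun k => ⟨(ht p).2 (by
        obtain ⟨i, a, b, c, rfl, k1, k2, k3, k4, -⟩ := k
        exact n3.opair (n3.opair (k1.lt n3.1 (n3.1.tr n2 m3)) (r a k2) (pr_spec _ _))
          (n3.opair (r b k3) (r c k4) (pr_spec _ _)) (pr_spec _ _)), k⟩⟩⟩
    exact ⟨A, R, app_iff.2 ((hC' _).2 ⟨(hv _).2 (hb.lim.opair
      (rk_of_sub hb.1 n1 fun z k => (ht z).1 ((hA z).1 k).1)
      (rk_of_sub hb.1 n1 fun z k => (ht z).1 ((hR z).1 k).1) (pr_spec _ _)),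
      y, A, R, hy, pr_spec _ _, st⟩), st⟩
  have inv : ∀ A R, App E C A R → ∃ y, E y H ∧ St y A R := fun A R ⟨p, k1, k2⟩ => by
    obtain ⟨-, y, A', R', k3, k4, k5⟩ := (hC' p).1 k2
    obtain ⟨rfl, rfl⟩ := k1.inj k4
    exact ⟨y, k3, k5⟩
  have ia : ∀ y, E y H → IA E Set.univ y := fun y hy =>
    let ⟨_, k⟩ := (b2 y hy).1.1.1; k.ia hC
  have tup : ∀ y A R, St y A R → ∀ i a b c, Rk E i e → E a A → E b A → E c A →
      (Tup E R i a b c ↔ Φ y i a b c) := fun y A R st i a b c k1 k2 k3 k4 => by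
    constructor
    · rintro ⟨p, q, d1, d2, d3⟩
      rw [pr_eq.1 d1, pr_eq.1 d2, app_iff, st.2] at d3
      obtain ⟨i', a', b', c', d4, -, -, -, -, d5⟩ := d3
      obtain ⟨d6, d7⟩ := pr_inj d4
      obtain ⟨rfl, rfl⟩ := pr_inj d6
      obtain ⟨rfl, rfl⟩ := pr_inj d7
      exact d5
    · exact fun k => ⟨_, _, pr_spec _ _, pr_spec _ _, app_iff.2 ((st.2 _).2
        ⟨i, a, b, c, rfl, k1, (st.1 a).1 k2, (st.1 b).1 k3, (st.1 c).1 k4, k⟩)⟩
  obtain ⟨A, R, B, S, k, c1, c2, c3, c4, c5, c6⟩ := hV.2 I C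
    (inV_iff.2 (rk_of_sub hb.1 he fun z => (hI z).1))
    (fun s hs => let ⟨k1, _, A, R, _, k2, _⟩ := (hC' s).1 hs
      ⟨inV_iff.2 ((hv s).1 k1), A, R, k2⟩) fun k => by
      obtain ⟨γ, g1, g2⟩ := hb.lim.rk (inV_iff.1 k)
      obtain ⟨y, -, g3, g4⟩ := hW.ex (hW.and ⟨H, b1, fun _ k => k⟩ (hW.tail g1))
      obtain ⟨A, R, g5, g6⟩ := ex y g3
      exact no2 g4 (((g2.app g5).1.mem ((g6.1 y).2 fun s => (ia y g3).1.rk)).ord_mem (ia y g3).1)
  obtain ⟨y, y1, y2⟩ := inv A R c1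
  obtain ⟨l, l1, l2⟩ := inv B S c2
  rcases (ia y y1).1.tri (ia l l1).1 with d | rfl | d
  · refine (b2 l l1).2 y d (b2 y y1).1.2 ⟨k, fun i a b c d1 d2 d3 d4 a' e1 b' e2 c' e3 => ?_⟩
    have ap' : ∀ a, SV E a y → App E k a (ap E k a) := fun a k' =>
      app_ap c4.fn (c4.2 a ((y2.1 a).2 k'))
    subst e1 e2 e3
    rw [← tup y A R y2 i a b c d1 ((y2.1 a).2 d2) ((y2.1 b).2 d3) ((y2.1 c).2 d4),
      ← tup l B S l2 i _ _ _ d1 (c4.mem (ap' a d2)).2 (c4.mem (ap' b d3)).2 (c4.mem (ap' c d4)).2]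
    exact c6 i a b c _ _ _ ((hI i).2 d1) (ap' a d2) (ap' b d3) (ap' c d4)
  · exact c3.elim (fun k => k (ext' E fun a => (y2.1 a).trans (l2.1 a).symm))
      fun k => k (ext' E fun a => (y2.2 a).trans (l2.2 a).symm)
  · obtain ⟨n, n1, n2⟩ := (ia y y1).lim.2 l d
    refine (ia y y1).big (x := B) (rk_of_sub (ia y y1).1 n1 fun z k =>
      rk_of_sub ((ia y y1).1.mem n1) n2 ((l2.1 z).1 k)) (fun u ξ => App E k ξ u)
      (fun ξ hξ => c4.tot ((y2.1 ξ).2 fun s k => (ia y y1).1.rk ((ia y y1).1.tr hξ k)))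
      fun u a b => c5 a b u

end Pool.Agent.Lib.MP_894941_lc
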